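import Pool.Agent.Work.MP_64713a_lc.States

set_option autoImplicit false

namespace Pool.Agent.Work.MP_64713a_lc

open Filter Topology

theorem mu_pos_of_density {A : Set ℕ} {δ : ℝ} (hδ : 0 < δ)
    (h : ∀ᶠ n : ℕ in atTop, δ * (n : ℝ) ≤ ((A ∩ Set.Iio n).ncard : ℝ))
    (W : Ultrafilter ℕ) (hW : (W : Filter ℕ) ≤ cofinite) : 0 < mu W A := by
  obtain ⟨b, hb⟩ := exists_nat_gt (2 / δ)
  have hb0 : (0 : ℝ) < b := lt_trans (by positivity) hb
  have hb1 : 0 < b := by exact_mod_cast hb0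
  rw [div_lt_iff₀ hδ] at hb
  obtain ⟨N, hN⟩ := eventually_atTop.1 h
  have h1 : {m | dGe A b m} ∈ W := by
    apply mem_of_superset (ge_mem hW (max N b))
    intro m hm
    have hm1 : N ≤ m := le_trans (le_max_left _ _) hm
    have hm2 : b ≤ m := le_trans (le_max_right _ _) hm
    have h2 := hN (gg (m + 1)) (le_trans hm1 (le_trans (Nat.le_succ m) (le_gg _)))
    have h3 : (A ∩ Set.Iio (gg (m + 1))).ncard ≤ gg m + cn A m := by
      have h4 : A ∩ Set.Iio (gg (m + 1)) ⊆ ((Finset.range (gg m) : Finset ℕ) : Set ℕ) ∪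
          (A ∩ (blk m : Set ℕ)) := by
        rintro x ⟨hx1, hx2⟩
        by_cases hx : x < gg m
        · left; simpa using hx
        · right
          refine ⟨hx1, ?_⟩
          rw [Finset.mem_coe, mem_blk]
          exact ⟨by omega, hx2⟩
      refine (Set.ncard_le_ncard h4 ((Finset.finite_toSet _).union (fin_blk _ _))).trans ?_
      refine (Set.ncard_union_le _ _).trans ?_
      rw [Set.ncard_coe_finset, Finset.card_range]
      exact le_rfl
    have h3' : ((A ∩ Set.Iio (gg (m + 1))).ncard : ℝ) ≤ gg m + cn A m := by exact_mod_cast h3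
    have h5 : b * gg m ≤ gg (m + 1) := by
      rw [gg_succ]
      calc b * gg m ≤ (m + 2) * gg m := Nat.mul_le_mul_right _ (by omega)
        _ ≤ (m + 2) * (gg m + 1) := Nat.mul_le_mul_left _ (by omega)
    have h5' : (b : ℝ) * gg m ≤ gg (m + 1) := by exact_mod_cast h5
    have h6 : (0 : ℝ) ≤ gg (m + 1) := by positivity
    have h7 : (gg (m + 1) : ℝ) ≤ b * cn A m := by
      have h8 : (b : ℝ) * (δ * gg (m + 1)) ≤ b * (gg m + cn A m) :=
        mul_le_mul_of_nonneg_left (h2.trans h3') hb0.le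
      have h9 : 2 * (gg (m + 1) : ℝ) ≤ b * (δ * gg (m + 1)) := by
        have : 2 * (gg (m + 1) : ℝ) ≤ (b * δ) * gg (m + 1) :=
          mul_le_mul_of_nonneg_right hb.le h6
        linarith
      linarith
    have h10 : gg (m + 1) ≤ b * cn A m := by exact_mod_cast h7
    change (blk m).card ≤ b * cn A m
    rw [card_blk]
    omega
  have h2 := le_mu_of_dGe hb1 h1
  have h3 : (0 : ℝ) < 1 / b := by positivity
  linarith

theorem main_thm (X A : Set ℕ) (hX : ¬ (Pi11 X ∅ ∧ Pi11 Xᶜ ∅))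
    (hA : ∃ δ : ℝ, 0 < δ ∧ ∀ᶠ n : ℕ in atTop, δ * (n : ℝ) ≤ ((A ∩ Set.Iio n).ncard : ℝ)) :
    ∃ B : Set ℕ, B ⊆ A ∧ B.Infinite ∧ ¬ (Pi11 X B ∧ Pi11 Xᶜ B) := by
  obtain ⟨δ, hδ, hA⟩ := hA
  obtain ⟨S, d, hS, hPhi⟩ := exists_model
  obtain ⟨φ, hφ⟩ := dfn_phi
  obtain ⟨f, hf, hf1, hf2⟩ := omitting X hX S d hS φ ((hφ S () (fun _ => d)).2 hPhi)
  have hPhi' : Phi (strOf f) := (hφ (strOf f) () (fun _ => (0 : ℕ))).1 hf1
  obtain ⟨B, hB1, hB2, g, hg1, hg2, hg3⟩ := construct hf.compr hPhi' X (fun i hi => hf2 i (by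
    intro n
    have : n ∈ (strOf f).set i ↔ n ∈ X := by rw [hi]
    exact this.symm)) A (mu_pos_of_density hδ hA)
  refine ⟨B, hB1, hB2, ?_⟩
  refine not_pi11_of_omit (S := strOf g) (d := (0 : ℕ)) hg1.compr (i := (0 : ℕ)) ?_ X ?_
  · ext n
    exact hg2 n
  · intro j hj
    apply hg3 j
    intro n
    have : n ∈ (strOf g).set j ↔ n ∈ X := by rw [hj]
    exact this.symm

end Pool.Agent.Work.MP_64713a_lc
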