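import Pool.Agent.Work.MP_64713a_lc.Omit

set_option autoImplicit false

namespace Pool.Agent.Work.MP_64713a_lc

attribute [fun_prop] Primrec
attribute [fun_prop] PrimrecPred

section primcalc

variable {α β γ σ : Type} [Primcodable α] [Primcodable β] [Primcodable γ] [Primcodable σ]

@[fun_prop] theorem p_id : Primrec (fun x : α => x) := Primrec.id
@[fun_prop] theorem p_const (c : β) : Primrec (fun _ : α => c) := Primrec.const c
@[fun_prop] theorem p_comp {f : β → σ} {g : α → β} (hf : Primrec f) (hg : Primrec g) :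
    Primrec (fun x : α => f (g x)) := hf.comp hg
@[fun_prop] theorem p_pair {f : α → β} {g : α → γ} (hf : Primrec f) (hg : Primrec g) :
    Primrec (fun x : α => (f x, g x)) := hf.pair hg
@[fun_prop] theorem p_fst {f : α → β × γ} (hf : Primrec f) : Primrec (fun x : α => (f x).1) :=
  Primrec.fst.comp hf
@[fun_prop] theorem p_snd {f : α → β × γ} (hf : Primrec f) : Primrec (fun x : α => (f x).2) :=
  Primrec.snd.comp hf
@[fun_prop] theorem p_add {f g : α → ℕ} (hf : Primrec f) (hg : Primrec g) :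
    Primrec (fun x : α => f x + g x) := Primrec.nat_add.comp hf hg
@[fun_prop] theorem p_mul {f g : α → ℕ} (hf : Primrec f) (hg : Primrec g) :
    Primrec (fun x : α => f x * g x) := Primrec.nat_mul.comp hf hg
@[fun_prop] theorem p_sub {f g : α → ℕ} (hf : Primrec f) (hg : Primrec g) :
    Primrec (fun x : α => f x - g x) := Primrec.nat_sub.comp hf hg
@[fun_prop] theorem p_npair {f g : α → ℕ} (hf : Primrec f) (hg : Primrec g) :
    Primrec (fun x : α => Nat.pair (f x) (g x)) := Primrec₂.natPair.comp hf hg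
@[fun_prop] theorem p_unpair {f : α → ℕ} (hf : Primrec f) :
    Primrec (fun x : α => Nat.unpair (f x)) := Primrec.unpair.comp hf
@[fun_prop] theorem p_append {f g : α → List β} (hf : Primrec f) (hg : Primrec g) :
    Primrec (fun x : α => f x ++ g x) := Primrec.list_append.comp hf hg
@[fun_prop] theorem p_cons {f : α → β} {g : α → List β} (hf : Primrec f) (hg : Primrec g) :
    Primrec (fun x : α => f x :: g x) := Primrec.list_cons.comp hf hg
@[fun_prop] theorem p_take {f : α → ℕ} {g : α → List β} (hf : Primrec f) (hg : Primrec g) :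
    Primrec (fun x : α => (g x).take (f x)) := Primrec.list_take.comp hf hg
@[fun_prop] theorem p_drop {f : α → ℕ} {g : α → List β} (hf : Primrec f) (hg : Primrec g) :
    Primrec (fun x : α => (g x).drop (f x)) := Primrec.list_drop.comp hf hg
@[fun_prop] theorem p_length {f : α → List β} (hf : Primrec f) :
    Primrec (fun x : α => (f x).length) := Primrec.list_length.comp hf
@[fun_prop] theorem p_reverse {f : α → List β} (hf : Primrec f) :
    Primrec (fun x : α => (f x).reverse) := Primrec.list_reverse.comp hf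
@[fun_prop] theorem p_head? {f : α → List β} (hf : Primrec f) :
    Primrec (fun x : α => (f x).head?) := Primrec.list_head?.comp hf
@[fun_prop] theorem p_getElem? {f : α → List β} {g : α → ℕ} (hf : Primrec f) (hg : Primrec g) :
    Primrec (fun x : α => (f x)[g x]?) := Primrec.list_getElem?.comp hf hg
@[fun_prop] theorem p_getD {f : α → Option β} {g : α → β} (hf : Primrec f) (hg : Primrec g) :
    Primrec (fun x : α => (f x).getD (g x)) := Primrec.option_getD.comp hf hg
@[fun_prop] theorem p_some {f : α → β} (hf : Primrec f) :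
    Primrec (fun x : α => some (f x)) := Primrec.option_some.comp hf
@[fun_prop] theorem p_encode {f : α → β} (hf : Primrec f) :
    Primrec (fun x : α => Encodable.encode (f x)) := Primrec.encode.comp hf
@[fun_prop] theorem p_map {f : α → List β} {g : α → β → γ} (hf : Primrec f)
    (hg : Primrec fun p : α × β => g p.1 p.2) :
    Primrec (fun x : α => (f x).map (g x)) := Primrec.list_map hf hg
@[fun_prop] theorem p_optmap {f : α → Option β} {g : α → β → γ} (hf : Primrec f)
    (hg : Primrec fun p : α × β => g p.1 p.2) :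
    Primrec (fun x : α => (f x).map (g x)) := Primrec.option_map hf hg
@[fun_prop] theorem p_pE {f g : α → ℕ} (hf : Primrec f) (hg : Primrec g) :
    Primrec (fun x : α => pE (f x) (g x)) := pr_pE hf hg

@[fun_prop] theorem q_eq {f g : α → β} (hf : Primrec f) (hg : Primrec g) :
    PrimrecPred (fun x : α => f x = g x) := PrimrecRel.comp Primrec.eq hf hg
@[fun_prop] theorem q_lt {f g : α → ℕ} (hf : Primrec f) (hg : Primrec g) :
    PrimrecPred (fun x : α => f x < g x) := PrimrecRel.comp Primrec.nat_lt hf hg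
@[fun_prop] theorem q_le {f g : α → ℕ} (hf : Primrec f) (hg : Primrec g) :
    PrimrecPred (fun x : α => f x ≤ g x) := PrimrecRel.comp Primrec.nat_le hf hg
@[fun_prop] theorem q_and {p q : α → Prop} (hp : PrimrecPred p) (hq : PrimrecPred q) :
    PrimrecPred (fun x : α => p x ∧ q x) := hp.and hq
@[fun_prop] theorem q_or {p q : α → Prop} (hp : PrimrecPred p) (hq : PrimrecPred q) :
    PrimrecPred (fun x : α => p x ∨ q x) := hp.or hq
@[fun_prop] theorem q_not {p : α → Prop} (hp : PrimrecPred p) :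
    PrimrecPred (fun x : α => ¬ p x) := hp.not
@[fun_prop] theorem q_iff {p q : α → Prop} (hp : PrimrecPred p) (hq : PrimrecPred q) :
    PrimrecPred (fun x : α => (p x ↔ q x)) := pr_iff hp hq
theorem q_imp {p q : α → Prop} (hp : PrimrecPred p) (hq : PrimrecPred q) :
    PrimrecPred (fun x : α => (p x → q x)) := (hp.not.or hq).of_eq fun a => by tauto
@[fun_prop] theorem q_mem {f : α → β} {g : α → List β} (hf : Primrec f) (hg : Primrec g) :
    PrimrecPred (fun x : α => f x ∈ g x) := by
  have h : PrimrecRel fun (L : List β) (b : β) => ∃ a ∈ L, a = b :=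
    PrimrecRel.exists_mem_list (R := fun a b => a = b) Primrec.eq
  exact (PrimrecRel.comp h hg hf).of_eq fun a => by simp
@[fun_prop] theorem q_viol {f : α → List ℕ} (hf : Primrec f) :
    PrimrecPred (fun x : α => Viol (f x)) := viol_prim.comp hf

theorem q_forall_mem {p : α → β → Prop} {g : α → List β} (hg : Primrec g)
    (hp : PrimrecPred fun x : α × β => p x.1 x.2) :
    PrimrecPred (fun x : α => ∀ b ∈ g x, p x b) := by
  have h : PrimrecRel fun (L : List β) (b : α) => ∀ a ∈ L, p b a :=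
    PrimrecRel.forall_mem_list (R := fun a b => p b a)
      (hp.comp (Primrec.snd.pair Primrec.fst))
  exact PrimrecRel.comp h hg Primrec.id

example : PrimrecPred fun p : (ℕ × List ℕ) × ℕ × ℕ =>
   (p.1.2 ++ [p.2.1 + 3]).take p.1.1 = [p.2.1, p.2.2] ∧ ¬ (p.1.1 < p.2.1 ∨ p.1.1 ∈ p.1.2) := by
  fun_prop

end primcalc

/-- environment renaming -/
def lift (r : ℕ → ℕ) : ℕ → ℕ
  | 0 => 0
  | n + 1 => r n + 1

def Fm.ren : Fm → (ℕ → ℕ) → Fm
  | .mem j, r => .mem (r j)
  | .U j, r => .U (r j)
  | .neg φ, r => .neg (φ.ren r)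
  | .and φ ψ, r => .and (φ.ren r) (ψ.ren r)
  | .exN φ, r => .exN (φ.ren r)
  | .exS φ, r => .exS (φ.ren (lift r))
  | .sub c φ, r => .sub c (φ.ren r)

theorem Str.sem_ren (S : Str) (φ : Fm) (r : ℕ → ℕ) (a : ℕ) (ρ : ℕ → S.ι) :
    S.sem (φ.ren r) a ρ ↔ S.sem φ a (fun j => ρ (r j)) := by
  induction φ generalizing r a ρ with
  | mem j => exact Iff.rfl
  | U j => exact Iff.rfl
  | neg φ ih => exact not_congr (ih _ _ _)
  | and φ ψ ih ih' => exact and_congr (ih _ _ _) (ih' _ _ _)
  | exN φ ih => exact exists_congr fun y => ih _ _ _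
  | exS φ ih =>
    refine exists_congr fun X => (ih _ _ _).trans ?_
    have : (fun j => cons X ρ (lift r j)) = cons X (fun j => ρ (r j)) := by
      funext j
      cases j <;> rfl
    rw [this]
  | sub c φ ih => exact exists_congr fun y => and_congr Iff.rfl (ih _ _ _)

namespace Dfn

variable {α β γ : Type} [Primcodable α] [Primcodable β] [Primcodable γ]

theorem ren {Φ : ∀ S : Str, α → (ℕ → S.ι) → Prop} (h : Dfn Φ) (r : ℕ → ℕ) :
    Dfn (fun S a ρ => Φ S a (fun j => ρ (r j))) := by
  obtain ⟨φ, hφ⟩ := h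
  exact ⟨φ.ren r, fun S a ρ => (S.sem_ren φ r _ ρ).trans (hφ S a _)⟩

/-- substitution of terms and environments -/
theorem subst {Φ : ∀ S : Str, β → (ℕ → S.ι) → Prop} (h : Dfn Φ) {f : α → β} (hf : Primrec f)
    (r : ℕ → ℕ) : Dfn (fun S a ρ => Φ S (f a) (fun j => ρ (r j))) :=
  (h.ren r).comp hf.to_comp

theorem ex {Φ : ∀ S : Str, α → β → (ℕ → S.ι) → Prop}
    (h : Dfn (fun S (p : α × β) ρ => Φ S p.1 p.2 ρ)) :
    Dfn (fun S a ρ => ∃ b : β, Φ S a b ρ) := h.exN

theorem all {Φ : ∀ S : Str, α → β → (ℕ → S.ι) → Prop}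
    (h : Dfn (fun S (p : α × β) ρ => Φ S p.1 p.2 ρ)) :
    Dfn (fun S a ρ => ∀ b : β, Φ S a b ρ) := h.allN

theorem exX {Φ : ∀ S : Str, α → S.ι → (ℕ → S.ι) → Prop}
    (h : Dfn (fun S a ρ => Φ S a (ρ 0) (fun j => ρ (j + 1)))) :
    Dfn (fun S a ρ => ∃ X : S.ι, Φ S a X ρ) := h.exS

theorem allX {Φ : ∀ S : Str, α → S.ι → (ℕ → S.ι) → Prop}
    (h : Dfn (fun S a ρ => Φ S a (ρ 0) (fun j => ρ (j + 1)))) :
    Dfn (fun S a ρ => ∀ X : S.ι, Φ S a X ρ) := h.allS

theorem memp {f : α → ℕ} (hf : Primrec f) (j : ℕ) :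
    Dfn (fun S a ρ => S.mem (f a) (ρ j)) := mem hf.to_comp j

end Dfn

/-- typed comprehension -/
theorem Str.Compr.rel {S : Str} {d : S.ι} (h : S.Compr d) {α β : Type} [Primcodable α]
    [Primcodable β] {Φ : ∀ S : Str, α × β → (ℕ → S.ι) → Prop} (hΦ : Dfn Φ) (b : β)
    (l : List S.ι) :
    ∃ i, ∀ a : α, S.mem (Encodable.encode a) i ↔ Φ S (a, b) (envOf d l) := by
  have h1 : Dfn (fun S (p : ℕ × β) ρ => ∃ a : α, Encodable.encode a = p.1 ∧ Φ S (a, p.2) ρ) := by
    apply Dfn.ex
    apply Dfn.and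
    · apply Dfn.prim; fun_prop
    · exact hΦ.comp (f := fun q : (ℕ × β) × α => (q.2, q.1.2)) (Primrec.to_comp (by fun_prop))
  obtain ⟨i, hi⟩ := h.of_param h1 b l
  refine ⟨i, fun a => (hi _).trans ⟨?_, fun h => ⟨a, rfl, h⟩⟩⟩
  rintro ⟨a', h1, h2⟩
  have := Encodable.encode_injective h1
  subst this
  exact h2

end Pool.Agent.Work.MP_64713a_lc
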