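import Pool.Agent.Work.MP_64713a_lc.Lang

set_option autoImplicit false

namespace Pool.Agent.Work.MP_64713a_lc

open Nat.Partrec (Code)
open Nat.Partrec.Code (evaln)

/-- stream coding of eventually zero environments -/
def get : ℕ → ℕ → ℕ
  | 0, p => p.unpair.1
  | j + 1, p => get j p.unpair.2

@[simp] theorem get_zero_pair (e p : ℕ) : get 0 (Nat.pair e p) = e := by simp [get]
@[simp] theorem get_succ_pair (j e p : ℕ) : get (j + 1) (Nat.pair e p) = get j p := by simp [get]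

theorem get_le (j p : ℕ) : get j p ≤ p := by
  induction j generalizing p with
  | zero => exact Nat.unpair_left_le p
  | succ j ih => exact (ih _).trans (Nat.unpair_right_le p)

theorem get_pair_eq (e p : ℕ) : (fun j => get j (Nat.pair e p)) = cons e (fun j => get j p) := by
  funext j
  cases j <;> simp

theorem get_zero (j : ℕ) : get j 0 = 0 := Nat.le_zero.1 (get_le j 0)

theorem get_eq_iterate (j p : ℕ) : get j p = ((fun q : ℕ => q.unpair.2)^[j] p).unpair.1 := by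
  induction j generalizing p with
  | zero => rfl
  | succ j ih => rw [get, ih, Function.iterate_succ_apply]

theorem primrec_get : Primrec₂ get := by
  have h : Primrec fun q : ℕ × ℕ => (((fun q : ℕ => q.unpair.2)^[q.1] q.2).unpair.1) :=
    (Primrec.fst.comp (Primrec.unpair.comp
      (Primrec.nat_iterate Primrec.fst Primrec.snd
        (Primrec.snd.comp (Primrec.unpair.comp Primrec.snd)).to₂)))
  exact h.of_eq fun q => (get_eq_iterate _ _).symm

def pD (c a p : ℕ) : ℕ := Nat.pair 0 (Nat.pair c (Nat.pair a p))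
def pW (c a p : ℕ) : ℕ := Nat.pair 1 (Nat.pair c (Nat.pair a p))
def pC (c p : ℕ) : ℕ := Nat.pair 2 (Nat.pair c p)
def pE (n e : ℕ) : ℕ := Nat.pair 3 (Nat.pair n e)
def pU (e : ℕ) : ℕ := Nat.pair 4 e

def xK (x : ℕ) : ℕ := x.unpair.1
def xa (x : ℕ) : ℕ := x.unpair.2.unpair.1
def xp (x : ℕ) : ℕ := x.unpair.2.unpair.2.unpair.1
def xz (x : ℕ) : ℕ := x.unpair.2.unpair.2.unpair.2
def inst (K a p z : ℕ) : ℕ := Nat.pair K (Nat.pair a (Nat.pair p z))

@[simp] theorem xK_inst (K a p z : ℕ) : xK (inst K a p z) = K := by simp [xK, inst]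
@[simp] theorem xa_inst (K a p z : ℕ) : xa (inst K a p z) = a := by simp [xa, inst]
@[simp] theorem xp_inst (K a p z : ℕ) : xp (inst K a p z) = p := by simp [xp, inst]
@[simp] theorem xz_inst (K a p z : ℕ) : xz (inst K a p z) = z := by simp [xz, inst]

structure Chk where
  q1 : ℕ → ℕ
  q2 : ℕ × ℕ → ℕ
  q3 : ℕ × ℕ × ℕ → ℕ
  bad : ℕ × ℕ × ℕ × ℕ → Prop

namespace Chk

def viol (C : Chk) (f : ℕ → ℕ) (x : ℕ) : Prop :=
  C.bad (x, f (C.q1 x), f (C.q2 (x, f (C.q1 x))), f (C.q3 (x, f (C.q1 x), f (C.q2 (x, f (C.q1 x))))))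

def violL (C : Chk) (u : List ℕ) (x : ℕ) : Prop :=
  ∃ v1 v2 v3, u[C.q1 x]? = some v1 ∧ u[C.q2 (x, v1)]? = some v2 ∧
    u[C.q3 (x, v1, v2)]? = some v3 ∧ C.bad (x, v1, v2, v3)

structure Prim (C : Chk) : Prop where
  q1 : Primrec C.q1
  q2 : Primrec C.q2
  q3 : Primrec C.q3
  bad : PrimrecPred C.bad

end Chk

/-- initial segment of a function as a list -/
def seg (f : ℕ → ℕ) (m : ℕ) : List ℕ := (List.range m).map f

@[simp] theorem seg_length (f : ℕ → ℕ) (m : ℕ) : (seg f m).length = m := by simp [seg]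

theorem seg_getElem? (f : ℕ → ℕ) (m i : ℕ) : (seg f m)[i]? = if i < m then some (f i) else none := by
  by_cases h : i < m
  · simp [seg, h]
  · simp [seg, h]

theorem seg_getElem?_eq_some {f : ℕ → ℕ} {m i v : ℕ} :
    (seg f m)[i]? = some v ↔ i < m ∧ f i = v := by
  rw [seg_getElem?]
  split_ifs with h <;> simp [h]

theorem Chk.viol_of_violL {C : Chk} {f : ℕ → ℕ} {m x : ℕ} (h : C.violL (seg f m) x) : C.viol f x := by
  obtain ⟨v1, v2, v3, h1, h2, h3, hb⟩ := h
  rw [seg_getElem?_eq_some] at h1 h2 h3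
  obtain ⟨-, rfl⟩ := h1
  obtain ⟨-, rfl⟩ := h2
  obtain ⟨-, rfl⟩ := h3
  exact hb

theorem Chk.violL_of_viol {C : Chk} {f : ℕ → ℕ} {x : ℕ} (h : C.viol f x) :
    ∃ k, ∀ m, k ≤ m → C.violL (seg f m) x := by
  refine ⟨C.q1 x + C.q2 (x, f (C.q1 x)) + C.q3 (x, f (C.q1 x), f (C.q2 (x, f (C.q1 x)))) + 1,
    fun m hm => ⟨_, _, _, ?_, ?_, ?_, h⟩⟩
  · rw [seg_getElem?_eq_some]; exact ⟨by omega, rfl⟩
  · rw [seg_getElem?_eq_some]; exact ⟨by omega, rfl⟩
  · rw [seg_getElem?_eq_some]; exact ⟨by omega, rfl⟩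

theorem Chk.Prim.violL {C : Chk} (hC : C.Prim) :
    PrimrecPred fun p : List ℕ × ℕ => C.violL p.1 p.2 := by
  classical
  have hb : PrimrecPred C.bad := hC.bad
  have h3 : Primrec₂ fun (p : ((List ℕ × ℕ) × ℕ) × ℕ) (v3 : ℕ) =>
      (if C.bad (p.1.1.2, p.1.2, p.2, v3) then some () else none : Option Unit) := by
    apply Primrec.ite _ (Primrec.const _) (Primrec.const _)
    refine hb.comp ?_
    have e1 : Primrec fun (q : (((List ℕ × ℕ) × ℕ) × ℕ) × ℕ) => q.1.1.1.2 :=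
      Primrec.snd.comp (Primrec.fst.comp (Primrec.fst.comp Primrec.fst))
    have e2 : Primrec fun (q : (((List ℕ × ℕ) × ℕ) × ℕ) × ℕ) => q.1.1.2 :=
      Primrec.snd.comp (Primrec.fst.comp Primrec.fst)
    have e3 : Primrec fun (q : (((List ℕ × ℕ) × ℕ) × ℕ) × ℕ) => q.1.2 :=
      Primrec.snd.comp Primrec.fst
    exact e1.pair (e2.pair (e3.pair Primrec.snd))
  have h2 : Primrec₂ fun (p : (List ℕ × ℕ) × ℕ) (v2 : ℕ) =>
      ((p.1.1[C.q3 (p.1.2, p.2, v2)]?).bind fun v3 =>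
        (if C.bad (p.1.2, p.2, v2, v3) then some () else none : Option Unit)) := by
    have hq : Primrec fun (q : ((List ℕ × ℕ) × ℕ) × ℕ) => q.1.1.1[C.q3 (q.1.1.2, q.1.2, q.2)]? := by
      refine Primrec.list_getElem?.comp ?_ (hC.q3.comp ?_)
      · exact Primrec.fst.comp (Primrec.fst.comp Primrec.fst)
      · exact (Primrec.snd.comp (Primrec.fst.comp Primrec.fst)).pair
          ((Primrec.snd.comp Primrec.fst).pair Primrec.snd)
    exact (Primrec.option_bind hq h3)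
  have h1 : Primrec₂ fun (p : (List ℕ × ℕ)) (v1 : ℕ) =>
      ((p.1[C.q2 (p.2, v1)]?).bind fun v2 => ((p.1[C.q3 (p.2, v1, v2)]?).bind fun v3 =>
        (if C.bad (p.2, v1, v2, v3) then some () else none : Option Unit))) := by
    have hq : Primrec fun (q : (List ℕ × ℕ) × ℕ) => q.1.1[C.q2 (q.1.2, q.2)]? := by
      refine Primrec.list_getElem?.comp (Primrec.fst.comp Primrec.fst) (hC.q2.comp ?_)
      exact (Primrec.snd.comp Primrec.fst).pair Primrec.snd
    exact (Primrec.option_bind hq h2)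
  have h0 : Primrec fun (p : (List ℕ × ℕ)) =>
      ((p.1[C.q1 p.2]?).bind fun v1 => ((p.1[C.q2 (p.2, v1)]?).bind fun v2 =>
        ((p.1[C.q3 (p.2, v1, v2)]?).bind fun v3 =>
        (if C.bad (p.2, v1, v2, v3) then some () else none : Option Unit)))) := by
    have hq : Primrec fun (q : (List ℕ × ℕ)) => q.1[C.q1 q.2]? :=
      Primrec.list_getElem?.comp Primrec.fst (hC.q1.comp Primrec.snd)
    exact (Primrec.option_bind hq h1)
  refine (Primrec.primrecPred (p := fun p : List ℕ × ℕ => C.violL p.1 p.2) ?_)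
  refine (Primrec.option_isSome.comp h0).of_eq fun p => ?_
  have key : (∃ a : Unit, ((p.1[C.q1 p.2]?).bind fun v1 => ((p.1[C.q2 (p.2, v1)]?).bind fun v2 =>
        ((p.1[C.q3 (p.2, v1, v2)]?).bind fun v3 =>
        (if C.bad (p.2, v1, v2, v3) then some () else none : Option Unit)))) = some a)
        ↔ C.violL p.1 p.2 := by
    simp only [Option.bind_eq_some_iff, Chk.violL]
    constructor
    · rintro ⟨_, v1, h1, v2, h2, v3, h3, h4⟩
      refine ⟨v1, v2, v3, h1, h2, h3, ?_⟩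
      by_contra hc
      simp [hc] at h4
    · rintro ⟨v1, v2, v3, h1, h2, h3, h4⟩
      exact ⟨(), v1, h1, v2, h2, v3, h3, by simp [h4]⟩
  by_cases hv : C.violL p.1 p.2
  · simp only [hv, decide_true]
    exact Option.isSome_iff_exists.2 (key.2 hv)
  · simp only [hv, decide_false]
    rw [← Bool.not_eq_true, Option.isSome_iff_exists]
    exact fun h => hv (key.1 h)

/-! ### the list of checks -/

def kMem : Chk where
  q1 := fun x => pD (8 * xK x) (xa x) (xp x)
  q2 := fun y => pE (xa y.1) (get (xK y.1) (xp y.1))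
  q3 := fun _ => 0
  bad := fun y => ¬ (y.2.1 = 1 ↔ y.2.2.1 = 1)

def kU : Chk where
  q1 := fun x => pD (8 * xK x + 1) (xa x) (xp x)
  q2 := fun y => pU (get (xK y.1) (xp y.1))
  q3 := fun _ => 0
  bad := fun y => ¬ (y.2.1 = 1 ↔ y.2.2.1 = 1)

def kNeg : Chk where
  q1 := fun x => pD (8 * xK x + 2) (xa x) (xp x)
  q2 := fun y => pD (xK y.1) (xa y.1) (xp y.1)
  q3 := fun _ => 0
  bad := fun y => (y.2.1 = 1 ↔ y.2.2.1 = 1)

def kAnd : Chk where
  q1 := fun x => pD (8 * xK x + 3) (xa x) (xp x)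
  q2 := fun y => pD (xK y.1).unpair.1 (xa y.1) (xp y.1)
  q3 := fun y => pD (xK y.1).unpair.2 (xa y.1) (xp y.1)
  bad := fun y => ¬ (y.2.1 = 1 ↔ y.2.2.1 = 1 ∧ y.2.2.2 = 1)

def kExN : Chk where
  q1 := fun x => pD (8 * xK x + 4) (xa x) (xp x)
  q2 := fun y => pW (8 * xK y.1 + 4) (xa y.1) (xp y.1)
  q3 := fun y => pD (xK y.1) (Nat.pair (xa y.1) y.2.2) (xp y.1)
  bad := fun y => y.2.1 = 1 ∧ ¬ y.2.2.2 = 1

def kExN' : Chk where
  q1 := fun x => pD (8 * xK x + 4) (xa x) (xp x)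
  q2 := fun y => pD (xK y.1) (Nat.pair (xa y.1) (xz y.1)) (xp y.1)
  q3 := fun _ => 0
  bad := fun y => y.2.2.1 = 1 ∧ ¬ y.2.1 = 1

def kExS : Chk where
  q1 := fun x => pD (8 * xK x + 5) (xa x) (xp x)
  q2 := fun y => pW (8 * xK y.1 + 5) (xa y.1) (xp y.1)
  q3 := fun y => pD (xK y.1) (xa y.1) (Nat.pair y.2.2 (xp y.1))
  bad := fun y => y.2.1 = 1 ∧ ¬ y.2.2.2 = 1

def kExS' : Chk where
  q1 := fun x => pD (8 * xK x + 5) (xa x) (xp x)
  q2 := fun y => pD (xK y.1) (xa y.1) (Nat.pair (xz y.1) (xp y.1))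
  q3 := fun _ => 0
  bad := fun y => y.2.2.1 = 1 ∧ ¬ y.2.1 = 1

/-- bounded evaluation of a coded code -/
def ev (t c a : ℕ) : Option ℕ := evaln t (Denumerable.ofNat Code c) a

def kSub : Chk where
  q1 := fun x => pD (8 * xK x + 6) (xa x) (xp x)
  q2 := fun y => pW (8 * xK y.1 + 6) (xa y.1) (xp y.1)
  q3 := fun y => pD (xK y.1).unpair.2 ((ev y.2.2 (xK y.1).unpair.1 (xa y.1)).getD 0) (xp y.1)
  bad := fun y => y.2.1 = 1 ∧ (ev y.2.2.1 (xK y.1).unpair.1 (xa y.1) = none ∨ ¬ y.2.2.2 = 1)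

def kSub' : Chk where
  q1 := fun x => pD (8 * xK x + 6) (xa x) (xp x)
  q2 := fun y => pD (xK y.1).unpair.2 ((ev (xz y.1) (xK y.1).unpair.1 (xa y.1)).getD 0) (xp y.1)
  q3 := fun _ => 0
  bad := fun y => ¬ ev (xz y.1) (xK y.1).unpair.1 (xa y.1) = none ∧ y.2.2.1 = 1 ∧ ¬ y.2.1 = 1

def kComp : Chk where
  q1 := fun x => pC (xK x) (xp x)
  q2 := fun y => pE (xa y.1) y.2
  q3 := fun y => pD (xK y.1) (xa y.1) (xp y.1)
  bad := fun y => ¬ (y.2.2.1 = 1 ↔ y.2.2.2 = 1)

def checks : List Chk := [kMem, kU, kNeg, kAnd, kExN, kExN', kExS, kExS', kSub, kSub', kComp]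

section prim

variable {α : Type} [Primcodable α]

theorem pr_pair {f g : α → ℕ} (hf : Primrec f) (hg : Primrec g) :
    Primrec fun a => Nat.pair (f a) (g a) := Primrec₂.natPair.comp hf hg

theorem pr_u1 {f : α → ℕ} (hf : Primrec f) : Primrec fun a => (f a).unpair.1 :=
  Primrec.fst.comp (Primrec.unpair.comp hf)

theorem pr_u2 {f : α → ℕ} (hf : Primrec f) : Primrec fun a => (f a).unpair.2 :=
  Primrec.snd.comp (Primrec.unpair.comp hf)

theorem pr_pD {f g h : α → ℕ} (hf : Primrec f) (hg : Primrec g) (hh : Primrec h) :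
    Primrec fun a => pD (f a) (g a) (h a) :=
  pr_pair (Primrec.const 0) (pr_pair hf (pr_pair hg hh))

theorem pr_pW {f g h : α → ℕ} (hf : Primrec f) (hg : Primrec g) (hh : Primrec h) :
    Primrec fun a => pW (f a) (g a) (h a) :=
  pr_pair (Primrec.const 1) (pr_pair hf (pr_pair hg hh))

theorem pr_pC {f g : α → ℕ} (hf : Primrec f) (hg : Primrec g) :
    Primrec fun a => pC (f a) (g a) :=
  pr_pair (Primrec.const 2) (pr_pair hf hg)

theorem pr_pE {f g : α → ℕ} (hf : Primrec f) (hg : Primrec g) :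
    Primrec fun a => pE (f a) (g a) :=
  pr_pair (Primrec.const 3) (pr_pair hf hg)

theorem pr_pU {f : α → ℕ} (hf : Primrec f) : Primrec fun a => pU (f a) :=
  pr_pair (Primrec.const 4) hf

theorem pr_xK {f : α → ℕ} (hf : Primrec f) : Primrec fun a => xK (f a) := pr_u1 hf
theorem pr_xa {f : α → ℕ} (hf : Primrec f) : Primrec fun a => xa (f a) := pr_u1 (pr_u2 hf)
theorem pr_xp {f : α → ℕ} (hf : Primrec f) : Primrec fun a => xp (f a) := pr_u1 (pr_u2 (pr_u2 hf))
theorem pr_xz {f : α → ℕ} (hf : Primrec f) : Primrec fun a => xz (f a) := pr_u2 (pr_u2 (pr_u2 hf))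

theorem pr_get {f g : α → ℕ} (hf : Primrec f) (hg : Primrec g) :
    Primrec fun a => get (f a) (g a) := primrec_get.comp hf hg

theorem pr_8 {f : α → ℕ} (hf : Primrec f) : Primrec fun a => 8 * f a :=
  Primrec.nat_mul.comp (Primrec.const 8) hf

theorem pr_add {f : α → ℕ} (k : ℕ) (hf : Primrec f) : Primrec fun a => f a + k :=
  Primrec.nat_add.comp hf (Primrec.const k)

theorem pr_ev {f g h : α → ℕ} (hf : Primrec f) (hg : Primrec g) (hh : Primrec h) :
    Primrec fun a => ev (f a) (g a) (h a) :=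
  Nat.Partrec.Code.primrec_evaln.comp
    ((hf.pair ((Primrec.ofNat Code).comp hg)).pair hh)

theorem pr_evD {f g h : α → ℕ} (hf : Primrec f) (hg : Primrec g) (hh : Primrec h) :
    Primrec fun a => (ev (f a) (g a) (h a)).getD 0 :=
  Primrec.option_getD.comp (pr_ev hf hg hh) (Primrec.const 0)

theorem pr_eq1 {f : α → ℕ} (hf : Primrec f) : PrimrecPred fun a => f a = 1 :=
  PrimrecRel.comp Primrec.eq hf (Primrec.const 1)

theorem pr_evnone {f g h : α → ℕ} (hf : Primrec f) (hg : Primrec g) (hh : Primrec h) :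
    PrimrecPred fun a => ev (f a) (g a) (h a) = none :=
  PrimrecRel.comp Primrec.eq (pr_ev hf hg hh) (Primrec.const none)

theorem pr_iff {p q : α → Prop} (hp : PrimrecPred p) (hq : PrimrecPred q) :
    PrimrecPred fun a => (p a ↔ q a) :=
  ((hp.and hq).or (hp.not.and hq.not)).of_eq fun a => by tauto

end prim

theorem x0 : Primrec fun x : ℕ => x := Primrec.id
theorem y1 : Primrec fun y : ℕ × ℕ => y.1 := Primrec.fst
theorem y2 : Primrec fun y : ℕ × ℕ => y.2 := Primrec.snd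
theorem t1 : Primrec fun y : ℕ × ℕ × ℕ => y.1 := Primrec.fst
theorem t3 : Primrec fun y : ℕ × ℕ × ℕ => y.2.2 := Primrec.snd.comp Primrec.snd
theorem w0 : Primrec fun y : ℕ × ℕ × ℕ × ℕ => y.1 := Primrec.fst
theorem w1 : Primrec fun y : ℕ × ℕ × ℕ × ℕ => y.2.1 := Primrec.fst.comp Primrec.snd
theorem w2 : Primrec fun y : ℕ × ℕ × ℕ × ℕ => y.2.2.1 :=
  Primrec.fst.comp (Primrec.snd.comp Primrec.snd)
theorem w3 : Primrec fun y : ℕ × ℕ × ℕ × ℕ => y.2.2.2 :=
  Primrec.snd.comp (Primrec.snd.comp Primrec.snd)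

section irred
attribute [local irreducible] pD pW pC pE pU xK xa xp xz ev get

theorem kMem_prim : kMem.Prim where
  q1 := by
    dsimp only [kMem]
    exact pr_pD (pr_8 (pr_xK x0)) (pr_xa x0) (pr_xp x0)
  q2 := by
    dsimp only [kMem]
    exact pr_pE (pr_xa y1) (pr_get (pr_xK y1) (pr_xp y1))
  q3 := by
    dsimp only [kMem]
    exact Primrec.const 0
  bad := by
    dsimp only [kMem]
    exact (pr_iff (pr_eq1 w1) (pr_eq1 w2)).not

theorem kU_prim : kU.Prim where
  q1 := by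
    dsimp only [kU]
    exact pr_pD (pr_add 1 (pr_8 (pr_xK x0))) (pr_xa x0) (pr_xp x0)
  q2 := by
    dsimp only [kU]
    exact pr_pU (pr_get (pr_xK y1) (pr_xp y1))
  q3 := by
    dsimp only [kU]
    exact Primrec.const 0
  bad := by
    dsimp only [kU]
    exact (pr_iff (pr_eq1 w1) (pr_eq1 w2)).not

theorem kNeg_prim : kNeg.Prim where
  q1 := by
    dsimp only [kNeg]
    exact pr_pD (pr_add 2 (pr_8 (pr_xK x0))) (pr_xa x0) (pr_xp x0)
  q2 := by
    dsimp only [kNeg]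
    exact pr_pD (pr_xK y1) (pr_xa y1) (pr_xp y1)
  q3 := by
    dsimp only [kNeg]
    exact Primrec.const 0
  bad := by
    dsimp only [kNeg]
    exact (pr_iff (pr_eq1 w1) (pr_eq1 w2))

theorem kAnd_prim : kAnd.Prim where
  q1 := by
    dsimp only [kAnd]
    exact pr_pD (pr_add 3 (pr_8 (pr_xK x0))) (pr_xa x0) (pr_xp x0)
  q2 := by
    dsimp only [kAnd]
    exact pr_pD (pr_u1 (pr_xK y1)) (pr_xa y1) (pr_xp y1)
  q3 := by
    dsimp only [kAnd]
    exact pr_pD (pr_u2 (pr_xK t1)) (pr_xa t1) (pr_xp t1)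
  bad := by
    dsimp only [kAnd]
    exact (pr_iff (pr_eq1 w1) ((pr_eq1 w2).and (pr_eq1 w3))).not

theorem kExN_prim : kExN.Prim where
  q1 := by
    dsimp only [kExN]
    exact pr_pD (pr_add 4 (pr_8 (pr_xK x0))) (pr_xa x0) (pr_xp x0)
  q2 := by
    dsimp only [kExN]
    exact pr_pW (pr_add 4 (pr_8 (pr_xK y1))) (pr_xa y1) (pr_xp y1)
  q3 := by
    dsimp only [kExN]
    exact pr_pD (pr_xK t1) (pr_pair (pr_xa t1) t3) (pr_xp t1)
  bad := by
    dsimp only [kExN]
    exact (pr_eq1 w1).and (pr_eq1 w3).not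

theorem kExN'_prim : kExN'.Prim where
  q1 := by
    dsimp only [kExN']
    exact pr_pD (pr_add 4 (pr_8 (pr_xK x0))) (pr_xa x0) (pr_xp x0)
  q2 := by
    dsimp only [kExN']
    exact pr_pD (pr_xK y1) (pr_pair (pr_xa y1) (pr_xz y1)) (pr_xp y1)
  q3 := by
    dsimp only [kExN']
    exact Primrec.const 0
  bad := by
    dsimp only [kExN']
    exact (pr_eq1 w2).and (pr_eq1 w1).not

theorem kExS_prim : kExS.Prim where
  q1 := by
    dsimp only [kExS]
    exact pr_pD (pr_add 5 (pr_8 (pr_xK x0))) (pr_xa x0) (pr_xp x0)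
  q2 := by
    dsimp only [kExS]
    exact pr_pW (pr_add 5 (pr_8 (pr_xK y1))) (pr_xa y1) (pr_xp y1)
  q3 := by
    dsimp only [kExS]
    exact pr_pD (pr_xK t1) (pr_xa t1) (pr_pair t3 (pr_xp t1))
  bad := by
    dsimp only [kExS]
    exact (pr_eq1 w1).and (pr_eq1 w3).not

theorem kExS'_prim : kExS'.Prim where
  q1 := by
    dsimp only [kExS']
    exact pr_pD (pr_add 5 (pr_8 (pr_xK x0))) (pr_xa x0) (pr_xp x0)
  q2 := by
    dsimp only [kExS']
    exact pr_pD (pr_xK y1) (pr_xa y1) (pr_pair (pr_xz y1) (pr_xp y1))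
  q3 := by
    dsimp only [kExS']
    exact Primrec.const 0
  bad := by
    dsimp only [kExS']
    exact (pr_eq1 w2).and (pr_eq1 w1).not

theorem kSub_prim : kSub.Prim where
  q1 := by
    dsimp only [kSub]
    exact pr_pD (pr_add 6 (pr_8 (pr_xK x0))) (pr_xa x0) (pr_xp x0)
  q2 := by
    dsimp only [kSub]
    exact pr_pW (pr_add 6 (pr_8 (pr_xK y1))) (pr_xa y1) (pr_xp y1)
  q3 := by
    dsimp only [kSub]
    exact pr_pD (pr_u2 (pr_xK t1)) (pr_evD t3 (pr_u1 (pr_xK t1)) (pr_xa t1)) (pr_xp t1)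
  bad := by
    dsimp only [kSub]
    exact (pr_eq1 w1).and ((pr_evnone w2 (pr_u1 (pr_xK w0)) (pr_xa w0)).or (pr_eq1 w3).not)

theorem kSub'_prim : kSub'.Prim where
  q1 := by
    dsimp only [kSub']
    exact pr_pD (pr_add 6 (pr_8 (pr_xK x0))) (pr_xa x0) (pr_xp x0)
  q2 := by
    dsimp only [kSub']
    exact pr_pD (pr_u2 (pr_xK y1)) (pr_evD (pr_xz y1) (pr_u1 (pr_xK y1)) (pr_xa y1)) (pr_xp y1)
  q3 := by
    dsimp only [kSub']
    exact Primrec.const 0
  bad := by
    dsimp only [kSub']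
    exact (pr_evnone (pr_xz w0) (pr_u1 (pr_xK w0)) (pr_xa w0)).not.and
      ((pr_eq1 w2).and (pr_eq1 w1).not)

theorem kComp_prim : kComp.Prim where
  q1 := by
    dsimp only [kComp]
    exact pr_pC (pr_xK x0) (pr_xp x0)
  q2 := by
    dsimp only [kComp]
    exact pr_pE (pr_xa y1) y2
  q3 := by
    dsimp only [kComp]
    exact pr_pD (pr_xK t1) (pr_xa t1) (pr_xp t1)
  bad := by
    dsimp only [kComp]
    exact (pr_iff (pr_eq1 w2) (pr_eq1 w3)).not

end irred

theorem checks_prim : ∀ C ∈ checks, C.Prim := by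
  intro C hC
  simp only [checks, List.mem_cons, List.not_mem_nil, or_false] at hC
  rcases hC with rfl | rfl | rfl | rfl | rfl | rfl | rfl | rfl | rfl | rfl | rfl
  · exact kMem_prim
  · exact kU_prim
  · exact kNeg_prim
  · exact kAnd_prim
  · exact kExN_prim
  · exact kExN'_prim
  · exact kExS_prim
  · exact kExS'_prim
  · exact kSub_prim
  · exact kSub'_prim
  · exact kComp_prim

def Good (f : ℕ → ℕ) : Prop := ∀ C ∈ checks, ∀ x, ¬ C.viol f x

def Viol (u : List ℕ) : Prop := ∃ C ∈ checks, C.violL u u.length.unpair.1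

theorem good_iff (f : ℕ → ℕ) : Good f ↔ ∀ m, ¬ Viol (seg f m) := by
  constructor
  · rintro h m ⟨C, hC, hv⟩
    exact h C hC _ (Chk.viol_of_violL hv)
  · intro h C hC x hx
    obtain ⟨k, hk⟩ := Chk.violL_of_viol hx
    apply h (Nat.pair x k)
    refine ⟨C, hC, ?_⟩
    rw [seg_length, Nat.unpair_pair]
    exact hk _ (Nat.right_le_pair x k)

theorem viol_prim : PrimrecPred Viol := by
  have key : ∀ cs : List Chk, (∀ C ∈ cs, C.Prim) →
      PrimrecPred fun u : List ℕ => ∃ C ∈ cs, C.violL u u.length.unpair.1 := by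
    intro cs
    induction cs with
    | nil =>
      intro _
      exact (PrimrecPred.of_eq (p := fun _ : List ℕ => False)
        (Primrec.primrecPred (Primrec.const false)) (fun u => by simp))
    | cons C cs ih =>
      intro h
      have h1 : PrimrecPred fun u : List ℕ => C.violL u u.length.unpair.1 :=
        (h C (by simp)).violL.comp
          (Primrec.id.pair (pr_u1 Primrec.list_length))
      have h2 := ih (fun C hC => h C (by simp [hC]))
      exact (h1.or h2).of_eq (fun u => by simp)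
  exact key checks checks_prim

end Pool.Agent.Work.MP_64713a_lc
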