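import Pool.Agent.Work.MP_64713a_lc.Inner

set_option autoImplicit false

namespace Pool.Agent.Work.MP_64713a_lc

open Filter Topology

/-- the true structure -/
def Vst (U : Ultrafilter ℕ) : Str := ⟨Set ℕ, fun n X => n ∈ X, fun X => X ∈ U⟩

section

variable {U : Ultrafilter ℕ}

theorem Vst.UU_iff (N : Set ℕ) : (Vst U).UU N ↔ N ∈ U := by
  constructor
  · rintro ⟨i, h1, h2⟩
    have : i = N := Set.ext h1
    rw [← this]; exact h2
  · intro h
    exact ⟨N, fun m => Iff.rfl, h⟩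

theorem Vst.dn_iff (E : Set ℕ) (b : ℕ) : (Vst U).dn E b ↔ {m | dGe E b m} ∈ U :=
  Vst.UU_iff _

theorem Vst.ps_iff (E : Set ℕ) : (Vst U).ps E ↔ 0 < mu U E := by
  constructor
  · rintro ⟨b, hb, h⟩
    rw [Vst.dn_iff] at h
    have h1 := le_mu_of_dGe hb h
    have h2 : (0 : ℝ) < 1 / b := by positivity
    linarith
  · intro h
    obtain ⟨b, hb, -, h1⟩ := exists_dGe_of_pos h
    exact ⟨b, hb, (Vst.dn_iff _ _).2 h1⟩

theorem ge_mem (hU : (U : Filter ℕ) ≤ cofinite) (k : ℕ) : {m : ℕ | k ≤ m} ∈ U := by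
  apply hU
  rw [mem_cofinite]
  apply (Set.finite_lt_nat k).subset
  intro x hx
  simp only [Set.mem_compl_iff, Set.mem_ofPred_eq, not_le] at hx
  exact hx

theorem Vst.phiU (hU : (U : Filter ℕ) ≤ cofinite) : PhiU (Vst U) := by
  refine ⟨?_, ?_, ?_⟩
  · intro i j k (hi : i ∈ U) (hj : j ∈ U) h
    exact mem_of_superset (inter_mem hi hj) fun x hx => h x hx.1 hx.2
  · intro (i : Set ℕ) (j : Set ℕ) h
    have h1 : i ∪ j ∈ U := mem_of_superset univ_mem fun x _ => h x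
    exact Ultrafilter.union_mem_iff.1 h1
  · intro i (hi : i ∈ U) k
    obtain ⟨m, hm1, hm2⟩ := U.nonempty_of_mem (inter_mem hi (ge_mem hU k))
    exact ⟨m, hm2, hm1⟩

theorem exists_mem_of_dGe {E : Set ℕ} {b m : ℕ} (h : dGe E b m) : ∃ x ∈ blk m, x ∈ E := by
  by_contra hc
  push Not at hc
  have h1 : cn E m = 0 := by
    unfold cn
    rw [Set.ncard_eq_zero (fin_blk E m)]
    ext x
    simp only [Set.mem_inter_iff, Finset.mem_coe, Set.mem_empty_iff_false, iff_false, not_and]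
    intro h2 h3
    exact hc x h3 h2
  unfold dGe at h
  rw [h1, mul_zero] at h
  have := card_blk_pos m
  omega

theorem cov_mono {W : Set ℕ} {H : List ℕ → ℕ → Set ℕ} {Y : Set ℕ} {r r' : ℕ} (h : r ≤ r') :
    cov W H Y r ⊆ cov W H Y r' := by
  rintro x ⟨hx, s, k, h1, h2, h3⟩
  exact ⟨hx, s, k, by omega, fun z hz => ⟨(h2 z hz).1, (h2 z hz).2.1, by have := (h2 z hz).2.2; omega⟩, h3⟩

theorem cov_congr {W : Set ℕ} {H : List ℕ → ℕ → Set ℕ} {Y Y' : Set ℕ} {r : ℕ}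
    (h : ∀ x < r, x ∈ Y ↔ x ∈ Y') : cov W H Y r = cov W H Y' r := by
  ext x
  constructor
  · rintro ⟨hx, s, k, h1, h2, h3⟩
    exact ⟨hx, s, k, h1, fun z hz => ⟨(h z (h2 z hz).2.2).1 (h2 z hz).1, (h2 z hz).2⟩, h3⟩
  · rintro ⟨hx, s, k, h1, h2, h3⟩
    exact ⟨hx, s, k, h1, fun z hz => ⟨(h z (h2 z hz).2.2).2 (h2 z hz).1, (h2 z hz).2⟩, h3⟩

theorem le_sum_of_mem {s : List ℕ} {z : ℕ} (h : z ∈ s) : z ≤ s.sum := by
  induction s with
  | nil => simp at h
  | cons a s ih =>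
    rw [List.sum_cons]
    rcases List.mem_cons.1 h with h | h
    · omega
    · have := ih h; omega

theorem core (hU : (U : Filter ℕ) ≤ cofinite) {W : Set ℕ} {H : List ℕ → ℕ → Set ℕ} {b : ℕ}
    (hden : (Vst U).cden W H (2 * b)) {Y : Set ℕ}
    (hcov : ∀ r, ¬ (Vst U).dn (cov W H Y r) (4 * b)) (hY : {m | dGe (Y ∩ W) b m} ∈ U) : False := by
  classical
  set V : Set ℕ := Y ∩ W with hV
  let S : ℕ → Set ℕ := fun r => Y ∩ cov W H Y r
  have Smono : ∀ {r r' : ℕ}, r ≤ r' → S r ⊆ S r' := fun h =>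
    Set.inter_subset_inter_right _ (cov_mono h)
  let T : Set ℕ := {x | ∃ m r, x ∈ blk m ∧ r ≤ m ∧ ¬ dGe (S r) (4 * b) m ∧ x ∈ S r}
  have hT : ∀ m, ¬ dGe T (4 * b) m := by
    intro m hm
    obtain ⟨x, hx, m', r, h1, h2, h3, h4⟩ := exists_mem_of_dGe hm
    obtain rfl := blk_unique hx h1
    let Q : ℕ → Prop := fun r => ¬ dGe (S r) (4 * b) m
    have hQ : Q (Nat.findGreatest Q m) := Nat.findGreatest_spec (P := Q) h2 h3
    apply hQ
    refine hm.trans (Nat.mul_le_mul_left _ ?_)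
    unfold cn
    apply Set.ncard_le_ncard _ (fin_blk _ _)
    rintro y ⟨⟨m', r', h5, h6, h7, h8⟩, hy⟩
    obtain rfl := blk_unique (Finset.mem_coe.1 hy) h5
    exact ⟨Smono (Nat.le_findGreatest h6 h7) h8, hy⟩
  let Y' : Set ℕ := V \ T
  have hY' : (Vst U).dn ((Vst U).set Y') (2 * b) := by
    rw [Vst.dn_iff]
    filter_upwards [hY] with m hm
    have h1 : ¬ dGe (V ∩ T) (4 * b) m := fun h => hT m (dGe_mono Set.inter_subset_right h)
    have h2 := cn_add V T m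
    change (blk m).card ≤ 2 * b * cn (V \ T) m
    unfold dGe at h1 hm
    rw [← h2] at hm
    generalize cn (V ∩ T) m = c1 at *
    generalize cn (V \ T) m = c2 at *
    generalize (blk m).card = K at *
    rw [mul_add] at hm
    rw [mul_assoc] at h1 ⊢
    generalize b * c1 = d1 at *
    generalize b * c2 = d2 at *
    omega
  obtain ⟨s, k, hs, b', hb', hps⟩ := hden Y' (fun x hx => hx.1.2) hY'
  rw [Vst.dn_iff] at hps
  have hr := hcov (Encodable.encode (s, k) + s.sum + 1)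
  set r := Encodable.encode (s, k) + s.sum + 1 with hrdef
  rw [Vst.dn_iff] at hr
  have hr' := Ultrafilter.compl_mem_iff_notMem.2 hr
  obtain ⟨m, ⟨hm1, hm2⟩, hm3⟩ := U.nonempty_of_mem (inter_mem (inter_mem hps hr') (ge_mem hU r))
  have hm1 : dGe ((Vst U).set Y' ∩ H s k) b' m := hm1
  have hm2 : ¬ dGe (cov W H Y r) (4 * b) m := hm2
  have hm3 : r ≤ m := hm3
  obtain ⟨x, hx, hx1, hx2⟩ := exists_mem_of_dGe hm1
  have hx1 : x ∈ V \ T := hx1
  apply hx1.2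
  refine ⟨m, r, hx, hm3, ?_, hx1.1.1, hx1.1.2, s, k, by omega, ?_, hx2⟩
  · intro h
    exact hm2 (dGe_mono Set.inter_subset_right h)
  · intro z hz
    have h1 : z ∈ V \ T := hs z hz
    have h2 := le_sum_of_mem hz
    exact ⟨h1.1.1, h1.1.2, by omega⟩

theorem exists_limit (hU : (U : Filter ℕ) ≤ cofinite) (τ : ℕ → List ℕ) :
    ∃ Y : Set ℕ, ∀ r, ∃ k, r ≤ k ∧ ∀ x < r, x ∈ τ k ↔ x ∈ Y := by
  refine ⟨{x | {k | x ∈ τ k} ∈ U}, fun r => ?_⟩
  have h1 : ∀ r : ℕ, {k | ∀ x < r, x ∈ τ k ↔ {k | x ∈ τ k} ∈ U} ∈ U := by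
    intro r
    induction r with
    | zero => exact mem_of_superset univ_mem fun k _ x hx => absurd hx (Nat.not_lt_zero x)
    | succ r ih =>
      have h2 : {k | r ∈ τ k ↔ {k | r ∈ τ k} ∈ U} ∈ U := by
        by_cases h : {k | r ∈ τ k} ∈ U
        · filter_upwards [h] with k hk
          exact ⟨fun _ => h, fun _ => hk⟩
        · have h' := Ultrafilter.compl_mem_iff_notMem.2 h
          filter_upwards [h'] with k hk
          exact ⟨fun h3 => absurd h3 hk, fun h3 => absurd h3 h⟩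
      filter_upwards [ih, h2] with k hk1 hk2 x hx
      rcases Nat.lt_succ_iff_lt_or_eq.1 hx with h | rfl
      · exact hk1 x h
      · exact hk2
  obtain ⟨k, hk1, hk2⟩ := U.nonempty_of_mem (inter_mem (h1 r) (ge_mem hU r))
  exact ⟨k, hk2, hk1⟩

theorem dGe_congr {E F : Set ℕ} {b m : ℕ} (h : ∀ x < gg (m + 1), x ∈ E ↔ x ∈ F) :
    dGe E b m ↔ dGe F b m := by
  unfold dGe
  rw [cn_congr (E := E) (F := F)]
  intro x hx
  exact h x (mem_blk.1 hx).2

theorem Vst.phiC (hU : (U : Filter ℕ) ≤ cofinite) : PhiC (Vst U) := by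
  intro v w n hn bs hbs hden
  by_contra hcon
  push Not at hcon
  choose τ hτ1 hτ2 using hcon
  obtain ⟨Y, hY⟩ := exists_limit hU τ
  have h1 : ∀ l b : ℕ, bs[l]? = some b → ∀ r,
      ¬ (Vst U).dn (cov ((Vst U).Wc v l) ((Vst U).Hc w l) Y r) (4 * b) := by
    intro l b hl r
    obtain ⟨k, hk, hk'⟩ := hY r
    rw [← cov_congr (Y := {x | x ∈ τ k}) (fun x hx => hk' x hx)]
    exact hτ1 k l b r ⟨hl, hk⟩
  have h2 : ∀ m : ℕ, (Vst U).mem m n → ∃ l b : ℕ, bs[l]? = some b ∧ dGe (Y ∩ (Vst U).Wc v l) b m := by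
    intro m hm
    obtain ⟨k, hk, hk'⟩ := hY (gg (m + 1))
    obtain ⟨l, b, hl, hb⟩ := hτ2 k m hm hk
    refine ⟨l, b, hl, (dGe_congr fun x hx => ?_).1 hb⟩
    simp only [Set.mem_inter_iff]
    exact and_congr (hk' x hx) Iff.rfl
  have h3 : (⋃ l ∈ (Finset.range bs.length : Set ℕ),
      {m | ∃ b, bs[l]? = some b ∧ dGe (Y ∩ (Vst U).Wc v l) b m}) ∈ U := by
    apply mem_of_superset hn
    intro m hm
    obtain ⟨l, b, hl, hb⟩ := h2 m hm
    simp only [Set.mem_iUnion]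
    refine ⟨l, ?_, b, hl, hb⟩
    have := (List.getElem?_eq_some_iff.1 hl).1
    simpa using this
  rw [Ultrafilter.finite_biUnion_mem_iff (Finset.finite_toSet _)] at h3
  obtain ⟨l, hl, hl'⟩ := h3
  have hl2 : l < bs.length := by simpa using hl
  have hb : bs[l]? = some bs[l] := List.getElem?_eq_getElem hl2
  refine core hU (hden l bs[l] hb) (h1 l bs[l] hb) ?_
  filter_upwards [hl'] with m hm
  obtain ⟨b, hb1, hb2⟩ := hm
  rw [hb] at hb1
  obtain rfl := Option.some.inj hb1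
  exact hb2

end

end Pool.Agent.Work.MP_64713a_lc
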