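import Pool.Agent.Work.MP_64713a_lc.Name

set_option autoImplicit false

namespace Pool.Agent.Work.MP_64713a_lc

open Filter Topology

def Str.Has (S : Str) (N : Set ℕ) : Prop := ∃ i : S.ι, S.set i = N

def Str.Hs (S : Str) (h : S.ι) (s : List ℕ) (k : ℕ) : Set ℕ := {x | S.mem (Encodable.encode (s, k, x)) h}

section compr

variable {S : Str} {d : S.ι} (hC : S.Compr d)

include hC

/-- comprehension for definable sets -/
theorem has_of_dfs {α : Type} [Primcodable α] {E : ∀ S : Str, α → (ℕ → S.ι) → Set ℕ} (hE : DfS E)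
    (a : α) (l : List S.ι) : S.Has (E S a (envOf d l)) := by
  have h1 : Dfn (fun S (p : ℕ × α) ρ => p.1 ∈ E S p.2 ρ) :=
    DfS.memb hE (f := fun p : ℕ × α => p.2) (g := fun p => p.1) (by fun_prop) (by fun_prop) id
  obtain ⟨i, hi⟩ := hC.of_param h1 a l
  exact ⟨i, Set.ext hi⟩

theorem has_dGe {E : Set ℕ} (hE : S.Has E) (b : ℕ) : S.Has {m | dGe E b m} := by
  obtain ⟨i, rfl⟩ := hE
  have h1 : DfS (fun S (b : ℕ) ρ => {m | dGe (S.set (ρ 0)) b m}) :=
    Dfn.dGe (α := ℕ × ℕ) (E := fun S _ ρ => S.set (ρ 0)) (f := fun p => p.1) (g := fun p => p.2)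
      (DfS.setv 0) (by fun_prop) (by fun_prop)
  exact has_of_dfs hC h1 b [i]

theorem has_sdiff {E F : Set ℕ} (hE : S.Has E) (hF : S.Has F) : S.Has (E \ F) := by
  obtain ⟨i, rfl⟩ := hE
  obtain ⟨j, rfl⟩ := hF
  have h1 : DfS (fun S (_ : Unit) ρ => S.set (ρ 0) \ S.set (ρ 1)) :=
    Dfn.and (DfS.setv 0) (Dfn.not (DfS.setv 1))
  exact has_of_dfs hC h1 () [i, j]

theorem has_inter {E F : Set ℕ} (hE : S.Has E) (hF : S.Has F) : S.Has (E ∩ F) := by
  obtain ⟨i, rfl⟩ := hE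
  obtain ⟨j, rfl⟩ := hF
  have h1 : DfS (fun S (_ : Unit) ρ => S.set (ρ 0) ∩ S.set (ρ 1)) :=
    Dfn.and (DfS.setv 0) (DfS.setv 1)
  exact has_of_dfs hC h1 () [i, j]

theorem has_compl {E : Set ℕ} (hE : S.Has E) : S.Has Eᶜ := by
  obtain ⟨i, rfl⟩ := hE
  have h1 : DfS (fun S (_ : Unit) ρ => (S.set (ρ 0))ᶜ) := Dfn.not (DfS.setv 0)
  exact has_of_dfs hC h1 () [i]

theorem has_ge (k : ℕ) : S.Has {m | k ≤ m} := by
  have h1 : DfS (fun S (k : ℕ) ρ => {m | k ≤ m}) := by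
    apply Dfn.prim
    exact q_le (f := fun p : ℕ × ℕ => p.1) (g := fun p => p.2) (by fun_prop) (by fun_prop)
  exact has_of_dfs hC h1 k []

theorem has_univ : S.Has Set.univ := by
  have : (Set.univ : Set ℕ) = {m | 0 ≤ m} := by ext x; simp
  rw [this]
  exact has_ge hC 0

theorem has_Zn (w : S.ι) (t : Node) : S.Has (S.Zn w t) :=
  has_of_dfs hC (DfS.Zn 0 (f := fun t : Node => t) (by fun_prop)) t [w]

theorem has_cov (A : Set ℕ) (i j : S.ι) (r : ℕ) : S.Has (cov (S.set i) (S.Hs j) A r) := by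
  classical
  have h0 : ∀ x < r, x ∈ A ↔ x ∈ {x | x ∈ (List.range r).filter (fun x => x ∈ A)} := by
    intro x hx
    simp [hx]
  rw [cov_congr h0]
  have h1 : DfS (fun S (p : List ℕ × ℕ) ρ => cov (S.set (ρ 0)) (S.Hs (ρ 1)) {x | x ∈ p.1} p.2) :=
    DfS.cov (DfS.setv 0) (DfS.lst (f := fun p : List ℕ × ℕ => p.1) (by fun_prop))
      (H := fun S _ ρ => S.Hs (ρ 1))
      (Dfn.memp (f := fun p : (List ℕ × ℕ) × List ℕ × ℕ × ℕ =>
        Encodable.encode (p.2.1, p.2.2.1, p.2.2.2)) (by fun_prop) 1)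
      (r := fun p => p.2) (by fun_prop)
  exact has_of_dfs hC h1 ((List.range r).filter (fun x => x ∈ A), r) [i, j]

theorem exists_seq (α : Type) [Primcodable α] (L : List S.ι) :
    ∃ v : S.ι, ∀ (l : ℕ) (i : S.ι), L[l]? = some i → ∀ a : α,
      S.mem (Encodable.encode (l, a)) v ↔ S.mem (Encodable.encode a) i := by
  induction L with
  | nil => exact ⟨d, fun l i h => by simp at h⟩
  | cons i L ih =>
    obtain ⟨v, hv⟩ := ih
    have h1 : Dfn (fun S (p : (ℕ × α) × Unit) ρ =>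
        (p.1.1 = 0 ∧ S.mem (Encodable.encode p.1.2) (ρ 0)) ∨
        (∃ l' : ℕ, p.1.1 = l' + 1 ∧ S.mem (Encodable.encode (l', p.1.2)) (ρ 1))) := by
      apply Dfn.or
      · apply Dfn.and
        · apply Dfn.prim; fun_prop
        · apply Dfn.memp; fun_prop
      · apply Dfn.ex
        apply Dfn.and
        · apply Dfn.prim; fun_prop
        · exact Dfn.memp (f := fun p : ((ℕ × α) × Unit) × ℕ => Encodable.encode (p.2, p.1.1.2))
            (by fun_prop) 1
    obtain ⟨u, hu⟩ := hC.rel h1 () [i, v]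
    refine ⟨u, fun l j hl a => (hu (l, a)).trans ?_⟩
    simp only [envOf, List.getD_cons_zero, List.getD_cons_succ]
    cases l with
    | zero =>
      simp only [List.getElem?_cons_zero, Option.some.injEq] at hl
      subst hl
      simp
    | succ l =>
      simp only [List.getElem?_cons_succ] at hl
      have h2 := hv l j hl a
      constructor
      · rintro (⟨h3, -⟩ | ⟨l', h3, h4⟩)
        · omega
        · obtain rfl : l = l' := by omega
          exact h2.1 h4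
      · intro h3
        exact Or.inr ⟨l, rfl, h2.2 h3⟩

end compr

section ultra

variable {S : Str} {d : S.ι} (hC : S.Compr d) (hU : PhiU S)

include hU in
theorem UU_up {N N' : Set ℕ} (h : S.UU N) (hN' : S.Has N') (hsub : N ⊆ N') : S.UU N' := by
  obtain ⟨i, h1, h2⟩ := h
  obtain ⟨j, rfl⟩ := hN'
  exact ⟨j, fun m => Iff.rfl, hU.1 i i j h2 h2 fun x hx _ => hsub ((h1 x).1 hx)⟩

theorem UU_has {N : Set ℕ} (h : S.UU N) : S.Has N := by
  obtain ⟨i, h1, h2⟩ := h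
  exact ⟨i, Set.ext h1⟩

include hC hU in
theorem UU_inter {N N' : Set ℕ} (h : S.UU N) (h' : S.UU N') : S.UU (N ∩ N') := by
  obtain ⟨k, hk⟩ := has_inter hC (UU_has h) (UU_has h')
  obtain ⟨i, h1, h2⟩ := h
  obtain ⟨j, h3, h4⟩ := h'
  refine ⟨k, fun m => ?_, hU.1 i j k h2 h4 fun x hx hx' => ?_⟩
  · rw [← hk]; exact Iff.rfl
  · have : x ∈ S.set k := by rw [hk]; exact ⟨(h1 x).1 hx, (h3 x).1 hx'⟩
    exact this

include hC hU in
theorem UU_or {N : Set ℕ} (hN : S.Has N) : S.UU N ∨ S.UU Nᶜ := by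
  obtain ⟨j, hj⟩ := has_compl hC hN
  obtain ⟨i, rfl⟩ := hN
  have h0 : ∀ x : ℕ, S.mem x i ∨ S.mem x j := by
    intro x
    by_cases hx : S.mem x i
    · exact Or.inl hx
    · right
      have : x ∈ S.set j := by rw [hj]; exact hx
      exact this
  rcases hU.2.1 i j h0 with h | h
  · exact Or.inl ⟨i, fun m => Iff.rfl, h⟩
  · refine Or.inr ⟨j, fun m => ?_, h⟩
    rw [← hj]; exact Iff.rfl

include hC hU in
theorem UU_univ : S.UU Set.univ := by
  rcases UU_or hC hU (has_univ hC) with h | ⟨i, h1, h2⟩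
  · exact h
  · obtain ⟨m, -, hm⟩ := hU.2.2 i h2 0
    exact absurd ((h1 m).1 hm) (by simp)

include hC hU in
theorem UU_ge (k : ℕ) : S.UU {m | k ≤ m} := by
  rcases UU_or hC hU (has_ge hC k) with h | ⟨i, h1, h2⟩
  · exact h
  · obtain ⟨m, hm, hm'⟩ := hU.2.2 i h2 k
    exact absurd hm ((h1 m).1 hm')

end ultra

/-! ### leaves and the external ultrafilter -/

structure Leaf (S : Str) (A : Set ℕ) where
  W : S.ι
  H : S.ι
  b : ℕ
  hb : 0 < b
  hden : S.cden (S.set W) (S.Hs H) (2 * b)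
  hcov : ∀ r, ¬ S.dn (cov (S.set W) (S.Hs H) A r) (4 * b)

section leaves

variable {S : Str} {d : S.ι} (hC : S.Compr d) (hU : PhiU S) (hP : PhiC S) {A : Set ℕ}

include hC hP in
theorem leaf_fip {N : Set ℕ} (hN : S.UU N) (L : List (Leaf S A)) :
    ∃ m ∈ N, ∀ q ∈ L, ¬ dGe (A ∩ S.set q.W) q.b m := by
  classical
  obtain ⟨v, hv⟩ := exists_seq hC ℕ (L.map Leaf.W)
  obtain ⟨w, hw⟩ := exists_seq hC (List ℕ × ℕ × ℕ) (L.map Leaf.H)
  obtain ⟨n, hn1, hn2⟩ := hN
  have hv' : ∀ (l : ℕ) (q : Leaf S A), L[l]? = some q → S.Wc v l = S.set q.W := by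
    intro l q hq
    ext x
    exact hv l q.W (by simp [hq]) x
  have hw' : ∀ (l : ℕ) (q : Leaf S A), L[l]? = some q → S.Hc w l = S.Hs q.H := by
    intro l q hq
    funext s k
    ext x
    exact hw l q.H (by simp [hq]) (s, k, x)
  have hbs : ∀ l b : ℕ, (L.map Leaf.b)[l]? = some b → ∃ q, L[l]? = some q ∧ q.b = b := by
    intro l b hl
    rw [List.getElem?_map, Option.map_eq_some_iff] at hl
    exact hl
  obtain ⟨k, hk⟩ := hP v w n hn2 (L.map Leaf.b) (by
      intro b hb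
      rw [List.mem_map] at hb
      obtain ⟨q, -, rfl⟩ := hb
      exact q.hb) (by
      intro l b hl
      obtain ⟨q, hq, rfl⟩ := hbs l b hl
      rw [hv' l q hq, hw' l q hq]
      exact q.hden)
  have hτ : ∀ x < k, x ∈ A ↔ x ∈ (List.range k).filter (fun x => x ∈ A) := by
    intro x hx
    simp [hx]
  rcases hk ((List.range k).filter (fun x => x ∈ A)) with ⟨l, b, r, ⟨hl, hr⟩, hd⟩ | ⟨m, hm, hm2, hm3⟩
  · exfalso
    obtain ⟨q, hq, rfl⟩ := hbs l b hl
    rw [hv' l q hq, hw' l q hq] at hd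
    apply q.hcov r
    rw [cov_congr (Y' := {x | x ∈ (List.range k).filter (fun x => x ∈ A)})
      (fun x hx => hτ x (lt_of_lt_of_le hx hr))]
    exact hd
  · refine ⟨m, (hn1 m).1 hm, fun q hq => ?_⟩
    obtain ⟨l, hl⟩ := List.mem_iff_getElem?.1 hq
    have h1 := hm3 l q.b (by simp [hl])
    rw [hv' l q hl] at h1
    intro h2
    apply h1
    refine (dGe_congr fun x hx => ?_).1 h2
    simp only [Set.mem_inter_iff]
    exact and_congr (hτ x (lt_of_lt_of_le hx hm2)) Iff.rfl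

include hC hU hP in
theorem exists_ultra : ∃ W : Ultrafilter ℕ, (W : Filter ℕ) ≤ cofinite ∧
    (∀ N, S.UU N → N ∈ W) ∧ ∀ q : Leaf S A, {m | ¬ dGe (A ∩ S.set q.W) q.b m} ∈ W := by
  let F : Filter ℕ :=
    { sets := {N | ∃ N₀, S.UU N₀ ∧ ∃ L : List (Leaf S A), ∀ m ∈ N₀,
        (∀ q ∈ L, ¬ dGe (A ∩ S.set q.W) q.b m) → m ∈ N}
      univ_sets := ⟨Set.univ, UU_univ hC hU, [], fun m _ _ => Set.mem_univ m⟩
      sets_of_superset := by
        rintro N N' ⟨N₀, h1, L, h2⟩ h3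
        exact ⟨N₀, h1, L, fun m hm hm' => h3 (h2 m hm hm')⟩
      inter_sets := by
        rintro N N' ⟨N₀, h1, L, h2⟩ ⟨N₀', h1', L', h2'⟩
        exact ⟨N₀ ∩ N₀', UU_inter hC hU h1 h1', L ++ L', fun m hm hm' =>
          ⟨h2 m hm.1 fun q hq => hm' q (List.mem_append_left _ hq),
            h2' m hm.2 fun q hq => hm' q (List.mem_append_right _ hq)⟩⟩ }
  have hF : F.NeBot := by
    rw [neBot_iff]
    intro hbot
    have : (∅ : Set ℕ) ∈ F := by rw [hbot]; exact mem_bot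
    obtain ⟨N₀, h1, L, h2⟩ := this
    obtain ⟨m, hm1, hm2⟩ := leaf_fip hC hP h1 L
    exact h2 m hm1 hm2
  have h0 : ∀ N, S.UU N → N ∈ F := fun N hN => ⟨N, hN, [], fun m hm _ => hm⟩
  refine ⟨Ultrafilter.of F, ?_, fun N hN => Ultrafilter.of_le F (h0 N hN), fun q => ?_⟩
  · rw [Nat.cofinite_eq_atTop]
    intro s hs
    obtain ⟨k, hk⟩ := mem_atTop_sets.1 hs
    exact mem_of_superset (Ultrafilter.of_le F (h0 _ (UU_ge hC hU k))) fun m hm => hk m hm
  · apply Ultrafilter.of_le F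
    exact ⟨Set.univ, UU_univ hC hU, [q], fun m _ hm => hm q (by simp)⟩

end leaves

section main

variable {S : Str} {d : S.ι} (hC : S.Compr d) (hU : PhiU S) {A : Set ℕ} {W : Ultrafilter ℕ}
  (hW1 : (W : Filter ℕ) ≤ cofinite) (hW2 : ∀ N, S.UU N → N ∈ W)
  (hW3 : ∀ q : Leaf S A, {m | ¬ dGe (A ∩ S.set q.W) q.b m} ∈ W)

include hW2 in
theorem le_mu_of_dn {E : Set ℕ} {b : ℕ} (hb : 0 < b) (h : S.dn E b) : (1 : ℝ) / b ≤ mu W E :=
  le_mu_of_dGe hb (hW2 _ h)

include hW2 in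
theorem mu_pos_of_ps {E : Set ℕ} (h : S.ps E) : 0 < mu W E := by
  obtain ⟨b, hb, h1⟩ := h
  have h2 := le_mu_of_dn hW2 hb h1
  have h3 : (0 : ℝ) < 1 / b := by positivity
  linarith

include hC hU hW2 in
theorem ps_of_mu_pos {E : Set ℕ} (hE : S.Has E) (h : 0 < mu W E) : S.ps E := by
  obtain ⟨b, hb, -, h1⟩ := exists_dGe_of_pos h
  refine ⟨b, hb, ?_⟩
  rcases UU_or hC hU (has_dGe hC hE b) with h2 | h2
  · exact h2
  · exfalso
    have h3 := hW2 _ h2
    exact Ultrafilter.compl_notMem_iff.2 h1 h3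

include hC hW2 hW3 in
theorem main_lemma {Z H : S.ι} {b : ℕ} (hb : 0 < b) (hmu : (1 : ℝ) / b < mu W (A ∩ S.set Z))
    (hden : S.cden (S.set Z) (S.Hs H) (2 * b)) :
    ∃ s k, (∀ z ∈ s, z ∈ A ∧ z ∈ S.set Z) ∧ 0 < mu W (A ∩ (S.set Z ∩ S.Hs H s k)) := by
  by_contra hcon
  push Not at hcon
  have hb' : (0 : ℝ) < b := by exact_mod_cast hb
  let T : Set ℝ := Set.range fun R => mu W (cov (S.set Z) (S.Hs H) A R)
  have hT2 : BddAbove T := ⟨1, by rintro c ⟨R, rfl⟩; exact mu_le_one _⟩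
  have h1 : sSup T - 1 / (8 * b) < sSup T := by
    have : (0 : ℝ) < 1 / (8 * b) := by positivity
    linarith
  obtain ⟨_, ⟨R0, rfl⟩, hR0⟩ := exists_lt_of_lt_csSup (Set.range_nonempty _) h1
  simp only at hR0
  set β := cov (S.set Z) (S.Hs H) A R0 with hβ
  obtain ⟨V, hV⟩ := has_sdiff hC ⟨Z, rfl⟩ (has_cov hC A Z H R0)
  have hVsub : S.set V ⊆ S.set Z := by rw [hV]; exact Set.sdiff_subset
  have hleaf1 : S.cden (S.set V) (S.Hs H) (2 * b) := fun y hy hd =>
    hden y (fun x hx => hVsub (hy x hx)) hd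
  have hleaf2 : ∀ r, ¬ S.dn (cov (S.set V) (S.Hs H) A r) (4 * b) := by
    intro r hd
    have h2 := le_mu_of_dn hW2 (by omega) hd
    have h3 : cov (S.set V) (S.Hs H) A r ⊆ cov (S.set Z) (S.Hs H) A (max r R0) \ β := by
      rintro x ⟨hx, s, k, h4, h5, h6⟩
      have hx' : x ∈ S.set Z \ β := by rw [← hV]; exact hx
      refine ⟨⟨hx'.1, s, k, lt_of_lt_of_le h4 (le_max_left _ _), fun z hz => ?_, h6⟩, hx'.2⟩
      obtain ⟨h7, h8, h9⟩ := h5 z hz
      exact ⟨h7, hVsub h8, lt_of_lt_of_le h9 (le_max_left _ _)⟩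
    have h4 := mu_mono (W := W) h3
    have h5 := mu_add (W := W) (cov (S.set Z) (S.Hs H) A (max r R0)) β
    have h6 : cov (S.set Z) (S.Hs H) A (max r R0) ∩ β = β :=
      Set.inter_eq_right.2 (cov_mono (le_max_right _ _))
    have h7 : mu W (cov (S.set Z) (S.Hs H) A (max r R0)) ≤ sSup T := le_csSup hT2 ⟨_, rfl⟩
    rw [h6] at h5
    push_cast at h2
    have h8 : (1 : ℝ) / (8 * b) < 1 / (4 * b) := by
      apply one_div_lt_one_div_of_lt
      · positivity
      · linarith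
    linarith
  have h2 := hW3 ⟨V, H, b, hb, hleaf1, hleaf2⟩
  simp only at h2
  have h3 : mu W (A ∩ S.set V) ≤ 1 / b := by
    apply mu_le_of_not_dGe hb
    intro h4
    obtain ⟨m, hm1, hm2⟩ := W.nonempty_of_mem (inter_mem h2 h4)
    exact hm1 hm2
  have h4 := mu_add (W := W) (A ∩ S.set Z) β
  have h5 : (A ∩ S.set Z) \ β = A ∩ S.set V := by
    rw [hV]; ext x; simp only [Set.mem_sdiff, Set.mem_inter_iff]; tauto
  have h6 : mu W ((A ∩ S.set Z) ∩ β) = 0 := by
    let E : ℕ → Set ℕ := fun n => {x | ∃ (s : List ℕ) (k : ℕ), Encodable.encode (s, k) = n ∧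
      (∀ z ∈ s, z ∈ A ∧ z ∈ S.set Z) ∧ x ∈ S.Hs H s k}
    have h7 : ∀ n ∈ Finset.range R0, mu W ((A ∩ S.set Z) ∩ E n) = 0 := by
      intro n _
      by_cases h8 : ∃ (s : List ℕ) (k : ℕ), Encodable.encode (s, k) = n ∧
          (∀ z ∈ s, z ∈ A ∧ z ∈ S.set Z)
      · obtain ⟨s, k, h9, h10⟩ := h8
        have h11 := hcon s k h10
        refine le_antisymm (le_trans (mu_mono ?_) h11) (mu_nonneg _)
        rintro x ⟨⟨hx1, hx2⟩, s', k', h12, -, h13⟩
        rw [← h9] at h12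
        obtain ⟨rfl, rfl⟩ := Prod.mk.inj (Encodable.encode_injective h12)
        exact ⟨hx1, hx2, h13⟩
      · have h9 : (A ∩ S.set Z) ∩ E n = ∅ := by
          ext x
          simp only [Set.mem_inter_iff, Set.mem_empty_iff_false, iff_false, not_and]
          rintro - ⟨s, k, h10, h11, -⟩
          exact h8 ⟨s, k, h10, h11⟩
        rw [h9, mu_empty]
    have h8 := mu_biUnion_eq_zero (W := W) (Finset.range R0) E (A ∩ S.set Z) h7
    refine le_antisymm (le_trans (mu_mono ?_) h8.le) (mu_nonneg _)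
    rintro x ⟨hx, -, s, k, h9, h10, h11⟩
    refine ⟨hx, ?_⟩
    simp only [Set.mem_iUnion]
    exact ⟨_, Finset.mem_range.2 h9, s, k, rfl, fun z hz => ⟨(h10 z hz).1, (h10 z hz).2.1⟩, h11⟩
  rw [h5, h6] at h4
  linarith

end main

/-! ### states -/

/-- the nodes above `t` of given length, possibly with a digit condition -/
def PP (a : Node × ℕ × ℕ × ℕ) (t' : Node) : Prop :=
  a.1 = t'.drop (t'.length - a.1.length) ∧ t'.length = a.2.1 ∧
    (a.2.2.2 = 0 ∨ ¬ (dig t')[a.2.2.1]? = some 1)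

theorem q_PP {α : Type} [Primcodable α] {f : α → Node × ℕ × ℕ × ℕ} {g : α → Node} (hf : Primrec f)
    (hg : Primrec g) : PrimrecPred (fun x => PP (f x) (g x)) := by
  unfold PP
  fun_prop

def Str.fd (S : Str) (w : S.ι) (a : Node × ℕ × ℕ × ℕ) (σ : List ℕ) (z : S.ι) (b : ℕ) : Prop :=
  ∀ y : S.ι, (∀ x : ℕ, S.mem x y → S.mem x z) → S.dn (S.set y) b →
    ∃ t' : Node, PP a t' ∧ (∀ x : ℕ, (x ∈ σ → x ∈ stm t') ∧ (x ∈ stm t' → x ∈ σ ∨ S.mem x y)) ∧
      S.ps (S.set y ∩ S.Zn w t')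

theorem Dfn.fd {α : Type} [Primcodable α] {a : α → Node × ℕ × ℕ × ℕ} {σ : α → List ℕ} {b : α → ℕ}
    (ha : Primrec a) (hσ : Primrec σ) (hb : Primrec b) (i j : ℕ) :
    Dfn (fun S x ρ => S.fd (ρ i) (a x) (σ x) (ρ j) (b x)) := by
  apply Dfn.allX
  apply Dfn.imp
  · apply Dfn.all
    apply Dfn.imp
    · apply Dfn.memp (f := fun p : α × ℕ => p.2) (by fun_prop) 0
    · apply Dfn.memp (f := fun p : α × ℕ => p.2) (by fun_prop) (j + 1)
  · apply Dfn.imp
    · exact Dfn.dn (DfS.setv 0) hb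
    · apply Dfn.ex
      apply Dfn.and
      · apply Dfn.prim
        exact q_PP (f := fun p : α × Node => a p.1) (g := fun p => p.2) (by fun_prop) (by fun_prop)
      · apply Dfn.and
        · apply Dfn.all
          apply Dfn.and
          · apply Dfn.imp
            · apply Dfn.prim; fun_prop
            · apply Dfn.prim; fun_prop
          · apply Dfn.imp
            · apply Dfn.prim; fun_prop
            · apply Dfn.or
              · apply Dfn.prim; fun_prop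
              · exact Dfn.memp (f := fun p : (α × Node) × ℕ => p.2) (by fun_prop) 0
        · exact Dfn.ps ((DfS.setv 0).inter (DfS.Zn (i + 1) (f := fun p : α × Node => p.2)
            (by fun_prop)))

end Pool.Agent.Work.MP_64713a_lc
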