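import Pool.Agent.Work.MP_64713a_lc.Meas

set_option autoImplicit false

namespace Pool.Agent.Work.MP_64713a_lc

/-! ### internal notions -/

def Str.UU (S : Str) (N : Set ℕ) : Prop := ∃ i : S.ι, (∀ m : ℕ, S.mem m i ↔ m ∈ N) ∧ S.U i

def Str.dn (S : Str) (E : Set ℕ) (b : ℕ) : Prop := S.UU {m | dGe E b m}

def Str.ps (S : Str) (E : Set ℕ) : Prop := ∃ b : ℕ, 0 < b ∧ S.dn E b

theorem dGe_iff_list (E : Set ℕ) (b m : ℕ) : dGe E b m ↔
    ∃ l : List ℕ, (∀ i : ℕ, ∀ j : ℕ, i < j → j < l.length → ¬ l[i]? = l[j]?) ∧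
      (∀ x : ℕ, x ∈ l → (gg m ≤ x ∧ x < gg (m + 1)) ∧ x ∈ E) ∧
      gg (m + 1) - gg m ≤ b * l.length := by
  classical
  unfold dGe
  rw [card_blk]
  constructor
  · intro h
    refine ⟨(fin_blk E m).toFinset.toList, ?_, ?_, ?_⟩
    · intro i j hij hj
      exact List.nodup_iff_getElem?_ne_getElem?.1 (Finset.nodup_toList _) i j hij hj
    · intro x hx
      simp only [Finset.mem_toList, Set.Finite.mem_toFinset, Set.mem_inter_iff,
        Finset.mem_coe, mem_blk] at hx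
      exact ⟨hx.2, hx.1⟩
    · rw [Finset.length_toList, ← Set.ncard_eq_toFinset_card _ (fin_blk E m)]
      exact h
  · rintro ⟨l, h1, h2, h3⟩
    have hnd : l.Nodup := List.nodup_iff_getElem?_ne_getElem?.2 h1
    refine h3.trans (Nat.mul_le_mul_left _ ?_)
    have h4 : l.length = l.toFinset.card := (List.toFinset_card_of_nodup hnd).symm
    rw [h4, ← Set.ncard_coe_finset]
    apply Set.ncard_le_ncard _ (fin_blk E m)
    intro x hx
    simp only [List.coe_toFinset, Set.mem_ofPred_eq] at hx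
    exact ⟨(h2 x hx).2, by rw [Finset.mem_coe, mem_blk]; exact (h2 x hx).1⟩

/-- uniformly definable set valued terms -/
def DfS {α : Type} [Primcodable α] (E : ∀ S : Str, α → (ℕ → S.ι) → Set ℕ) : Prop :=
  Dfn (fun S (p : α × ℕ) ρ => p.2 ∈ E S p.1 ρ)

section dfs

variable {α β : Type} [Primcodable α] [Primcodable β]

theorem DfS.memb {E : ∀ S : Str, α → (ℕ → S.ι) → Set ℕ} (hE : DfS E) {f : β → α} {g : β → ℕ}
    (hf : Primrec f) (hg : Primrec g) (r : ℕ → ℕ) :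
    Dfn (fun S b ρ => g b ∈ E S (f b) (fun j => ρ (r j))) :=
  Dfn.subst hE (f := fun b => (f b, g b)) (by fun_prop) r

theorem DfS.sub {E : ∀ S : Str, α → (ℕ → S.ι) → Set ℕ} (hE : DfS E) {f : β → α}
    (hf : Primrec f) (r : ℕ → ℕ) :
    DfS (fun S b ρ => E S (f b) (fun j => ρ (r j))) :=
  DfS.memb hE (f := fun p : β × ℕ => f p.1) (g := fun p => p.2) (by fun_prop) (by fun_prop) r

theorem DfS.setv (j : ℕ) : DfS (fun S (_ : α) ρ => S.set (ρ j)) := by
  unfold DfS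
  exact Dfn.memp (f := fun p : α × ℕ => p.2) (by fun_prop) j

theorem DfS.inter {E F : ∀ S : Str, α → (ℕ → S.ι) → Set ℕ} (hE : DfS E) (hF : DfS F) :
    DfS (fun S a ρ => E S a ρ ∩ F S a ρ) := Dfn.and hE hF

theorem Dfn.UU {E : ∀ S : Str, α → (ℕ → S.ι) → Set ℕ} (hE : DfS E) :
    Dfn (fun S a ρ => S.UU (E S a ρ)) := by
  apply Dfn.exX
  apply Dfn.and
  · apply Dfn.all
    apply Dfn.iff
    · apply Dfn.memp; fun_prop
    · exact DfS.memb hE (f := fun p : α × ℕ => p.1) (g := fun p => p.2) (by fun_prop) (by fun_prop) _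
  · exact Dfn.U 0

theorem Dfn.dGe {E : ∀ S : Str, α → (ℕ → S.ι) → Set ℕ} (hE : DfS E) {f g : α → ℕ}
    (hf : Primrec f) (hg : Primrec g) :
    Dfn (fun S a ρ => dGe (E S a ρ) (f a) (g a)) := by
  refine Dfn.congr (Φ := fun S a ρ => ∃ l : List ℕ,
    (∀ i : ℕ, ∀ j : ℕ, i < j → j < l.length → ¬ l[i]? = l[j]?) ∧
      (∀ x : ℕ, x ∈ l → (gg (g a) ≤ x ∧ x < gg (g a + 1)) ∧ x ∈ E S a ρ) ∧
      gg (g a + 1) - gg (g a) ≤ (f a) * l.length) ?_ (fun S a ρ => (dGe_iff_list _ _ _).symm)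
  apply Dfn.ex
  apply Dfn.and
  · apply Dfn.all
    apply Dfn.all
    apply Dfn.imp
    · apply Dfn.prim; fun_prop
    · apply Dfn.imp
      · apply Dfn.prim; fun_prop
      · apply Dfn.prim; fun_prop
  · apply Dfn.and
    · apply Dfn.all
      apply Dfn.imp
      · apply Dfn.prim; fun_prop
      · apply Dfn.and
        · apply Dfn.prim; fun_prop
        · exact DfS.memb hE (f := fun p : (α × List ℕ) × ℕ => p.1.1) (g := fun p => p.2)
            (by fun_prop) (by fun_prop) id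
    · apply Dfn.prim; fun_prop

theorem Dfn.dn {E : ∀ S : Str, α → (ℕ → S.ι) → Set ℕ} (hE : DfS E) {f : α → ℕ}
    (hf : Primrec f) : Dfn (fun S a ρ => S.dn (E S a ρ) (f a)) := by
  apply Dfn.UU (E := fun S a ρ => {m | MP_64713a_lc.dGe (E S a ρ) (f a) m})
  exact Dfn.dGe (E := fun S (p : α × ℕ) ρ => E S p.1 ρ) (f := fun p => f p.1) (g := fun p => p.2)
    (hE.sub (by fun_prop) id) (by fun_prop) (by fun_prop)

theorem Dfn.ps {E : ∀ S : Str, α → (ℕ → S.ι) → Set ℕ} (hE : DfS E) :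
    Dfn (fun S a ρ => S.ps (E S a ρ)) := by
  apply Dfn.ex
  apply Dfn.and
  · apply Dfn.prim; fun_prop
  · exact Dfn.dn (E := fun S (p : α × ℕ) ρ => E S p.1 ρ) (hE.sub (by fun_prop) id) (by fun_prop)

end dfs

/-! ### ultrafilter axioms -/

def PhiU (S : Str) : Prop :=
  (∀ i j k : S.ι, S.U i → S.U j → (∀ x : ℕ, S.mem x i → S.mem x j → S.mem x k) → S.U k) ∧
  (∀ i j : S.ι, (∀ x : ℕ, S.mem x i ∨ S.mem x j) → S.U i ∨ S.U j) ∧
  (∀ i : S.ι, S.U i → ∀ k : ℕ, ∃ m : ℕ, k ≤ m ∧ S.mem m i)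

theorem dfn_phiU : Dfn (fun S (_ : Unit) _ => PhiU S) := by
  apply Dfn.and
  · apply Dfn.allX
    apply Dfn.allX
    apply Dfn.allX
    apply Dfn.imp (Dfn.U 2)
    apply Dfn.imp (Dfn.U 1)
    apply Dfn.imp _ (Dfn.U 0)
    apply Dfn.all
    apply Dfn.imp (Dfn.memp (by fun_prop) 2)
    apply Dfn.imp (Dfn.memp (by fun_prop) 1)
    exact (Dfn.memp (by fun_prop) 0)
  · apply Dfn.and
    · apply Dfn.allX
      apply Dfn.allX
      apply Dfn.imp
      · apply Dfn.all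
        apply Dfn.or (Dfn.memp (by fun_prop) 1)
        exact (Dfn.memp (by fun_prop) 0)
      · exact Dfn.or (Dfn.U 1) (Dfn.U 0)
    · apply Dfn.allX
      apply Dfn.imp (Dfn.U 0)
      apply Dfn.all
      apply Dfn.ex
      apply Dfn.and
      · apply Dfn.prim; fun_prop
      · exact Dfn.memp (f := fun p : (Unit × ℕ) × ℕ => p.2) (by fun_prop) 0

/-! ### density and compactness -/

/-- `H` is dense for sets of density at least `1 / b` inside `W` -/
def Str.cden (S : Str) (W : Set ℕ) (H : List ℕ → ℕ → Set ℕ) (b : ℕ) : Prop :=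
  ∀ y : S.ι, (∀ x : ℕ, S.mem x y → x ∈ W) → S.dn (S.set y) b →
    ∃ s : List ℕ, ∃ k : ℕ, (∀ z : ℕ, z ∈ s → S.mem z y) ∧ S.ps (S.set y ∩ H s k)

def cov (W : Set ℕ) (H : List ℕ → ℕ → Set ℕ) (Y : Set ℕ) (r : ℕ) : Set ℕ :=
  {x | x ∈ W ∧ ∃ s : List ℕ, ∃ k : ℕ, Encodable.encode (s, k) < r ∧
    (∀ z : ℕ, z ∈ s → z ∈ Y ∧ z ∈ W ∧ z < r) ∧ x ∈ H s k}

def Str.Wc (S : Str) (v : S.ι) (l : ℕ) : Set ℕ := {x | S.mem (Encodable.encode (l, x)) v}

def Str.Hc (S : Str) (w : S.ι) (l : ℕ) (s : List ℕ) (k : ℕ) : Set ℕ :=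
  {x | S.mem (Encodable.encode (l, s, k, x)) w}

def PhiC (S : Str) : Prop :=
  ∀ v w n : S.ι, S.U n → ∀ bs : List ℕ, (∀ b : ℕ, b ∈ bs → 0 < b) →
    (∀ l b : ℕ, bs[l]? = some b → S.cden (S.Wc v l) (S.Hc w l) (2 * b)) →
    ∃ k : ℕ, ∀ τ : List ℕ,
      (∃ l b r : ℕ, (bs[l]? = some b ∧ r ≤ k) ∧
        S.dn (cov (S.Wc v l) (S.Hc w l) {x | x ∈ τ} r) (4 * b)) ∨
      (∃ m : ℕ, S.mem m n ∧ gg (m + 1) ≤ k ∧ ∀ l b : ℕ, bs[l]? = some b →
        ¬ dGe ({x | x ∈ τ} ∩ S.Wc v l) b m)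

section dfs2

variable {α β : Type} [Primcodable α] [Primcodable β]

/-- uniformly definable families -/
def DfH {α : Type} [Primcodable α] (H : ∀ S : Str, α → (ℕ → S.ι) → List ℕ → ℕ → Set ℕ) : Prop :=
  Dfn (fun S (p : α × List ℕ × ℕ × ℕ) ρ => p.2.2.2 ∈ H S p.1 ρ p.2.1 p.2.2.1)

theorem DfH.sub {H : ∀ S : Str, α → (ℕ → S.ι) → List ℕ → ℕ → Set ℕ} (hH : DfH H) {f : β → α}
    (hf : Primrec f) (r : ℕ → ℕ) :
    DfH (fun S b ρ => H S (f b) (fun j => ρ (r j))) :=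
  Dfn.subst hH (f := fun p : β × List ℕ × ℕ × ℕ => (f p.1, p.2)) (by fun_prop) r

theorem DfH.app {H : ∀ S : Str, α → (ℕ → S.ι) → List ℕ → ℕ → Set ℕ} (hH : DfH H)
    {s : α → List ℕ} {k : α → ℕ} (hs : Primrec s) (hk : Primrec k) :
    DfS (fun S a ρ => H S a ρ (s a) (k a)) :=
  Dfn.subst hH (f := fun p : α × ℕ => (p.1, s p.1, k p.1, p.2)) (by fun_prop) id

theorem Dfn.cden {W : ∀ S : Str, α → (ℕ → S.ι) → Set ℕ} (hW : DfS W)
    {H : ∀ S : Str, α → (ℕ → S.ι) → List ℕ → ℕ → Set ℕ} (hH : DfH H) {f : α → ℕ}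
    (hf : Primrec f) :
    Dfn (fun S a ρ => S.cden (W S a ρ) (H S a ρ) (f a)) := by
  apply Dfn.allX
  apply Dfn.imp
  · apply Dfn.all
    apply Dfn.imp
    · apply Dfn.memp; fun_prop
    · exact DfS.memb hW (f := fun p : α × ℕ => p.1) (g := fun p => p.2) (by fun_prop)
        (by fun_prop) (fun j => j + 1)
  · apply Dfn.imp
    · exact Dfn.dn (DfS.setv 0) hf
    · apply Dfn.ex
      apply Dfn.ex
      apply Dfn.and
      · apply Dfn.all
        apply Dfn.imp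
        · apply Dfn.prim; fun_prop
        · exact Dfn.memp (f := fun p : ((α × List ℕ) × ℕ) × ℕ => p.2) (by fun_prop) 0
      · exact Dfn.ps ((DfS.setv 0).inter ((hH.sub (β := (α × List ℕ) × ℕ)
          (f := fun p => p.1.1) (by fun_prop) (fun j => j + 1)).app
          (s := fun p => p.1.2) (k := fun p => p.2) (by fun_prop) (by fun_prop)))

theorem DfS.cov {W Y : ∀ S : Str, α → (ℕ → S.ι) → Set ℕ} (hW : DfS W) (hY : DfS Y)
    {H : ∀ S : Str, α → (ℕ → S.ι) → List ℕ → ℕ → Set ℕ} (hH : DfH H) {r : α → ℕ}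
    (hr : Primrec r) :
    DfS (fun S a ρ => cov (W S a ρ) (H S a ρ) (Y S a ρ) (r a)) := by
  apply Dfn.and hW
  apply Dfn.ex
  apply Dfn.ex
  apply Dfn.and
  · apply Dfn.prim; fun_prop
  · apply Dfn.and
    · apply Dfn.all
      apply Dfn.imp
      · apply Dfn.prim; fun_prop
      · apply Dfn.and
        · exact DfS.memb hY (f := fun p : (((α × ℕ) × List ℕ) × ℕ) × ℕ => p.1.1.1.1)
            (g := fun p => p.2) (by fun_prop) (by fun_prop) id
        · apply Dfn.and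
          · exact DfS.memb hW (f := fun p : (((α × ℕ) × List ℕ) × ℕ) × ℕ => p.1.1.1.1)
              (g := fun p => p.2) (by fun_prop) (by fun_prop) id
          · apply Dfn.prim; fun_prop
    · exact Dfn.subst hH (f := fun p : ((α × ℕ) × List ℕ) × ℕ => (p.1.1.1, p.1.2, p.2, p.1.1.2))
        (by fun_prop) id

theorem DfS.Wc (j : ℕ) {f : α → ℕ} (hf : Primrec f) : DfS (fun S a ρ => S.Wc (ρ j) (f a)) :=
  Dfn.memp (f := fun p : α × ℕ => Encodable.encode (f p.1, p.2)) (by fun_prop) j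

theorem DfH.Hc (j : ℕ) {f : α → ℕ} (hf : Primrec f) : DfH (fun S a ρ => S.Hc (ρ j) (f a)) :=
  Dfn.memp (f := fun p : α × List ℕ × ℕ × ℕ =>
    Encodable.encode (f p.1, p.2.1, p.2.2.1, p.2.2.2)) (by fun_prop) j

theorem DfS.lst {f : α → List ℕ} (hf : Primrec f) : DfS (fun _ a _ => {x | x ∈ f a}) := by
  apply Dfn.prim
  exact q_mem (f := fun p : α × ℕ => p.2) (g := fun p => f p.1) (by fun_prop) (by fun_prop)

theorem dfn_phiC : Dfn (fun S (_ : Unit) _ => PhiC S) := by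
  apply Dfn.allX
  apply Dfn.allX
  apply Dfn.allX
  apply Dfn.imp (Dfn.U 0)
  apply Dfn.all
  apply Dfn.imp
  · apply Dfn.all
    apply Dfn.imp
    · apply Dfn.prim; fun_prop
    · apply Dfn.prim; fun_prop
  apply Dfn.imp
  · apply Dfn.all
    apply Dfn.all
    apply Dfn.imp
    · apply Dfn.prim; fun_prop
    · exact Dfn.cden (DfS.Wc 2 (f := fun p : ((Unit × List ℕ) × ℕ) × ℕ => p.1.2) (by fun_prop))
        (DfH.Hc 1 (f := fun p : ((Unit × List ℕ) × ℕ) × ℕ => p.1.2) (by fun_prop))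
        (f := fun p => 2 * p.2) (by fun_prop)
  apply Dfn.ex
  apply Dfn.all
  apply Dfn.or
  · apply Dfn.ex
    apply Dfn.ex
    apply Dfn.ex
    apply Dfn.and
    · apply Dfn.prim; fun_prop
    · exact Dfn.dn (DfS.cov
        (DfS.Wc 2 (f := fun p : (((((Unit × List ℕ) × ℕ) × List ℕ) × ℕ) × ℕ) × ℕ => p.1.1.2)
          (by fun_prop))
        (DfS.lst (f := fun p => p.1.1.1.2) (by fun_prop))
        (DfH.Hc 1 (f := fun p => p.1.1.2) (by fun_prop)) (r := fun p => p.2) (by fun_prop))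
        (f := fun p => 4 * p.1.2) (by fun_prop)
  · apply Dfn.ex
    apply Dfn.and
    · exact Dfn.memp (f := fun p : (((Unit × List ℕ) × ℕ) × List ℕ) × ℕ => p.2) (by fun_prop) 0
    · apply Dfn.and
      · apply Dfn.prim; fun_prop
      · apply Dfn.all
        apply Dfn.all
        have hE : DfS (α := (((((Unit × List ℕ) × ℕ) × List ℕ) × ℕ) × ℕ) × ℕ)
            (fun S p ρ => {x | x ∈ p.1.1.1.2} ∩ S.Wc (ρ 2) p.1.2) :=
          DfS.inter (DfS.lst (by fun_prop)) (DfS.Wc 2 (by fun_prop))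
        have hE2 : Dfn (α := (((((Unit × List ℕ) × ℕ) × List ℕ) × ℕ) × ℕ) × ℕ)
            (fun S p ρ => ¬ MP_64713a_lc.dGe ({x | x ∈ p.1.1.1.2} ∩ S.Wc (ρ 2) p.1.2) p.2 p.1.1.2) :=
          (Dfn.dGe hE (f := fun p => p.2) (g := fun p => p.1.1.2) (by fun_prop) (by fun_prop)).not
        refine Dfn.imp ?_ hE2
        apply Dfn.prim; fun_prop

end dfs2

/-! ### names -/

abbrev Node := List (List ℕ × ℕ × ℕ)

def dig (t : Node) : List ℕ := (t.map (fun e => e.2.1)).reverse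

def stm (t : Node) : List ℕ := (t.head?.map (fun e => e.1)).getD []

def Str.Zn (S : Str) (w : S.ι) (t : Node) : Set ℕ := {x | S.mem (Encodable.encode (t, x)) w}

def PhiN (S : Str) (w : S.ι) : Prop :=
  (∀ x : ℕ, x ∈ S.Zn w []) ∧
  (∀ t : Node, ∀ e : List ℕ × ℕ × ℕ, ∀ x : ℕ, x ∈ S.Zn w (e :: t) → x ∈ S.Zn w t) ∧
  (∀ t : Node, S.ps (S.Zn w t) → ¬ Viol (dig t) ∧
    (∀ n : ℕ, ∀ i : ℕ, (dig t)[pE n 0]? = some i → (i = 1 ↔ n ∈ stm t)) ∧
    ∀ x : ℕ, x ∈ S.Zn w t → t.length ≤ x) ∧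
  (∀ t : Node, ∀ e : List ℕ × ℕ × ℕ, S.ps (S.Zn w (e :: t)) → ∀ z : ℕ, (z ∈ stm t → z ∈ e.1) ∧
    (z ∈ e.1 → z ∈ stm t ∨ z ∈ S.Zn w t)) ∧
  (∀ t : Node, ∀ σ : List ℕ, (∀ z : ℕ, (z ∈ stm t → z ∈ σ) ∧ (z ∈ σ → z ∈ stm t ∨ z ∈ S.Zn w t)) →
    ∀ y : S.ι, (∀ x : ℕ, S.mem x y → x ∈ S.Zn w t) → S.ps (S.set y) →
    ∃ e : List ℕ × ℕ × ℕ, (∀ z : ℕ, (z ∈ σ → z ∈ e.1) ∧ (z ∈ e.1 → z ∈ σ ∨ S.mem z y)) ∧
      S.ps (S.set y ∩ S.Zn w (e :: t)))

section dfs3

variable {α β : Type} [Primcodable α] [Primcodable β]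

theorem DfS.Zn (j : ℕ) {f : α → Node} (hf : Primrec f) : DfS (fun S a ρ => S.Zn (ρ j) (f a)) :=
  Dfn.memp (f := fun p : α × ℕ => Encodable.encode (f p.1, p.2)) (by fun_prop) j

theorem Dfn.mZn (j : ℕ) {f : α → Node} (hf : Primrec f) {g : α → ℕ} (hg : Primrec g) :
    Dfn (fun S a ρ => g a ∈ S.Zn (ρ j) (f a)) :=
  Dfn.memp (f := fun p : α => Encodable.encode (f p, g p)) (by fun_prop) j

@[fun_prop] theorem p_dig {f : α → Node} (hf : Primrec f) : Primrec (fun x : α => dig (f x)) := by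
  unfold dig
  fun_prop

@[fun_prop] theorem p_stm {f : α → Node} (hf : Primrec f) : Primrec (fun x : α => stm (f x)) := by
  unfold stm
  fun_prop

theorem dfn_phiN : Dfn (fun S (_ : Unit) ρ => PhiN S (ρ 0)) := by
  apply Dfn.and
  · apply Dfn.all
    apply Dfn.mZn <;> fun_prop
  apply Dfn.and
  · apply Dfn.all
    apply Dfn.all
    apply Dfn.all
    apply Dfn.imp
    · apply Dfn.mZn 0 (f := fun p : ((Unit × Node) × (List ℕ × ℕ × ℕ)) × ℕ => p.1.2 :: p.1.1.2)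
        (g := fun p => p.2) <;> fun_prop
    · apply Dfn.mZn 0 (f := fun p : ((Unit × Node) × (List ℕ × ℕ × ℕ)) × ℕ => p.1.1.2)
        (g := fun p => p.2) <;> fun_prop
  apply Dfn.and
  · apply Dfn.all
    apply Dfn.imp
    · exact Dfn.ps (DfS.Zn 0 (f := fun p : Unit × Node => p.2) (by fun_prop))
    · apply Dfn.and
      · apply Dfn.prim; fun_prop
      apply Dfn.and
      · apply Dfn.all
        apply Dfn.all
        apply Dfn.imp
        · apply Dfn.prim; fun_prop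
        · apply Dfn.prim; fun_prop
      · apply Dfn.all
        apply Dfn.imp
        · apply Dfn.mZn 0 (f := fun p : (Unit × Node) × ℕ => p.1.2)
            (g := fun p => p.2) <;> fun_prop
        · apply Dfn.prim; fun_prop
  apply Dfn.and
  · apply Dfn.all
    apply Dfn.all
    apply Dfn.imp
    · exact Dfn.ps (DfS.Zn 0 (f := fun p : (Unit × Node) × (List ℕ × ℕ × ℕ) => p.2 :: p.1.2)
        (by fun_prop))
    · apply Dfn.all
      apply Dfn.and
      · apply Dfn.imp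
        · apply Dfn.prim; fun_prop
        · apply Dfn.prim; fun_prop
      · apply Dfn.imp
        · apply Dfn.prim; fun_prop
        · apply Dfn.or
          · apply Dfn.prim; fun_prop
          · apply Dfn.mZn 0 (f := fun p : ((Unit × Node) × (List ℕ × ℕ × ℕ)) × ℕ => p.1.1.2)
              (g := fun p => p.2) <;> fun_prop
  · apply Dfn.all
    apply Dfn.all
    apply Dfn.imp
    · apply Dfn.all
      apply Dfn.and
      · apply Dfn.imp
        · apply Dfn.prim; fun_prop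
        · apply Dfn.prim; fun_prop
      · apply Dfn.imp
        · apply Dfn.prim; fun_prop
        · apply Dfn.or
          · apply Dfn.prim; fun_prop
          · apply Dfn.mZn 0 (f := fun p : ((Unit × Node) × (List ℕ)) × ℕ => p.1.1.2)
              (g := fun p => p.2) <;> fun_prop
    · apply Dfn.allX
      apply Dfn.imp
      · apply Dfn.all
        apply Dfn.imp
        · exact Dfn.memp (f := fun p : ((Unit × Node) × (List ℕ)) × ℕ => p.2) (by fun_prop) 0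
        · apply Dfn.mZn 1 (f := fun p : ((Unit × Node) × (List ℕ)) × ℕ => p.1.1.2)
            (g := fun p => p.2) <;> fun_prop
      · apply Dfn.imp
        · exact Dfn.ps (DfS.setv 0)
        · apply Dfn.ex
          apply Dfn.and
          · apply Dfn.all
            apply Dfn.and
            · apply Dfn.imp
              · apply Dfn.prim; fun_prop
              · apply Dfn.prim; fun_prop
            · apply Dfn.imp
              · apply Dfn.prim; fun_prop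
              · apply Dfn.or
                · apply Dfn.prim; fun_prop
                · exact Dfn.memp (f := fun p :
                    (((Unit × Node) × (List ℕ)) × (List ℕ × ℕ × ℕ)) × ℕ => p.2) (by fun_prop) 0
          · exact Dfn.ps ((DfS.setv 0).inter (DfS.Zn 1
              (f := fun p : ((Unit × Node) × (List ℕ)) × (List ℕ × ℕ × ℕ) => p.2 :: p.1.1.2)
              (by fun_prop)))

end dfs3

/-- the complete sentence -/
def Phi (S : Str) : Prop := PhiU S ∧ PhiC S ∧ ∃ w : S.ι, PhiN S w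

theorem dfn_phi : Dfn (fun S (_ : Unit) _ => Phi S) := by
  apply Dfn.and dfn_phiU
  apply Dfn.and dfn_phiC
  apply Dfn.exX
  exact dfn_phiN

end Pool.Agent.Work.MP_64713a_lc
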