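import Mathlib

set_option autoImplicit false

namespace Pool.Agent.Work.MP_64713a_lc

open Nat.Partrec (Code)

/-- Formulas of second order arithmetic with one predicate on sets. -/
inductive Fm where
  | mem : ℕ → Fm
  | U : ℕ → Fm
  | neg : Fm → Fm
  | and : Fm → Fm → Fm
  | exN : Fm → Fm
  | exS : Fm → Fm
  | sub : Code → Fm → Fm

structure Str where
  ι : Type
  mem : ℕ → ι → Prop
  U : ι → Prop

def cons {ι : Type} (X : ι) (ρ : ℕ → ι) : ℕ → ι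
  | 0 => X
  | n + 1 => ρ n

@[simp] theorem cons_zero {ι : Type} (X : ι) (ρ : ℕ → ι) : cons X ρ 0 = X := rfl
@[simp] theorem cons_succ {ι : Type} (X : ι) (ρ : ℕ → ι) (n : ℕ) : cons X ρ (n + 1) = ρ n := rfl

def Str.sem (S : Str) : Fm → ℕ → (ℕ → S.ι) → Prop
  | .mem j, a, ρ => S.mem a (ρ j)
  | .U j, _, ρ => S.U (ρ j)
  | .neg φ, a, ρ => ¬ S.sem φ a ρ
  | .and φ ψ, a, ρ => S.sem φ a ρ ∧ S.sem ψ a ρ
  | .exN φ, a, ρ => ∃ y, S.sem φ (Nat.pair a y) ρ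
  | .exS φ, a, ρ => ∃ X, S.sem φ a (cons X ρ)
  | .sub c φ, a, ρ => ∃ y ∈ c.eval a, S.sem φ y ρ

/-- Uniformly definable relations. -/
def Dfn {α : Type} [Primcodable α] (Φ : ∀ S : Str, α → (ℕ → S.ι) → Prop) : Prop :=
  ∃ φ : Fm, ∀ (S : Str) (a : α) (ρ : ℕ → S.ι), S.sem φ (Encodable.encode a) ρ ↔ Φ S a ρ

namespace Dfn

variable {α β : Type} [Primcodable α] [Primcodable β]

theorem congr {Φ Ψ : ∀ S : Str, α → (ℕ → S.ι) → Prop} (h : Dfn Φ)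
    (H : ∀ S a ρ, Φ S a ρ ↔ Ψ S a ρ) : Dfn Ψ := by
  obtain ⟨φ, hφ⟩ := h
  exact ⟨φ, fun S a ρ => (hφ S a ρ).trans (H S a ρ)⟩

theorem not {Φ : ∀ S : Str, α → (ℕ → S.ι) → Prop} (h : Dfn Φ) :
    Dfn (fun S a ρ => ¬ Φ S a ρ) := by
  obtain ⟨φ, hφ⟩ := h
  exact ⟨.neg φ, fun S a ρ => not_congr (hφ S a ρ)⟩

theorem and {Φ Ψ : ∀ S : Str, α → (ℕ → S.ι) → Prop} (h : Dfn Φ) (h' : Dfn Ψ) :
    Dfn (fun S a ρ => Φ S a ρ ∧ Ψ S a ρ) := by
  obtain ⟨φ, hφ⟩ := h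
  obtain ⟨ψ, hψ⟩ := h'
  exact ⟨.and φ ψ, fun S a ρ => and_congr (hφ S a ρ) (hψ S a ρ)⟩

theorem or {Φ Ψ : ∀ S : Str, α → (ℕ → S.ι) → Prop} (h : Dfn Φ) (h' : Dfn Ψ) :
    Dfn (fun S a ρ => Φ S a ρ ∨ Ψ S a ρ) :=
  (h.not.and h'.not).not.congr (fun S a ρ => by tauto)

theorem imp {Φ Ψ : ∀ S : Str, α → (ℕ → S.ι) → Prop} (h : Dfn Φ) (h' : Dfn Ψ) :
    Dfn (fun S a ρ => Φ S a ρ → Ψ S a ρ) :=
  (h.and h'.not).not.congr (fun S a ρ => by tauto)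

theorem iff {Φ Ψ : ∀ S : Str, α → (ℕ → S.ι) → Prop} (h : Dfn Φ) (h' : Dfn Ψ) :
    Dfn (fun S a ρ => (Φ S a ρ ↔ Ψ S a ρ)) :=
  ((h.imp h').and (h'.imp h)).congr (fun S a ρ => by tauto)

/-- substitution of a partial recursive function -/
theorem psub {Φ : ∀ S : Str, β → (ℕ → S.ι) → Prop} (h : Dfn Φ) {f : α →. β} (hf : Partrec f) :
    Dfn (fun S a ρ => ∃ b ∈ f a, Φ S b ρ) := by
  obtain ⟨φ, hφ⟩ := h
  have hf' : Nat.Partrec fun n => Part.bind (Encodable.decode (α := α) n)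
      fun a => (f a).map Encodable.encode := hf
  obtain ⟨c, hc⟩ := Code.exists_code.1 hf'
  refine ⟨.sub c φ, fun S a ρ => ?_⟩
  have : c.eval (Encodable.encode a) = (f a).map Encodable.encode := by
    rw [hc]; simp
  simp only [Str.sem, this, Part.mem_map_iff]
  constructor
  · rintro ⟨y, ⟨b, hb, rfl⟩, hy⟩
    exact ⟨b, hb, (hφ S b ρ).1 hy⟩
  · rintro ⟨b, hb, hy⟩
    exact ⟨_, ⟨b, hb, rfl⟩, (hφ S b ρ).2 hy⟩

theorem comp {Φ : ∀ S : Str, β → (ℕ → S.ι) → Prop} (h : Dfn Φ) {f : α → β} (hf : Computable f) :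
    Dfn (fun S a ρ => Φ S (f a) ρ) :=
  (h.psub (f := fun a => Part.some (f a)) hf).congr (fun S a ρ => by simp)

theorem mem {f : α → ℕ} (hf : Computable f) (j : ℕ) :
    Dfn (fun S a ρ => S.mem (f a) (ρ j)) :=
  comp (Φ := fun S a ρ => S.mem a (ρ j)) ⟨.mem j, fun _ _ _ => Iff.rfl⟩ hf

theorem U (j : ℕ) : Dfn (fun S (_ : α) ρ => S.U (ρ j)) :=
  ⟨.U j, fun _ _ _ => Iff.rfl⟩

theorem tru : Dfn (fun _ (_ : α) _ => True) :=
  ((U (α := α) 0).imp (U 0)).congr (fun S a ρ => by tauto)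

theorem re {p : α → Prop} (hp : REPred p) : Dfn (fun _ (a : α) _ => p a) := by
  refine (psub (tru (α := Unit)) (f := fun a => Part.assert (p a) fun _ => Part.some ()) hp).congr
    (fun S a ρ => ?_)
  simp

theorem pred {p : α → Prop} (hp : ComputablePred p) : Dfn (fun _ (a : α) _ => p a) :=
  re hp.to_re

theorem prim {p : α → Prop} (hp : PrimrecPred p) : Dfn (fun _ (a : α) _ => p a) := by
  obtain ⟨_, h⟩ := hp
  exact pred ⟨_, h.to_comp⟩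

theorem exN {Φ : ∀ S : Str, α × β → (ℕ → S.ι) → Prop} (h : Dfn Φ) :
    Dfn (fun S a ρ => ∃ b : β, Φ S (a, b) ρ) := by
  have h1 : Dfn (fun S (p : α × ℕ) ρ => ∃ q ∈ ((Part.ofOption ((Encodable.decode₂ β p.2).map
      (fun b => (p.1, b)))) : Part (α × β)), Φ S q ρ) := by
    apply h.psub
    apply Computable.ofOption
    apply Primrec.to_comp
    apply Primrec.option_map (Primrec.decode₂.comp Primrec.snd)
    exact (Primrec.pair (Primrec.fst.comp Primrec.fst) Primrec.snd)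
  obtain ⟨φ, hφ⟩ := h1
  refine ⟨.exN φ, fun S a ρ => ?_⟩
  simp only [Str.sem]
  constructor
  · rintro ⟨y, hy⟩
    obtain ⟨q, hq, hq'⟩ := (hφ S (a, y) ρ).1 hy
    simp only [Part.mem_ofOption, Option.mem_def, Option.map_eq_some_iff] at hq
    obtain ⟨b, -, rfl⟩ := hq
    exact ⟨b, hq'⟩
  · rintro ⟨b, hb⟩
    refine ⟨Encodable.encode b, (hφ S (a, Encodable.encode b) ρ).2 ⟨(a, b), ?_, hb⟩⟩
    simp

theorem allN {Φ : ∀ S : Str, α × β → (ℕ → S.ι) → Prop} (h : Dfn Φ) :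
    Dfn (fun S a ρ => ∀ b : β, Φ S (a, b) ρ) :=
  h.not.exN.not.congr (fun S a ρ => by push Not; rfl)

theorem exS {Φ : ∀ S : Str, α → (ℕ → S.ι) → Prop} (h : Dfn Φ) :
    Dfn (fun S a ρ => ∃ X, Φ S a (cons X ρ)) := by
  obtain ⟨φ, hφ⟩ := h
  exact ⟨.exS φ, fun S a ρ => exists_congr fun X => hφ S a _⟩

theorem allS {Φ : ∀ S : Str, α → (ℕ → S.ι) → Prop} (h : Dfn Φ) :
    Dfn (fun S a ρ => ∀ X, Φ S a (cons X ρ)) :=
  h.not.exS.not.congr (fun S a ρ => by push Not; rfl)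

end Dfn

/-- full comprehension for finite environments -/
def envOf {ι : Type} (d : ι) (l : List ι) : ℕ → ι := fun j => l.getD j d

theorem cons_envOf {ι : Type} (d : ι) (X : ι) (l : List ι) : cons X (envOf d l) = envOf d (X :: l) := by
  funext j
  cases j <;> simp [envOf]

def Str.Compr (S : Str) (d : S.ι) : Prop :=
  ∀ (φ : Fm) (l : List S.ι), ∃ i, ∀ n, S.mem n i ↔ S.sem φ n (envOf d l)

theorem Str.Compr.of {S : Str} {d : S.ι} (h : S.Compr d)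
    {Φ : ∀ S : Str, ℕ → (ℕ → S.ι) → Prop} (hΦ : Dfn Φ) (l : List S.ι) :
    ∃ i, ∀ n, S.mem n i ↔ Φ S n (envOf d l) := by
  obtain ⟨φ, hφ⟩ := hΦ
  obtain ⟨i, hi⟩ := h φ l
  exact ⟨i, fun n => (hi n).trans (hφ S n _)⟩

theorem Str.Compr.of_param {S : Str} {d : S.ι} (h : S.Compr d) {α : Type} [Primcodable α]
    {Φ : ∀ S : Str, ℕ × α → (ℕ → S.ι) → Prop} (hΦ : Dfn Φ) (a : α) (l : List S.ι) :
    ∃ i, ∀ n, S.mem n i ↔ Φ S (n, a) (envOf d l) :=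
  h.of (hΦ.comp (f := fun n => (n, a)) (Computable.pair Computable.id (Computable.const a))) l

end Pool.Agent.Work.MP_64713a_lc
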