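import Pool.Agent.Work.MP_64713a_lc.Sim

set_option autoImplicit false

namespace Pool.Agent.Work.MP_64713a_lc

open Filter Topology

/-- block boundaries -/
def gg : ℕ → ℕ
  | 0 => 0
  | m + 1 => (m + 2) * (gg m + 1)

theorem gg_succ (m : ℕ) : gg (m + 1) = (m + 2) * (gg m + 1) := rfl

theorem gg_lt_succ (m : ℕ) : gg m < gg (m + 1) := by
  rw [gg_succ]
  nlinarith [Nat.zero_le m, Nat.zero_le (gg m)]

theorem gg_strictMono : StrictMono gg := strictMono_nat_of_lt_succ gg_lt_succ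

theorem le_gg (m : ℕ) : m ≤ gg m := gg_strictMono.le_apply

@[fun_prop] theorem p_gg {α : Type} [Primcodable α] {f : α → ℕ} (hf : Primrec f) :
    Primrec (fun x : α => gg (f x)) := by
  have h : Primrec gg := by
    have h1 : Primrec (fun n : ℕ => (Nat.rec 0 (fun m r => (m + 2) * (r + 1)) n : ℕ)) := by
      have := Primrec.nat_rec₁ (α := ℕ) (f := fun m r => (m + 2) * (r + 1)) 0 (by
        unfold Primrec₂
        fun_prop)
      exact this
    refine h1.of_eq fun n => ?_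
    induction n with
    | zero => rfl
    | succ n ih => simp only [gg_succ]; rw [← ih]
  exact h.comp hf

def blk (m : ℕ) : Finset ℕ := Finset.Ico (gg m) (gg (m + 1))

theorem mem_blk {m x : ℕ} : x ∈ blk m ↔ gg m ≤ x ∧ x < gg (m + 1) := by
  simp [blk]

theorem card_blk (m : ℕ) : (blk m).card = gg (m + 1) - gg m := by simp [blk]

theorem card_blk_pos (m : ℕ) : 0 < (blk m).card := by
  rw [card_blk]; have := gg_lt_succ m; omega

theorem blk_unique {m m' x : ℕ} (h : x ∈ blk m) (h' : x ∈ blk m') : m = m' := by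
  rw [mem_blk] at h h'
  rcases lt_trichotomy m m' with h1 | h1 | h1
  · have := gg_strictMono.monotone (show m + 1 ≤ m' by omega); omega
  · exact h1
  · have := gg_strictMono.monotone (show m' + 1 ≤ m by omega); omega

theorem exists_blk (x : ℕ) : ∃ m, x ∈ blk m := by
  have h : ∃ m, x < gg (m + 1) := ⟨x, lt_of_lt_of_le (Nat.lt_succ_self x) (le_gg _)⟩
  classical
  refine ⟨Nat.find h, ?_⟩
  rw [mem_blk]
  refine ⟨?_, Nat.find_spec h⟩
  rcases hm : Nat.find h with _ | k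
  · simp [gg]
  · have := Nat.find_min h (m := k) (by omega)
    omega

/-- number of elements in a block -/
noncomputable def cn (E : Set ℕ) (m : ℕ) : ℕ := (E ∩ (blk m : Set ℕ)).ncard

theorem fin_blk (E : Set ℕ) (m : ℕ) : (E ∩ (blk m : Set ℕ)).Finite :=
  (blk m).finite_toSet.subset Set.inter_subset_right

theorem cn_mono {E F : Set ℕ} (h : E ⊆ F) (m : ℕ) : cn E m ≤ cn F m :=
  Set.ncard_le_ncard (Set.inter_subset_inter_left _ h) (fin_blk F m)

theorem cn_le (E : Set ℕ) (m : ℕ) : cn E m ≤ (blk m).card := by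
  have := Set.ncard_le_ncard (Set.inter_subset_right : E ∩ (blk m : Set ℕ) ⊆ _)
    (blk m).finite_toSet
  rwa [Set.ncard_coe_finset] at this

theorem cn_add (E F : Set ℕ) (m : ℕ) : cn (E ∩ F) m + cn (E \ F) m = cn E m := by
  have h := Set.ncard_inter_add_ncard_sdiff_eq_ncard (E ∩ (blk m : Set ℕ)) F (fin_blk E m)
  have e1 : E ∩ (blk m : Set ℕ) ∩ F = E ∩ F ∩ (blk m : Set ℕ) := by
    ext x; simp only [Set.mem_inter_iff]; tauto
  have e2 : (E ∩ (blk m : Set ℕ)) \ F = (E \ F) ∩ (blk m : Set ℕ) := by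
    ext x; simp only [Set.mem_inter_iff, Set.mem_sdiff]; tauto
  rw [e1, e2] at h
  exact h

theorem cn_congr {E F : Set ℕ} {m : ℕ} (h : ∀ x ∈ blk m, x ∈ E ↔ x ∈ F) : cn E m = cn F m := by
  unfold cn
  congr 1
  ext x
  simp only [Set.mem_inter_iff, Finset.mem_coe]
  constructor
  · rintro ⟨h1, h2⟩; exact ⟨(h x h2).1 h1, h2⟩
  · rintro ⟨h1, h2⟩; exact ⟨(h x h2).2 h1, h2⟩

/-- density at least `1 / b` in the block `m` -/
def dGe (E : Set ℕ) (b m : ℕ) : Prop := (blk m).card ≤ b * cn E m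

theorem dGe_mono {E F : Set ℕ} (h : E ⊆ F) {b m : ℕ} (hE : dGe E b m) : dGe F b m :=
  hE.trans (Nat.mul_le_mul_left _ (cn_mono h m))

theorem dGe_mono_b {E : Set ℕ} {b c m : ℕ} (h : b ≤ c) (hE : dGe E b m) : dGe E c m :=
  hE.trans (Nat.mul_le_mul_right _ h)

noncomputable def dd (E : Set ℕ) (m : ℕ) : ℝ := (cn E m : ℝ) / ((blk m).card : ℝ)

theorem card_blk_pos' (m : ℕ) : (0 : ℝ) < ((blk m).card : ℝ) := by exact_mod_cast card_blk_pos m

theorem dd_nonneg (E : Set ℕ) (m : ℕ) : 0 ≤ dd E m := by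
  unfold dd; positivity

theorem dd_le_one (E : Set ℕ) (m : ℕ) : dd E m ≤ 1 := by
  unfold dd
  rw [div_le_one (card_blk_pos' m)]
  exact_mod_cast cn_le E m

theorem dd_add (E F : Set ℕ) (m : ℕ) : dd (E ∩ F) m + dd (E \ F) m = dd E m := by
  unfold dd
  rw [← add_div]
  congr 1
  exact_mod_cast cn_add E F m

theorem dd_mono {E F : Set ℕ} (h : E ⊆ F) (m : ℕ) : dd E m ≤ dd F m := by
  unfold dd
  have := card_blk_pos' m
  gcongr
  exact cn_mono h m

theorem dGe_iff {E : Set ℕ} {b m : ℕ} (hb : 0 < b) : dGe E b m ↔ (1 : ℝ) / b ≤ dd E m := by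
  unfold dGe dd
  have h1 := card_blk_pos' m
  have h2 : (0 : ℝ) < b := by exact_mod_cast hb
  rw [div_le_div_iff₀ h2 h1, one_mul, mul_comm (cn E m : ℝ)]
  exact_mod_cast Iff.rfl

section mu

variable (W : Ultrafilter ℕ)

noncomputable def mu (E : Set ℕ) : ℝ := limUnder (W : Filter ℕ) (fun m => dd E m)

theorem tendsto_mu (E : Set ℕ) : Tendsto (fun m => dd E m) W (𝓝 (mu W E)) := by
  have h : ∃ x ∈ Set.Icc (0 : ℝ) 1, (W.map (fun m => dd E m) : Filter ℝ) ≤ 𝓝 x := by
    apply isCompact_Icc.ultrafilter_le_nhds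
    rw [Filter.le_principal_iff, Ultrafilter.coe_map, Filter.mem_map]
    exact Filter.univ_mem' fun m => ⟨dd_nonneg E m, dd_le_one E m⟩
  obtain ⟨x, -, hx⟩ := h
  exact tendsto_nhds_limUnder ⟨x, hx⟩

variable {W}

theorem mu_nonneg (E : Set ℕ) : 0 ≤ mu W E :=
  ge_of_tendsto' (tendsto_mu W E) (dd_nonneg E)

theorem mu_le_one (E : Set ℕ) : mu W E ≤ 1 :=
  le_of_tendsto' (tendsto_mu W E) (dd_le_one E)

theorem mu_add (E F : Set ℕ) : mu W (E ∩ F) + mu W (E \ F) = mu W E := by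
  refine tendsto_nhds_unique (((tendsto_mu W (E ∩ F)).add (tendsto_mu W (E \ F))).congr ?_)
    (tendsto_mu W E)
  intro m
  exact dd_add E F m

theorem mu_mono {E F : Set ℕ} (h : E ⊆ F) : mu W E ≤ mu W F :=
  le_of_tendsto_of_tendsto' (tendsto_mu W E) (tendsto_mu W F) (dd_mono h)

theorem mu_empty : mu W ∅ = 0 := by
  have h := mu_add (W := W) ∅ ∅
  simp only [Set.inter_self, Set.sdiff_self, Set.empty_sdiff] at h
  linarith

theorem mu_union_le (E F : Set ℕ) : mu W (E ∪ F) ≤ mu W E + mu W F := by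
  have h := mu_add (W := W) (E ∪ F) E
  have h1 : (E ∪ F) ∩ E = E := by
    ext x; simp only [Set.mem_inter_iff, Set.mem_union]; tauto
  have h2 : mu W ((E ∪ F) \ E) ≤ mu W F := mu_mono (by
    rintro x ⟨h1 | h1, h2⟩
    · exact absurd h1 h2
    · exact h1)
  rw [h1] at h
  linarith

theorem le_mu_of_dGe {E : Set ℕ} {b : ℕ} (hb : 0 < b) (h : {m | dGe E b m} ∈ W) :
    (1 : ℝ) / b ≤ mu W E := by
  refine ge_of_tendsto (tendsto_mu W E) ?_
  filter_upwards [h] with m hm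
  exact (dGe_iff hb).1 hm

theorem mu_le_of_not_dGe {E : Set ℕ} {b : ℕ} (hb : 0 < b) (h : {m | dGe E b m} ∉ W) :
    mu W E ≤ (1 : ℝ) / b := by
  refine le_of_tendsto (tendsto_mu W E) ?_
  have h' := Ultrafilter.compl_mem_iff_notMem.2 h
  filter_upwards [h'] with m hm
  have : ¬ dGe E b m := hm
  rw [dGe_iff hb] at this
  linarith

theorem dGe_of_lt_mu {E : Set ℕ} {b : ℕ} (hb : 0 < b) (h : (1 : ℝ) / b < mu W E) :
    {m | dGe E b m} ∈ W := by
  by_contra hc
  have := mu_le_of_not_dGe hb hc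
  linarith

theorem exists_dGe_of_pos {E : Set ℕ} (h : 0 < mu W E) : ∃ b : ℕ, 0 < b ∧ (1 : ℝ) / b < mu W E ∧
    {m | dGe E b m} ∈ W := by
  obtain ⟨b, hb⟩ := exists_nat_one_div_lt h
  have h1 : (1 : ℝ) / ((b + 1 : ℕ) : ℝ) < mu W E := by push_cast; exact hb
  exact ⟨b + 1, Nat.succ_pos b, h1, dGe_of_lt_mu (Nat.succ_pos b) h1⟩

theorem mu_eq_zero_of_finite (hW : (W : Filter ℕ) ≤ cofinite) {E : Set ℕ} (hE : E.Finite) :
    mu W E = 0 := by
  obtain ⟨k, hk⟩ := hE.bddAbove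
  refine tendsto_nhds_unique (tendsto_mu W E) (tendsto_const_nhds.congr' ?_)
  have h1 : {m : ℕ | k + 1 ≤ m} ∈ W := by
    apply hW
    rw [mem_cofinite]
    apply (Set.finite_lt_nat (k + 1)).subset
    intro x hx
    simp only [Set.mem_compl_iff, Set.mem_ofPred_eq, not_le] at hx
    exact hx
  filter_upwards [h1] with m hm
  have h2 : cn E m = 0 := by
    unfold cn
    rw [Set.ncard_eq_zero (fin_blk E m)]
    ext x
    simp only [Set.mem_inter_iff, Finset.mem_coe, Set.mem_empty_iff_false, iff_false, not_and]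
    intro hx hx'
    rw [mem_blk] at hx'
    have := hk hx
    have := le_gg m
    omega
  unfold dd
  rw [h2]; simp

theorem mu_diff_finite (hW : (W : Filter ℕ) ≤ cofinite) {E F : Set ℕ} (hF : F.Finite) :
    mu W (E \ F) = mu W E := by
  have h := mu_add (W := W) E F
  rw [mu_eq_zero_of_finite hW (hF.subset Set.inter_subset_right)] at h
  linarith

theorem infinite_of_mu_pos (hW : (W : Filter ℕ) ≤ cofinite) {E : Set ℕ} (h : 0 < mu W E) :
    E.Infinite := by
  intro hf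
  rw [mu_eq_zero_of_finite hW hf] at h
  exact lt_irrefl _ h

theorem mu_biUnion_eq_zero {ι : Type} (s : Finset ι) (E : ι → Set ℕ) (Z : Set ℕ)
    (h : ∀ i ∈ s, mu W (Z ∩ E i) = 0) : mu W (Z ∩ ⋃ i ∈ s, E i) = 0 := by
  classical
  induction s using Finset.induction_on with
  | empty => simp [mu_empty]
  | insert i s hi ih =>
    have h1 : Z ∩ (⋃ j ∈ insert i s, E j) = (Z ∩ E i) ∪ (Z ∩ ⋃ j ∈ s, E j) := by
      rw [Finset.set_biUnion_insert, Set.inter_union_distrib_left]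
    have h2 := ih fun j hj => h j (Finset.mem_insert_of_mem hj)
    have h3 := h i (Finset.mem_insert_self i s)
    have h4 := mu_union_le (W := W) (Z ∩ E i) (Z ∩ ⋃ j ∈ s, E j)
    have h5 := mu_nonneg (W := W) (Z ∩ (⋃ j ∈ insert i s, E j))
    rw [h1] at h5 ⊢
    linarith

end mu

end Pool.Agent.Work.MP_64713a_lc
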