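import Pool.Agent.Work.MP_64713a_lc.Coded

set_option autoImplicit false

namespace Pool.Agent.Work.MP_64713a_lc

open Nat.Partrec (Code)
open Nat.Partrec.Code (evaln)

def enc : Fm → ℕ
  | .mem j => 8 * j
  | .U j => 8 * j + 1
  | .neg φ => 8 * enc φ + 2
  | .and φ ψ => 8 * Nat.pair (enc φ) (enc ψ) + 3
  | .exN φ => 8 * enc φ + 4
  | .exS φ => 8 * enc φ + 5
  | .sub c φ => 8 * Nat.pair (Encodable.encode c) (enc φ) + 6

def strOf (f : ℕ → ℕ) : Str where
  ι := ℕ
  mem := fun n e => f (pE n e) = 1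
  U := fun e => f (pU e) = 1

section good

variable {f : ℕ → ℕ}

theorem Good.memC (hf : Good f) (K a p : ℕ) :
    f (pD (8 * K) a p) = 1 ↔ f (pE a (get K p)) = 1 := by
  have h := hf kMem (by simp [checks]) (inst K a p 0)
  simp only [Chk.viol, kMem, xK_inst, xa_inst, xp_inst] at h
  tauto

theorem Good.UC (hf : Good f) (K a p : ℕ) :
    f (pD (8 * K + 1) a p) = 1 ↔ f (pU (get K p)) = 1 := by
  have h := hf kU (by simp [checks]) (inst K a p 0)
  simp only [Chk.viol, kU, xK_inst, xa_inst, xp_inst] at h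
  tauto

theorem Good.negC (hf : Good f) (K a p : ℕ) :
    f (pD (8 * K + 2) a p) = 1 ↔ ¬ f (pD K a p) = 1 := by
  have h := hf kNeg (by simp [checks]) (inst K a p 0)
  simp only [Chk.viol, kNeg, xK_inst, xa_inst, xp_inst] at h
  tauto

theorem Good.andC (hf : Good f) (K L a p : ℕ) :
    f (pD (8 * Nat.pair K L + 3) a p) = 1 ↔ f (pD K a p) = 1 ∧ f (pD L a p) = 1 := by
  have h := hf kAnd (by simp [checks]) (inst (Nat.pair K L) a p 0)
  simp only [Chk.viol, kAnd, xK_inst, xa_inst, xp_inst, Nat.unpair_pair] at h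
  tauto

theorem Good.exNC (hf : Good f) (K a p : ℕ) :
    f (pD (8 * K + 4) a p) = 1 ↔ ∃ y, f (pD K (Nat.pair a y) p) = 1 := by
  constructor
  · intro h1
    have h := hf kExN (by simp [checks]) (inst K a p 0)
    simp only [Chk.viol, kExN, xK_inst, xa_inst, xp_inst] at h
    refine ⟨f (pW (8 * K + 4) a p), ?_⟩
    tauto
  · rintro ⟨y, hy⟩
    have h := hf kExN' (by simp [checks]) (inst K a p y)
    simp only [Chk.viol, kExN', xK_inst, xa_inst, xp_inst, xz_inst] at h
    tauto

theorem Good.exSC (hf : Good f) (K a p : ℕ) :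
    f (pD (8 * K + 5) a p) = 1 ↔ ∃ e, f (pD K a (Nat.pair e p)) = 1 := by
  constructor
  · intro h1
    have h := hf kExS (by simp [checks]) (inst K a p 0)
    simp only [Chk.viol, kExS, xK_inst, xa_inst, xp_inst] at h
    refine ⟨f (pW (8 * K + 5) a p), ?_⟩
    tauto
  · rintro ⟨y, hy⟩
    have h := hf kExS' (by simp [checks]) (inst K a p y)
    simp only [Chk.viol, kExS', xK_inst, xa_inst, xp_inst, xz_inst] at h
    tauto

theorem Good.subC (hf : Good f) (c L a p : ℕ) :
    f (pD (8 * Nat.pair c L + 6) a p) = 1 ↔ ∃ t y, ev t c a = some y ∧ f (pD L y p) = 1 := by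
  constructor
  · intro h1
    have h := hf kSub (by simp [checks]) (inst (Nat.pair c L) a p 0)
    simp only [Chk.viol, kSub, xK_inst, xa_inst, xp_inst, Nat.unpair_pair] at h
    refine ⟨f (pW (8 * Nat.pair c L + 6) a p), ?_⟩
    have h2 : ev (f (pW (8 * Nat.pair c L + 6) a p)) c a ≠ none := by tauto
    obtain ⟨y, hy⟩ := Option.ne_none_iff_exists'.1 h2
    refine ⟨y, hy, ?_⟩
    rw [hy] at h
    simp only [Option.getD_some] at h
    tauto
  · rintro ⟨t, y, ht, hy⟩
    have h := hf kSub' (by simp [checks]) (inst (Nat.pair c L) a p t)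
    simp only [Chk.viol, kSub', xK_inst, xa_inst, xp_inst, xz_inst, Nat.unpair_pair, ht,
      Option.getD_some] at h
    by_contra hc
    exact h ⟨by simp, hy, hc⟩

theorem Good.compC (hf : Good f) (K n p : ℕ) :
    f (pE n (f (pC K p))) = 1 ↔ f (pD K n p) = 1 := by
  have h := hf kComp (by simp [checks]) (inst K n p 0)
  simp only [Chk.viol, kComp, xK_inst, xa_inst, xp_inst] at h
  tauto

theorem Good.sem (hf : Good f) (φ : Fm) (a p : ℕ) :
    f (pD (enc φ) a p) = 1 ↔ (strOf f).sem φ a (fun j => get j p) := by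
  induction φ generalizing a p with
  | mem j => exact hf.memC j a p
  | U j => exact hf.UC j a p
  | neg φ ih => exact (hf.negC _ a p).trans (not_congr (ih a p))
  | and φ ψ ih ih' => exact (hf.andC _ _ a p).trans (and_congr (ih a p) (ih' a p))
  | exN φ ih => exact (hf.exNC _ a p).trans (exists_congr fun y => ih _ p)
  | exS φ ih =>
    refine (hf.exSC _ a p).trans (exists_congr fun e => (ih a _).trans ?_)
    rw [get_pair_eq]
    exact Iff.rfl
  | sub c φ ih =>
    refine (hf.subC _ _ a p).trans ?_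
    simp only [Str.sem, ih, ev, Denumerable.ofNat_encode]
    constructor
    · rintro ⟨t, y, ht, hy⟩
      exact ⟨y, Nat.Partrec.Code.evaln_complete.2 ⟨t, ht⟩, hy⟩
    · rintro ⟨y, hy, h⟩
      obtain ⟨t, ht⟩ := Nat.Partrec.Code.evaln_complete.1 hy
      exact ⟨t, y, ht, h⟩

theorem get_foldr (l : List ℕ) : (fun j => get j (l.foldr Nat.pair 0)) = envOf 0 l := by
  induction l with
  | nil => funext j; simp [envOf, get_zero]
  | cons e l ih =>
    rw [List.foldr_cons, get_pair_eq, ih, cons_envOf]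

theorem Good.compr (hf : Good f) : (strOf f).Compr (0 : ℕ) := by
  intro φ (l : List ℕ)
  refine ⟨f (pC (enc φ) (List.foldr Nat.pair 0 l)), fun n => ?_⟩
  refine (hf.compC _ n _).trans ((hf.sem φ n _).trans ?_)
  have h := get_foldr l
  exact iff_of_eq (congrArg (fun ρ => (strOf f).sem φ n ρ) h)

end good

/-! ### decoding of formulas -/

def dec (c : ℕ) : Fm :=
  if h0 : c % 8 = 0 then .mem (c / 8)
  else if h1 : c % 8 = 1 then .U (c / 8)
  else if h2 : c % 8 = 2 then .neg (dec (c / 8))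
  else if h3 : c % 8 = 3 then .and (dec (c / 8).unpair.1) (dec (c / 8).unpair.2)
  else if h4 : c % 8 = 4 then .exN (dec (c / 8))
  else if h5 : c % 8 = 5 then .exS (dec (c / 8))
  else if h6 : c % 8 = 6 then .sub (Denumerable.ofNat Code (c / 8).unpair.1) (dec (c / 8).unpair.2)
  else .mem 0
termination_by c
decreasing_by
  all_goals
    have a1 := Nat.unpair_left_le (c / 8)
    have a2 := Nat.unpair_right_le (c / 8)
    omega

theorem dec_mem (K : ℕ) : dec (8 * K) = .mem K := by
  have h1 : (8 * K) % 8 = 0 := by omega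
  have h2 : (8 * K) / 8 = K := by omega
  rw [dec]; simp [h1, h2]
theorem dec_U (K : ℕ) : dec (8 * K + 1) = .U K := by
  have h1 : (8 * K + 1) % 8 = 1 := by omega
  have h2 : (8 * K + 1) / 8 = K := by omega
  rw [dec]; simp [h1, h2]
theorem dec_neg (K : ℕ) : dec (8 * K + 2) = .neg (dec K) := by
  have h1 : (8 * K + 2) % 8 = 2 := by omega
  have h2 : (8 * K + 2) / 8 = K := by omega
  rw [dec]; simp [h1, h2]
theorem dec_and (K L : ℕ) : dec (8 * Nat.pair K L + 3) = .and (dec K) (dec L) := by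
  have h1 : (8 * Nat.pair K L + 3) % 8 = 3 := by omega
  have h2 : (8 * Nat.pair K L + 3) / 8 = Nat.pair K L := by omega
  rw [dec]; simp [h1, h2]
theorem dec_exN (K : ℕ) : dec (8 * K + 4) = .exN (dec K) := by
  have h1 : (8 * K + 4) % 8 = 4 := by omega
  have h2 : (8 * K + 4) / 8 = K := by omega
  rw [dec]; simp [h1, h2]
theorem dec_exS (K : ℕ) : dec (8 * K + 5) = .exS (dec K) := by
  have h1 : (8 * K + 5) % 8 = 5 := by omega
  have h2 : (8 * K + 5) / 8 = K := by omega
  rw [dec]; simp [h1, h2]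
theorem dec_sub (K L : ℕ) :
    dec (8 * Nat.pair K L + 6) = .sub (Denumerable.ofNat Code K) (dec L) := by
  have h1 : (8 * Nat.pair K L + 6) % 8 = 6 := by omega
  have h2 : (8 * Nat.pair K L + 6) / 8 = Nat.pair K L := by omega
  rw [dec]; simp [h1, h2]

theorem dec_enc (φ : Fm) : dec (enc φ) = φ := by
  induction φ with
  | mem j => exact dec_mem j
  | U j => exact dec_U j
  | neg φ ih => rw [enc, dec_neg, ih]
  | and φ ψ ih ih' => rw [enc, dec_and, ih, ih']
  | exN φ ih => rw [enc, dec_exN, ih]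
  | exS φ ih => rw [enc, dec_exS, ih]
  | sub c φ ih => rw [enc, dec_sub, ih, Denumerable.ofNat_encode]

/-! ### existence of good codes for any structure with comprehension -/

section exist

variable (S : Str) (d : S.ι)

open Classical in
noncomputable def wit1 (c a : ℕ) (ρ : ℕ → S.ι) : S.ι :=
  if h : ∃ X, S.sem (dec c) a (cons X ρ) then h.choose else d

open Classical in
noncomputable def wit2 (c : ℕ) (ρ : ℕ → S.ι) : S.ι :=
  if h : ∃ X, ∀ n, S.mem n X ↔ S.sem (dec c) n ρ then h.choose else d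

open Classical in
noncomputable def wit3 (K a : ℕ) (ρ : ℕ → S.ι) : ℕ :=
  if h : ∃ y, S.sem (dec K) (Nat.pair a y) ρ then h.choose else 0

open Classical in
noncomputable def wit4 (K a : ℕ) (ρ : ℕ → S.ι) : ℕ :=
  if h : ∃ t y, ev t K.unpair.1 a = some y ∧ S.sem (dec K.unpair.2) y ρ then h.choose else 0

theorem wit1_spec {S : Str} {d : S.ι} {c a : ℕ} {ρ : ℕ → S.ι}
    (h : ∃ X, S.sem (dec c) a (cons X ρ)) : S.sem (dec c) a (cons (wit1 S d c a ρ) ρ) := by
  rw [wit1, dif_pos h]; exact h.choose_spec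

theorem wit2_spec {S : Str} {d : S.ι} {c : ℕ} {ρ : ℕ → S.ι}
    (h : ∃ X, ∀ n, S.mem n X ↔ S.sem (dec c) n ρ) :
    ∀ n, S.mem n (wit2 S d c ρ) ↔ S.sem (dec c) n ρ := by
  rw [wit2, dif_pos h]; exact h.choose_spec

theorem wit3_spec {S : Str} {K a : ℕ} {ρ : ℕ → S.ι}
    (h : ∃ y, S.sem (dec K) (Nat.pair a y) ρ) : S.sem (dec K) (Nat.pair a (wit3 S K a ρ)) ρ := by
  rw [wit3, dif_pos h]; exact h.choose_spec

theorem wit4_spec {S : Str} {K a : ℕ} {ρ : ℕ → S.ι}
    (h : ∃ t y, ev t K.unpair.1 a = some y ∧ S.sem (dec K.unpair.2) y ρ) :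
    ∃ y, ev (wit4 S K a ρ) K.unpair.1 a = some y ∧ S.sem (dec K.unpair.2) y ρ := by
  rw [wit4, dif_pos h]; exact h.choose_spec

open Classical in
/-- the enumeration of a countable elementary substructure -/
noncomputable def enum (e : ℕ) : S.ι :=
  let ρ : ℕ → ℕ → S.ι := fun p j => if _ : get j p < e then enum (get j p) else d
  let c := e.unpair.2.unpair.1
  let a := e.unpair.2.unpair.2.unpair.1
  let p := e.unpair.2.unpair.2.unpair.2
  if e.unpair.1 = 1 then wit1 S d c a (ρ p)
  else if e.unpair.1 = 2 then wit2 S d c (ρ p)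
  else d
termination_by e

theorem enum_zero : enum S d 0 = d := by
  rw [enum]; simp

theorem get_lt_aux (t c a p j : ℕ) (ht : 0 < t) :
    get j p < Nat.pair t (Nat.pair c (Nat.pair a p)) := by
  have h1 := get_le j p
  have h2 := Nat.right_le_pair a p
  have h3 := Nat.right_le_pair c (Nat.pair a p)
  have h4 := Nat.right_le_pair 0 (Nat.pair c (Nat.pair a p))
  have h5 := Nat.pair_lt_pair_left (Nat.pair c (Nat.pair a p)) ht
  omega

theorem enum_one (c a p : ℕ) (h : ∃ X, S.sem (dec c) a (cons X (fun j => enum S d (get j p)))) :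
    S.sem (dec c) a (cons (enum S d (Nat.pair 1 (Nat.pair c (Nat.pair a p))))
      (fun j => enum S d (get j p))) := by
  have key : (fun j => if _ : get j p < Nat.pair 1 (Nat.pair c (Nat.pair a p)) then
      enum S d (get j p) else d) = fun j => enum S d (get j p) := by
    funext j
    rw [dif_pos (get_lt_aux 1 c a p j one_pos)]
  rw [enum]
  simp only [Nat.unpair_pair, if_true, key]
  exact wit1_spec h

theorem enum_two (c p : ℕ) (h : ∃ X, ∀ n, S.mem n X ↔ S.sem (dec c) n (fun j => enum S d (get j p))) :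
    ∀ n, S.mem n (enum S d (Nat.pair 2 (Nat.pair c (Nat.pair 0 p)))) ↔
      S.sem (dec c) n (fun j => enum S d (get j p)) := by
  have key : (fun j => if _ : get j p < Nat.pair 2 (Nat.pair c (Nat.pair 0 p)) then
      enum S d (get j p) else d) = fun j => enum S d (get j p) := by
    funext j
    rw [dif_pos (get_lt_aux 2 c 0 p j two_pos)]
  rw [enum]
  simp only [Nat.unpair_pair, if_true, key]
  rw [if_neg (by norm_num)]
  exact wit2_spec h

open Classical in
noncomputable def ind (P : Prop) : ℕ := if P then 1 else 0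

theorem ind_eq_one (P : Prop) : ind P = 1 ↔ P := by
  rw [ind]; split_ifs with h <;> simp [h]

/-- the coded structure -/
noncomputable def codeF (x : ℕ) : ℕ :=
  let t := x.unpair.1
  let c := x.unpair.2.unpair.1
  let a := x.unpair.2.unpair.2.unpair.1
  let p := x.unpair.2.unpair.2.unpair.2
  if t = 0 then ind (S.sem (dec c) a (fun j => enum S d (get j p)))
  else if t = 1 then
    (if c % 8 = 4 then wit3 S (c / 8) a (fun j => enum S d (get j p))
    else if c % 8 = 5 then Nat.pair 1 (Nat.pair (c / 8) (Nat.pair a p))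
    else wit4 S (c / 8) a (fun j => enum S d (get j p)))
  else if t = 2 then Nat.pair 2 (Nat.pair c (Nat.pair 0 x.unpair.2.unpair.2))
  else if t = 3 then ind (S.mem x.unpair.2.unpair.1 (enum S d x.unpair.2.unpair.2))
  else ind (S.U (enum S d x.unpair.2))

theorem codeF_D (c a p : ℕ) :
    codeF S d (pD c a p) = 1 ↔ S.sem (dec c) a (fun j => enum S d (get j p)) := by
  simp [codeF, pD, ind_eq_one]

theorem codeF_E (n e : ℕ) : codeF S d (pE n e) = 1 ↔ S.mem n (enum S d e) := by
  simp [codeF, pE, ind_eq_one]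

theorem codeF_U (e : ℕ) : codeF S d (pU e) = 1 ↔ S.U (enum S d e) := by
  simp [codeF, pU, ind_eq_one]

theorem codeF_C (c p : ℕ) : codeF S d (pC c p) = Nat.pair 2 (Nat.pair c (Nat.pair 0 p)) := by
  simp [codeF, pC]

theorem codeF_WN (K a p : ℕ)
    (h : ∃ y, S.sem (dec K) (Nat.pair a y) (fun j => enum S d (get j p))) :
    S.sem (dec K) (Nat.pair a (codeF S d (pW (8 * K + 4) a p))) (fun j => enum S d (get j p)) := by
  have h1 : (8 * K + 4) % 8 = 4 := by omega
  have h2 : (8 * K + 4) / 8 = K := by omega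
  have : codeF S d (pW (8 * K + 4) a p) = wit3 S K a (fun j => enum S d (get j p)) := by
    simp [codeF, pW, h1, h2]
  rw [this]
  exact wit3_spec h

theorem codeF_WS (K a p : ℕ) :
    codeF S d (pW (8 * K + 5) a p) = Nat.pair 1 (Nat.pair K (Nat.pair a p)) := by
  have h1 : (8 * K + 5) % 8 = 5 := by omega
  have h2 : (8 * K + 5) / 8 = K := by omega
  simp [codeF, pW, h1, h2]

theorem codeF_WT (K a p : ℕ) (h : ∃ t y, ev t K.unpair.1 a = some y ∧
        S.sem (dec K.unpair.2) y (fun j => enum S d (get j p))) :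
    ∃ y, ev (codeF S d (pW (8 * K + 6) a p)) K.unpair.1 a = some y ∧
        S.sem (dec K.unpair.2) y (fun j => enum S d (get j p)) := by
  have h1 : (8 * K + 6) % 8 = 6 := by omega
  have h2 : (8 * K + 6) / 8 = K := by omega
  have : codeF S d (pW (8 * K + 6) a p) = wit4 S K a (fun j => enum S d (get j p)) := by
    simp [codeF, pW, h1, h2]
  rw [this]
  exact wit4_spec h

theorem env_pair (e p : ℕ) : (fun j => enum S d (get j (Nat.pair e p))) =
    cons (enum S d e) (fun j => enum S d (get j p)) := by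
  funext j
  cases j <;> simp

theorem good_codeF (hS : ∀ (φ : Fm) (ρ : ℕ → S.ι), ∃ X, ∀ n, S.mem n X ↔ S.sem φ n ρ) :
    Good (codeF S d) := by
  intro C hC x
  simp only [checks, List.mem_cons, List.not_mem_nil, or_false] at hC
  rcases hC with rfl | rfl | rfl | rfl | rfl | rfl | rfl | rfl | rfl | rfl | rfl
  · simp only [Chk.viol, kMem, codeF_D, codeF_E, dec_mem, Str.sem, not_not]
  · simp only [Chk.viol, kU, codeF_D, codeF_U, dec_U, Str.sem, not_not]
  · simp only [Chk.viol, kNeg, codeF_D, dec_neg, Str.sem]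
    tauto
  · simp only [Chk.viol, kAnd, codeF_D]
    have := dec_and (xK x).unpair.1 (xK x).unpair.2
    rw [Nat.pair_unpair] at this
    rw [this]
    simp only [Str.sem, not_not]
  · simp only [Chk.viol, kExN, codeF_D, dec_exN, Str.sem]
    rintro ⟨h1, h2⟩
    exact h2 (codeF_WN S d _ _ _ h1)
  · simp only [Chk.viol, kExN', codeF_D, dec_exN, Str.sem]
    rintro ⟨h1, h2⟩
    exact h2 ⟨_, h1⟩
  · simp only [Chk.viol, kExS, codeF_D, dec_exS, Str.sem, codeF_WS, env_pair]
    rintro ⟨h1, h2⟩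
    exact h2 (enum_one S d _ _ _ h1)
  · simp only [Chk.viol, kExS', codeF_D, dec_exS, Str.sem, env_pair]
    rintro ⟨h1, h2⟩
    exact h2 ⟨_, h1⟩
  · simp only [Chk.viol, kSub, codeF_D]
    have hd := dec_sub (xK x).unpair.1 (xK x).unpair.2
    rw [Nat.pair_unpair] at hd
    rw [hd]
    simp only [Str.sem]
    rintro ⟨⟨y, hy, hy'⟩, h2⟩
    obtain ⟨t, ht⟩ := Nat.Partrec.Code.evaln_complete.1 hy
    obtain ⟨y', h3, h4⟩ := codeF_WT S d (xK x) (xa x) (xp x) ⟨t, y, ht, hy'⟩
    rcases h2 with h2 | h2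
    · rw [h2] at h3; exact absurd h3 (by simp)
    · apply h2
      rw [h3]
      exact h4
  · simp only [Chk.viol, kSub', codeF_D]
    have hd := dec_sub (xK x).unpair.1 (xK x).unpair.2
    rw [Nat.pair_unpair] at hd
    rw [hd]
    simp only [Str.sem]
    rintro ⟨h1, h2, h3⟩
    obtain ⟨y, hy⟩ := Option.ne_none_iff_exists'.1 h1
    rw [hy] at h2
    exact h3 ⟨y, Nat.Partrec.Code.evaln_complete.2 ⟨_, hy⟩, h2⟩
  · simp only [Chk.viol, kComp, codeF_D, codeF_E, codeF_C, not_not]
    exact enum_two S d _ _ (hS _ _) _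

end exist

/-- Loewenheim-Skolem, in coded form. -/
theorem exists_coded (S : Str) (d : S.ι)
    (hS : ∀ (φ : Fm) (ρ : ℕ → S.ι), ∃ X, ∀ n, S.mem n X ↔ S.sem φ n ρ) :
    ∃ f : ℕ → ℕ, Good f ∧ (∀ n, f (pE n 0) = 1 ↔ S.mem n d) ∧
      ∀ φ : Fm, (strOf f).sem φ 0 (fun _ => (0 : ℕ)) ↔ S.sem φ 0 (fun _ => d) := by
  refine ⟨codeF S d, good_codeF S d hS, fun n => ?_, fun φ => ?_⟩
  · rw [codeF_E, enum_zero]
  · have h := (good_codeF S d hS).sem φ 0 0
    have e1 : (fun j => get j 0) = fun _ => (0 : ℕ) := by funext j; exact get_zero j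
    rw [e1] at h
    refine h.symm.trans ?_
    rw [codeF_D, dec_enc]
    have e2 : (fun j => enum S d (get j 0)) = fun _ => d := by
      funext j; rw [get_zero, enum_zero]
    rw [e2]

end Pool.Agent.Work.MP_64713a_lc
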