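import Pool.Agent.Work.MP_64713a_lc.Comp

set_option autoImplicit false

namespace Pool.Agent.Work.MP_64713a_lc

open Filter Topology

section exhaust

variable {U : Ultrafilter ℕ}

theorem mu_sUnion_pos {F : Set (Set ℕ)} (hF : F.Finite) {Z : Set ℕ} (h : ∀ Y ∈ F, mu U (Z ∩ Y) = 0) :
    mu U (Z ∩ ⋃₀ F) = 0 := by
  have h1 := mu_biUnion_eq_zero (W := U) (ι := Set ℕ) hF.toFinset id Z (fun Y hY => h Y (by
    simpa using hY))
  have h2 : (⋃ i ∈ hF.toFinset, id i) = ⋃₀ F := by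
    ext x; simp
  rwa [h2] at h1

theorem exhaust (K : Set (Set ℕ)) : ∃ A : Set (Set ℕ), A ⊆ K ∧ A.Countable ∧
    ∀ Z ∈ K, 0 < mu U Z → ∃ Y ∈ A, 0 < mu U (Z ∩ Y) := by
  classical
  let T : Set ℝ := {c | ∃ F : Set (Set ℕ), F.Finite ∧ F ⊆ K ∧ c = mu U (⋃₀ F)}
  have hT1 : T.Nonempty := ⟨_, ∅, Set.finite_empty, Set.empty_subset _, rfl⟩
  have hT2 : BddAbove T := ⟨1, by
    rintro c ⟨F, -, -, rfl⟩; exact mu_le_one _⟩
  have h1 : ∀ n : ℕ, ∃ F : Set (Set ℕ), F.Finite ∧ F ⊆ K ∧ sSup T - 1 / ((n : ℝ) + 1) < mu U (⋃₀ F) := by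
    intro n
    have h2 : sSup T - 1 / ((n : ℝ) + 1) < sSup T := by
      have : (0 : ℝ) < 1 / ((n : ℝ) + 1) := by positivity
      linarith
    obtain ⟨c, ⟨F, h3, h4, rfl⟩, h5⟩ := exists_lt_of_lt_csSup hT1 h2
    exact ⟨F, h3, h4, h5⟩
  choose F hF1 hF2 hF3 using h1
  refine ⟨⋃ n, F n, Set.iUnion_subset hF2, Set.countable_iUnion fun n => (hF1 n).countable, ?_⟩
  intro Z hZ hpos
  by_contra hcon
  push Not at hcon
  have h0 : ∀ n, mu U (Z ∩ ⋃₀ (F n)) = 0 := by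
    intro n
    apply mu_sUnion_pos (hF1 n)
    intro Y hY
    exact le_antisymm (hcon Y (Set.mem_iUnion.2 ⟨n, hY⟩)) (mu_nonneg _)
  obtain ⟨n, hn⟩ := exists_nat_one_div_lt hpos
  have h2 : mu U (⋃₀ (insert Z (F n))) ≤ sSup T :=
    le_csSup hT2 ⟨insert Z (F n), (hF1 n).insert Z, Set.insert_subset hZ (hF2 n), rfl⟩
  have h3 := mu_add (W := U) (⋃₀ (insert Z (F n))) (⋃₀ (F n))
  have h4 : ⋃₀ (insert Z (F n)) ∩ ⋃₀ (F n) = ⋃₀ (F n) := by
    rw [Set.sUnion_insert]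
    ext x; simp only [Set.mem_inter_iff, Set.mem_union]; tauto
  have h5 : ⋃₀ (insert Z (F n)) \ ⋃₀ (F n) = Z \ ⋃₀ (F n) := by
    rw [Set.sUnion_insert]
    ext x; simp only [Set.mem_sdiff, Set.mem_union]; tauto
  have h6 := mu_add (W := U) Z (⋃₀ (F n))
  rw [h4, h5] at h3
  rw [h0 n] at h6
  have h7 := hF3 n
  linarith

end exhaust

/-! ### the forcing -/

variable (U : Ultrafilter ℕ)

theorem mu_univ (U : Ultrafilter ℕ) : mu U Set.univ = 1 := by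
  refine tendsto_nhds_unique (tendsto_mu U Set.univ) (tendsto_const_nhds.congr ?_)
  intro m
  unfold dd cn
  rw [Set.univ_inter, Set.ncard_coe_finset, div_self (card_blk_pos' m).ne']

def Cnd : Type := {p : List ℕ × Set ℕ // 0 < mu U p.2}

instance : Nonempty (Cnd U) := ⟨⟨([], Set.univ), by rw [mu_univ]; norm_num⟩⟩

variable {U}

namespace Cnd

/-- `q` is stronger than `p` -/
def le (q p : Cnd U) : Prop :=
  (∀ z, z ∈ p.1.1 → z ∈ q.1.1) ∧ (∀ z, z ∈ q.1.1 → z ∈ p.1.1 ∨ z ∈ p.1.2) ∧ q.1.2 ⊆ p.1.2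

theorem le_refl (p : Cnd U) : le p p := ⟨fun _ h => h, fun _ h => Or.inl h, subset_rfl⟩

theorem le_trans {p q r : Cnd U} (h : le p q) (h' : le q r) : le p r := by
  refine ⟨fun z hz => h.1 z (h'.1 z hz), fun z hz => ?_, h.2.2.trans h'.2.2⟩
  rcases h.2.1 z hz with h1 | h1
  · exact h'.2.1 z h1
  · exact Or.inr (h'.2.2 h1)

structure OD (D : Set (Cnd U)) : Prop where
  op : ∀ {q r : Cnd U}, q ∈ D → le r q → r ∈ D
  ds : ∀ q : Cnd U, ∃ r, le r q ∧ r ∈ D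

/-- descending sequences -/
def Desc (p : ℕ → Cnd U) : Prop := ∀ n, le (p (n + 1)) (p n)

theorem Desc.le {p : ℕ → Cnd U} (h : Desc p) {m n : ℕ} (hmn : m ≤ n) : le (p n) (p m) := by
  induction n, hmn using Nat.le_induction with
  | base => exact le_refl _
  | succ n _ ih => exact le_trans (h n) ih

def lim (p : ℕ → Cnd U) : Set ℕ := {z | ∃ n, z ∈ (p n).1.1}

def OK (q : Cnd U) (u : List ℕ) : Prop :=
  ∀ D : Set (Set (Cnd U)), D.Countable → (∀ d ∈ D, OD d) →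
    ∃ p : ℕ → Cnd U, Desc p ∧ le (p 0) q ∧ (∀ d ∈ D, ∃ k, p k ∈ d) ∧
      ∃ f : ℕ → ℕ, Good f ∧ (∀ n, f (pE n 0) = 1 ↔ n ∈ lim p) ∧ seg f u.length = u

def HOK (q : Cnd U) (u : List ℕ) : Prop := ∀ q', le q' q → OK q' u

theorem OK.mono {q q' : Cnd U} {u : List ℕ} (h : OK q' u) (hq : le q' q) : OK q u := by
  intro D h1 h2
  obtain ⟨p, h3, h4, h5⟩ := h D h1 h2
  exact ⟨p, h3, le_trans h4 hq, h5⟩

theorem HOK.mono {q q' : Cnd U} {u : List ℕ} (h : HOK q u) (hq : le q' q) : HOK q' u :=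
  fun r hr => h r (le_trans hr hq)

theorem HOK.ok {q : Cnd U} {u : List ℕ} (h : HOK q u) : OK q u := h q (le_refl q)

theorem exists_code (B : Set ℕ) : ∃ f : ℕ → ℕ, Good f ∧ ∀ n, f (pE n 0) = 1 ↔ n ∈ B := by
  obtain ⟨f, hf, hf', -⟩ := exists_coded (Vst (hyperfilter ℕ)) B
    (fun φ ρ => ⟨{n | (Vst (hyperfilter ℕ)).sem φ n ρ}, fun n => Iff.rfl⟩)
  exact ⟨f, hf, hf'⟩

theorem ok_nil (q : Cnd U) : OK q [] := by
  intro D hD hD'
  obtain ⟨e, he⟩ := (hD.insert Set.univ).exists_eq_range (Set.insert_nonempty _ _)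
  have hod : ∀ n, OD (e n) := by
    intro n
    have : e n ∈ insert Set.univ D := by rw [he]; exact Set.mem_range_self n
    rcases Set.mem_insert_iff.1 this with h | h
    · rw [h]; exact ⟨fun _ _ => Set.mem_univ _, fun q => ⟨q, le_refl q, Set.mem_univ _⟩⟩
    · exact hD' _ h
  choose nx hnx1 hnx2 using fun n => (hod n).ds
  let p : ℕ → Cnd U := fun k => Nat.rec q (fun n r => nx n r) k
  have hp : ∀ n, p (n + 1) = nx n (p n) := fun n => rfl
  obtain ⟨f, hf, hf'⟩ := exists_code (lim p)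
  refine ⟨p, fun n => ?_, le_refl q, fun d hd => ?_, f, hf, hf', rfl⟩
  · rw [hp]; exact hnx1 _ _
  · have : d ∈ Set.range e := by rw [← he]; exact Set.mem_insert_of_mem _ hd
    obtain ⟨n, rfl⟩ := this
    exact ⟨n + 1, by rw [hp]; exact hnx2 _ _⟩

/-- countable chain condition, in the form needed -/
theorem ctble (D : Set (Cnd U)) : ∃ A : Set (Cnd U), A ⊆ D ∧ A.Countable ∧
    ∀ r ∈ D, ∃ a ∈ A, ∃ r', le r' r ∧ le r' a := by
  have h1 : ∀ s : List ℕ, ∃ A : Set (Cnd U), A ⊆ D ∧ A.Countable ∧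
      ∀ r ∈ D, r.1.1 = s → ∃ a ∈ A, ∃ r', le r' r ∧ le r' a := by
    intro s
    let g : Cnd U → Set ℕ := fun r => r.1.2
    obtain ⟨A, hA1, hA2, hA3⟩ := exhaust (U := U) {Z | ∃ r ∈ D, r.1.1 = s ∧ r.1.2 = Z}
    have h2 : ∀ Z ∈ A, ∃ r ∈ D, r.1.1 = s ∧ r.1.2 = Z := fun Z hZ => hA1 hZ
    choose! c hc1 hc2 hc3 using h2
    refine ⟨c '' A, ?_, hA2.image c, ?_⟩
    · rintro _ ⟨Z, hZ, rfl⟩
      exact hc1 Z hZ
    · intro r hr hs
      obtain ⟨Y, hY1, hY2⟩ := hA3 r.1.2 ⟨r, hr, hs, rfl⟩ r.2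
      refine ⟨c Y, Set.mem_image_of_mem c hY1, ⟨(s, r.1.2 ∩ Y), hY2⟩, ?_, ?_⟩
      · refine ⟨fun z hz => ?_, fun z hz => Or.inl ?_, Set.inter_subset_left⟩
        · rw [hs] at hz; exact hz
        · rw [hs]; exact hz
      · refine ⟨fun z hz => ?_, fun z hz => Or.inl ?_, ?_⟩
        · rw [hc2 Y hY1] at hz; exact hz
        · rw [hc2 Y hY1]; exact hz
        · rw [hc3 Y hY1]; exact Set.inter_subset_right
  choose A hA1 hA2 hA3 using h1
  refine ⟨⋃ s, A s, Set.iUnion_subset hA1, Set.countable_iUnion hA2, ?_⟩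
  intro r hr
  obtain ⟨a, ha, h⟩ := hA3 r.1.1 r hr rfl
  exact ⟨a, Set.mem_iUnion.2 ⟨_, ha⟩, h⟩

theorem HOK.step {q : Cnd U} {u : List ℕ} (h : HOK q u) {q' : Cnd U} (hq' : le q' q) :
    ∃ q'', le q'' q' ∧ ∃ j, HOK q'' (u ++ [j]) := by
  by_contra hcon
  push Not at hcon
  have hcon' : ∀ q'', le q'' q' → ∀ j, ∃ r, le r q'' ∧ ¬ OK r (u ++ [j]) := by
    intro q'' h1 j
    have := hcon q'' h1 j
    unfold HOK at this
    push Not at this
    exact this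
  choose A hA1 hA2 hA3 using fun j => ctble (U := U) {r | le r q' ∧ ¬ OK r (u ++ [j])}
  let E : ℕ → Set (Cnd U) := fun j => {r | (∀ r', le r' r → ¬ le r' q') ∨ ∃ a ∈ A j, le r a}
  have hE : ∀ j, OD (E j) := by
    intro j
    constructor
    · rintro q r (h1 | ⟨a, h1, h2⟩) h3
      · exact Or.inl fun r' hr' => h1 r' (le_trans hr' h3)
      · exact Or.inr ⟨a, h1, le_trans h3 h2⟩
    · intro q0
      by_cases h1 : ∀ r', le r' q0 → ¬ le r' q'
      · exact ⟨q0, le_refl _, Or.inl h1⟩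
      · push Not at h1
        obtain ⟨r1, h2, h3⟩ := h1
        obtain ⟨r2, h4, h5⟩ := hcon' r1 h3 j
        obtain ⟨a, ha, r3, h6, h7⟩ := hA3 j r2 ⟨le_trans h4 h3, h5⟩
        exact ⟨r3, le_trans h6 (le_trans h4 h2), Or.inr ⟨a, ha, h7⟩⟩
  have hbad : ∀ j, ∀ a ∈ A j, ∃ D : Set (Set (Cnd U)), D.Countable ∧ (∀ d ∈ D, OD d) ∧
      ¬ ∃ p : ℕ → Cnd U, Desc p ∧ le (p 0) a ∧ (∀ d ∈ D, ∃ k, p k ∈ d) ∧
      ∃ f : ℕ → ℕ, Good f ∧ (∀ n, f (pE n 0) = 1 ↔ n ∈ lim p) ∧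
        seg f (u ++ [j]).length = u ++ [j] := by
    intro j a ha
    have h1 := (hA1 j ha).2
    unfold OK at h1
    push Not at h1
    obtain ⟨D, hD1, hD2, hD3⟩ := h1
    refine ⟨D, hD1, hD2, ?_⟩
    rintro ⟨p, hp1, hp2, hp3, f, hf1, hf2, hf3⟩
    exact hD3 p hp1 hp2 hp3 f hf1 hf2 hf3
  choose! DD hDD1 hDD2 hDD3 using hbad
  let D : Set (Set (Cnd U)) := Set.range E ∪ ⋃ j, ⋃ a ∈ A j, DD j a
  have hDc : D.Countable := by
    apply (Set.countable_range E).union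
    apply Set.countable_iUnion
    intro j
    exact (hA2 j).biUnion fun a ha => hDD1 j a ha
  have hDo : ∀ d ∈ D, OD d := by
    rintro d (⟨j, rfl⟩ | hd)
    · exact hE j
    · simp only [Set.mem_iUnion] at hd
      obtain ⟨j, a, ha, hd⟩ := hd
      exact hDD2 j a ha d hd
  obtain ⟨p, hp1, hp2, hp3, f, hf1, hf2, hf3⟩ := h q' hq' D hDc hDo
  obtain ⟨k, hk⟩ := hp3 (E (f u.length)) (Or.inl ⟨_, rfl⟩)
  rcases hk with hk | ⟨a, ha, hk⟩
  · exact hk _ (le_refl _) (le_trans (hp1.le (Nat.zero_le k)) hp2)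
  · apply hDD3 (f u.length) a ha
    refine ⟨fun n => p (k + n), fun n => hp1 (k + n), hk, ?_, f, hf1, ?_, ?_⟩
    · intro d hd
      obtain ⟨k', hk'⟩ := hp3 d (Or.inr (by
        simp only [Set.mem_iUnion]
        exact ⟨_, a, ha, hd⟩))
      refine ⟨k', ?_⟩
      have h1 := hDD2 _ a ha d hd
      exact h1.op hk' (hp1.le (by omega))
    · intro n
      rw [hf2]
      constructor
      · rintro ⟨m, hm⟩
        exact ⟨m, (hp1.le (show m ≤ k + m by omega)).1 n hm⟩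
      · rintro ⟨m, hm⟩
        exact ⟨_, hm⟩
    · rw [List.length_append, List.length_singleton, seg_succ, hf3]

end Cnd

/-! ### the tree -/

/-- candidates -/
def Kan (U : Ultrafilter ℕ) (t : Node) (Z : Set ℕ) (l : List ℕ) (i : ℕ) : Set (Set ℕ) :=
  {Y | (Y ⊆ Z ∧ (∀ x ∈ Y, t.length + 1 ≤ x) ∧ ∀ z, (z ∈ stm t → z ∈ l) ∧ (z ∈ l → z ∈ stm t ∨ z ∈ Z)) ∧
    ∃ h : 0 < mu U Y, Cnd.HOK (U := U) ⟨(l, Y), h⟩ (dig t ++ [i])}

theorem exists_fam (K : Set (Set ℕ)) : ∃ a : ℕ → Set ℕ, (∀ i, a i ∈ K ∨ a i = ∅) ∧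
    ∀ Z ∈ K, 0 < mu U Z → ∃ i, 0 < mu U (Z ∩ a i) := by
  obtain ⟨A, h1, h2, h3⟩ := exhaust (U := U) K
  obtain ⟨e, he⟩ := (h2.insert ∅).exists_eq_range (Set.insert_nonempty _ _)
  refine ⟨e, fun i => ?_, fun Z hZ hpos => ?_⟩
  · have : e i ∈ insert ∅ A := by rw [he]; exact Set.mem_range_self i
    rcases Set.mem_insert_iff.1 this with h | h
    · exact Or.inr h
    · exact Or.inl (h1 h)
  · obtain ⟨Y, hY, hY'⟩ := h3 Z hZ hpos
    have : Y ∈ Set.range e := by rw [← he]; exact Set.mem_insert_of_mem _ hY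
    obtain ⟨i, rfl⟩ := this
    exact ⟨i, hY'⟩

noncomputable def fam (U : Ultrafilter ℕ) (K : Set (Set ℕ)) : ℕ → Set ℕ := (exists_fam (U := U) K).choose

theorem fam_spec (K : Set (Set ℕ)) : (∀ i, fam U K i ∈ K ∨ fam U K i = ∅) ∧
    ∀ Z ∈ K, 0 < mu U Z → ∃ i, 0 < mu U (Z ∩ fam U K i) := (exists_fam (U := U) K).choose_spec

noncomputable def NN (U : Ultrafilter ℕ) : Node → Set ℕ
  | [] => Set.univ
  | e :: t => fam U (Kan U t (NN U t) e.1 e.2.1) e.2.2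

theorem NN_cons (e : List ℕ × ℕ × ℕ) (t : Node) :
    NN U (e :: t) ∈ Kan U t (NN U t) e.1 e.2.1 ∨ NN U (e :: t) = ∅ := by
  rw [NN]
  exact (fam_spec _).1 _

theorem NN_sub (e : List ℕ × ℕ × ℕ) (t : Node) : NN U (e :: t) ⊆ NN U t := by
  rcases NN_cons (U := U) e t with h | h
  · exact h.1.1
  · rw [h]; exact Set.empty_subset _

theorem NN_len (t : Node) : ∀ x ∈ NN U t, t.length ≤ x := by
  cases t with
  | nil => intro x _; exact Nat.zero_le x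
  | cons e t =>
    rcases NN_cons (U := U) e t with h | h
    · intro x hx
      exact h.1.2.1 x hx
    · rw [h]; intro x hx; exact absurd hx (Set.notMem_empty x)

theorem dig_cons (e : List ℕ × ℕ × ℕ) (t : Node) : dig (e :: t) = dig t ++ [e.2.1] := by
  simp [dig]

@[simp] theorem dig_length (t : Node) : (dig t).length = t.length := by simp [dig]

@[simp] theorem stm_cons (e : List ℕ × ℕ × ℕ) (t : Node) : stm (e :: t) = e.1 := by simp [stm]

theorem NN_hok (t : Node) (h : 0 < mu U (NN U t)) : Cnd.HOK (U := U) ⟨(stm t, NN U t), h⟩ (dig t) := by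
  cases t with
  | nil => intro q' _; exact Cnd.ok_nil q'
  | cons e t =>
    rcases NN_cons (U := U) e t with h1 | h1
    · obtain ⟨-, h2, h3⟩ := h1
      rw [dig_cons]
      exact h3
    · exfalso
      rw [h1, mu_empty] at h
      exact lt_irrefl _ h

theorem NN_digit (t : Node) (h : 0 < mu U (NN U t)) : ¬ Viol (dig t) ∧
    ∀ n i : ℕ, (dig t)[pE n 0]? = some i → (i = 1 ↔ n ∈ stm t) := by
  obtain ⟨p, hp1, hp2, -, f, hf1, hf2, hf3⟩ := (NN_hok t h).ok ∅ Set.countable_empty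
    (fun d hd => absurd hd (Set.notMem_empty d))
  constructor
  · rw [← hf3]
    exact (good_iff f).1 hf1 _
  · intro n i hi
    rw [← hf3, seg_getElem?_eq_some] at hi
    obtain ⟨h1, rfl⟩ := hi
    rw [hf2]
    rw [dig_length] at h1
    have h2 : n ≤ pE n 0 := by
      have a := Nat.left_le_pair n 0
      have b := Nat.right_le_pair 3 (Nat.pair n 0)
      unfold pE; omega
    constructor
    · rintro ⟨k, hk⟩
      have h3 := Cnd.le_trans (hp1.le (Nat.zero_le k)) hp2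
      rcases h3.2.1 n hk with h4 | h4
      · exact h4
      · have := NN_len t n h4
        omega
    · intro hn
      exact ⟨0, hp2.1 n hn⟩

theorem exists_name (hU : (U : Filter ℕ) ≤ cofinite) : ∃ w, PhiN (Vst U) w := by
  let w : Set ℕ := {n | ∃ (t : Node) (x : ℕ), Encodable.encode (t, x) = n ∧ x ∈ NN U t}
  have hw : ∀ t, (Vst U).Zn w t = NN U t := by
    intro t
    ext x
    constructor
    · rintro ⟨t', x', h1, h2⟩
      have := Encodable.encode_injective h1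
      obtain ⟨rfl, rfl⟩ := Prod.mk.inj this
      exact h2
    · intro hx
      exact ⟨t, x, rfl, hx⟩
  refine ⟨w, ?_⟩
  unfold PhiN
  simp only [hw]
  refine ⟨fun x => Set.mem_univ x, fun t e x hx => NN_sub e t hx, ?_, ?_, ?_⟩
  · intro t ht
    rw [Vst.ps_iff] at ht
    exact ⟨(NN_digit t ht).1, (NN_digit t ht).2, NN_len t⟩
  · intro t e ht z
    rw [Vst.ps_iff] at ht
    rcases NN_cons (U := U) e t with h | h
    · exact h.1.2.2 z
    · rw [h, mu_empty] at ht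
      exact absurd ht (lt_irrefl _)
  · intro t σ hσ y hy hps
    rw [Vst.ps_iff] at hps
    have hy' : (Vst U).set y ⊆ NN U t := hy
    have hpos : 0 < mu U (NN U t) := lt_of_lt_of_le hps (mu_mono hy')
    obtain ⟨⟨⟨l, Z⟩, hZ⟩, hle, i, hi⟩ := (NN_hok t hpos).step (q' := ⟨(σ, (Vst U).set y), hps⟩)
      ⟨fun z hz => (hσ z).1 hz, fun z hz => (hσ z).2 hz, hy'⟩
    obtain ⟨hle1, hle2, hle3⟩ := hle
    simp only at hle1 hle2 hle3
    have hfin : {x : ℕ | x < t.length + 1}.Finite := Set.finite_lt_nat _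
    have hZ' : 0 < mu U (Z \ {x : ℕ | x < t.length + 1}) := by
      rw [mu_diff_finite hU hfin]; exact hZ
    have hmem : Z \ {x : ℕ | x < t.length + 1} ∈ Kan U t (NN U t) l i := by
      refine ⟨⟨fun x hx => hy' (hle3 hx.1), fun x hx => ?_, fun z => ⟨fun h => ?_, fun h => ?_⟩⟩, hZ', ?_⟩
      · have := hx.2
        simp only [Set.mem_ofPred_eq, not_lt] at this
        exact this
      · exact hle1 z ((hσ z).1 h)
      · rcases hle2 z h with h | h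
        · exact (hσ z).2 h
        · exact Or.inr (hy' h)
      · exact hi.mono ⟨fun z hz => hz, fun z hz => Or.inl hz, Set.sdiff_subset⟩
    obtain ⟨j, hj⟩ := (fam_spec (U := U) (Kan U t (NN U t) l i)).2 _ hmem hZ'
    refine ⟨(l, i, j), fun z => ⟨fun h => hle1 z h, fun h => hle2 z h⟩, ?_⟩
    rw [Vst.ps_iff]
    refine lt_of_lt_of_le hj (mu_mono ?_)
    rintro x ⟨h1, h2⟩
    exact ⟨hle3 h1.1, h2⟩

theorem exists_model : ∃ S : Str, ∃ _ : S.ι, (∀ (φ : Fm) (ρ : ℕ → S.ι), ∃ X, ∀ n, S.mem n X ↔ S.sem φ n ρ) ∧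
    Phi S := by
  refine ⟨Vst (hyperfilter ℕ), (∅ : Set ℕ), fun φ ρ => ⟨{n | (Vst _).sem φ n ρ}, fun n => Iff.rfl⟩, ?_⟩
  have h : ((hyperfilter ℕ : Ultrafilter ℕ) : Filter ℕ) ≤ cofinite := hyperfilter_le_cofinite
  exact ⟨Vst.phiU h, Vst.phiC h, exists_name h⟩

end Pool.Agent.Work.MP_64713a_lc
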