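import Pool.Agent.Work.MP_64713a_lc.Model

set_option autoImplicit false

namespace Pool.Agent.Work.MP_64713a_lc

/-- The matrix form of being coanalytic relative to a set. -/
def Pi11 (Y B : Set ℕ) : Prop :=
  ∃ R : ℕ → List ℕ → List ℕ → Prop,
    ComputablePred (fun p : ℕ × List ℕ × List ℕ => R p.1 p.2.1 p.2.2) ∧
    ∀ n : ℕ, n ∈ Y ↔ ∀ f : ℕ → ℕ, ∃ m : ℕ,
      R n ((List.range m).map (B.indicator (fun _ => (1 : ℕ)))) ((List.range m).map f)

theorem seg_congr {f g : ℕ → ℕ} {m : ℕ} (h : ∀ i < m, f i = g i) : seg f m = seg g m := by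
  apply List.map_congr_left
  intro i hi
  exact h i (List.mem_range.1 hi)

theorem seg_eq_iff {f g : ℕ → ℕ} {m : ℕ} : seg f m = seg g m ↔ ∀ i < m, f i = g i := by
  constructor
  · intro h i hi
    have h1 : (seg f m)[i]? = some (f i) := seg_getElem?_eq_some.2 ⟨hi, rfl⟩
    rw [h] at h1
    exact (seg_getElem?_eq_some.1 h1).2.symm
  · exact seg_congr

theorem computablePred_of_primrecPred {α : Type} [Primcodable α] {p : α → Prop}
    (hp : PrimrecPred p) : ComputablePred p := by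
  obtain ⟨_, h⟩ := hp
  exact ⟨_, h.to_comp⟩

section omitting

variable (C : (ℕ → ℕ) → Prop) (V : List ℕ → Prop)

/-- either a member of the closed class omits `X`, or `X` is uniformly read off a basic open piece -/
theorem omit_or (hC : ∀ f, C f ↔ ∀ m, ¬ V (seg f m)) (f₀ : ℕ → ℕ) (h₀ : C f₀)
    (X : Set ℕ) (pos : ℕ → ℕ → ℕ) :
    (∃ f, C f ∧ ∀ e, ¬ ∀ n, n ∈ X ↔ f (pos n e) = 1) ∨
    (∃ (u : List ℕ) (e : ℕ), (∃ f, C f ∧ seg f u.length = u) ∧
      ∀ f, C f → seg f u.length = u → ∀ n, n ∈ X ↔ f (pos n e) = 1) := by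
  by_contra hcon
  push Not at hcon
  obtain ⟨h1, h2⟩ := hcon
  -- state: function in class together with a length
  have step : ∀ (p : {f // C f} × ℕ) (e : ℕ), ∃ q : {f // C f} × ℕ, p.2 < q.2 ∧
      (∀ i < p.2, q.1.1 i = p.1.1 i) ∧ ∃ n, pos n e < q.2 ∧ ¬ (n ∈ X ↔ q.1.1 (pos n e) = 1) := by
    rintro ⟨⟨f, hf⟩, k⟩ e
    obtain ⟨g, hg, hgu, n, hn⟩ := h2 (seg f k) e ⟨f, hf, by simp⟩
    refine ⟨⟨⟨g, hg⟩, k + pos n e + 1⟩, by simp only; omega, ?_, n, by simp only; omega, ?_⟩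
    · rw [seg_length, seg_eq_iff] at hgu
      exact hgu
    · simp only
      rcases hn with ⟨a, b⟩ | ⟨a, b⟩
      · intro h; exact b (h.1 a)
      · intro h; exact a (h.2 b)
  choose nx hnx1 hnx2 hnx3 using step
  let s : ℕ → {f // C f} × ℕ := fun k => Nat.rec (⟨f₀, h₀⟩, 0) (fun e p => nx p e) k
  have hs : ∀ k, s (k + 1) = nx (s k) k := fun k => rfl
  have hlen : ∀ k, (s k).2 < (s (k + 1)).2 := fun k => by rw [hs]; exact hnx1 _ _
  have hmono : StrictMono fun k => (s k).2 := strictMono_nat_of_lt_succ hlen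
  have hlen' : ∀ k, k ≤ (s k).2 := fun k => hmono.le_apply
  have hagree : ∀ k j, k ≤ j → ∀ i < (s k).2, (s j).1.1 i = (s k).1.1 i := by
    intro k j hkj
    induction j, hkj using Nat.le_induction with
    | base => intro i _; rfl
    | succ j hkj ih =>
      intro i hi
      rw [hs, hnx2 _ _ _ (lt_of_lt_of_le hi (hmono.monotone hkj)), ih i hi]
  let F : ℕ → ℕ := fun i => (s (i + 1)).1.1 i
  have hF : ∀ k, ∀ i < (s k).2, F i = (s k).1.1 i := by
    intro k i hi
    rcases le_total k (i + 1) with h | h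
    · exact hagree k (i + 1) h i hi
    · exact (hagree (i + 1) k h i (lt_of_lt_of_le (Nat.lt_succ_self i) (hlen' _))).symm
  have hCF : C F := by
    rw [hC]
    intro m
    have : seg F m = seg (s m).1.1 m := seg_congr fun i hi => hF m i (lt_of_lt_of_le hi (hlen' m))
    rw [this]
    exact (hC _).1 (s m).1.2 m
  obtain ⟨e, he⟩ := h1 F hCF
  obtain ⟨n, hn1, hn2⟩ := hnx3 (s e) e
  rw [← hs] at hn1 hn2
  apply hn2
  rw [← hF (e + 1) _ hn1]
  exact he n

end omitting

theorem pr_getElem_eq_one {α : Type} [Primcodable α] {l : α → List ℕ} {f : α → ℕ}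
    (hl : Primrec l) (hf : Primrec f) : PrimrecPred fun a => (l a)[f a]? = some 1 :=
  PrimrecRel.comp Primrec.eq (Primrec.list_getElem?.comp hl hf) (Primrec.const (some 1))

theorem pr_lt_length {α : Type} [Primcodable α] {l : α → List ℕ} {f : α → ℕ}
    (hl : Primrec l) (hf : Primrec f) : PrimrecPred fun a => f a < (l a).length :=
  PrimrecRel.comp Primrec.nat_lt hf (Primrec.list_length.comp hl)

/-- violation of the class -/
def Viol2 (p0 : ℕ) (v : List ℕ) : Prop :=
  Viol v ∨ (p0 < v.length ∧ ¬ v[p0]? = some 1)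

theorem viol2_iff (p0 : ℕ) (f : ℕ → ℕ) : (Good f ∧ f p0 = 1) ↔ ∀ m, ¬ Viol2 p0 (seg f m) := by
  rw [good_iff]
  constructor
  · rintro ⟨h1, h2⟩ m (h | ⟨h, h'⟩)
    · exact h1 m h
    · rw [seg_getElem?_eq_some] at h'
      rw [seg_length] at h
      exact h' ⟨h, h2⟩
  · intro h
    refine ⟨fun m hm => h m (Or.inl hm), ?_⟩
    by_contra hc
    apply h (p0 + 1)
    right
    rw [seg_length, seg_getElem?_eq_some]
    exact ⟨by omega, fun h' => hc h'.2⟩

theorem viol2_prim (p0 : ℕ) : PrimrecPred (Viol2 p0) :=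
  viol_prim.or ((pr_lt_length Primrec.id (Primrec.const p0)).and
    (pr_getElem_eq_one Primrec.id (Primrec.const p0)).not)

/-- the incompatible lists -/
def Incomp (u v : List ℕ) : Prop := u.length ≤ v.length ∧ ¬ v.take u.length = u

theorem incomp_seg (u : List ℕ) (f : ℕ → ℕ) (m : ℕ) (h : Incomp u (seg f m)) :
    ¬ seg f u.length = u := by
  obtain ⟨h1, h2⟩ := h
  intro h3
  apply h2
  rw [seg_length] at h1
  conv_rhs => rw [← h3]
  rw [seg, ← List.map_take, List.take_range, min_eq_left h1, seg]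

theorem incomp_seg' (u : List ℕ) (f : ℕ → ℕ) (h : ¬ seg f u.length = u) :
    Incomp u (seg f u.length) := by
  refine ⟨by simp, ?_⟩
  intro h2
  apply h
  conv_rhs => rw [← h2]
  rw [seg, ← List.map_take, List.take_range, min_self]

theorem incomp_prim (u : List ℕ) : PrimrecPred (Incomp u) := by
  have h1 : PrimrecPred fun v : List ℕ => u.length ≤ v.length :=
    PrimrecRel.comp Primrec.nat_le (Primrec.const _) Primrec.list_length
  have h2 : Primrec fun v : List ℕ => v.take u.length :=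
    Primrec.list_take.comp (Primrec.const u.length) Primrec.id
  exact h1.and (PrimrecRel.comp Primrec.eq h2 (Primrec.const u)).not

theorem pi11_of_read (p0 : ℕ) (u : List ℕ) (e : ℕ) (X : Set ℕ)
    (f₁ : ℕ → ℕ) (h₁ : Good f₁ ∧ f₁ p0 = 1) (h₁' : seg f₁ u.length = u)
    (H : ∀ f, (Good f ∧ f p0 = 1) → seg f u.length = u → ∀ n, n ∈ X ↔ f (pE n e) = 1) (B : Set ℕ) :
    Pi11 X B ∧ Pi11 Xᶜ B := by
  have hpr : Primrec fun p : ℕ × List ℕ × List ℕ => p.2.2 := Primrec.snd.comp Primrec.snd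
  have hpE : Primrec fun p : ℕ × List ℕ × List ℕ => pE p.1 e := pr_pE Primrec.fst (Primrec.const e)
  have key : ∀ f, ¬ ((Good f ∧ f p0 = 1) ∧ seg f u.length = u) →
      ∃ m, Viol2 p0 (seg f m) ∨ Incomp u (seg f m) := by
    intro f hf
    rw [not_and_or] at hf
    rcases hf with hf | hf
    · rw [viol2_iff] at hf
      push Not at hf
      obtain ⟨m, hm⟩ := hf
      exact ⟨m, Or.inl hm⟩
    · exact ⟨u.length, Or.inr (incomp_seg' u f hf)⟩
  have key2 : ∀ m, ¬ (Viol2 p0 (seg f₁ m) ∨ Incomp u (seg f₁ m)) := by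
    rintro m (h | h)
    · exact (viol2_iff p0 f₁).1 h₁ m h
    · exact incomp_seg u f₁ m h h₁'
  constructor
  · refine ⟨fun n _ v => (Viol2 p0 v ∨ Incomp u v) ∨ v[pE n e]? = some 1, ?_, ?_⟩
    · apply computablePred_of_primrecPred
      exact (((viol2_prim p0).comp hpr).or ((incomp_prim u).comp hpr)).or
        (pr_getElem_eq_one hpr hpE)
    · intro n
      constructor
      · intro hn f
        by_cases hf : (Good f ∧ f p0 = 1) ∧ seg f u.length = u
        · refine ⟨pE n e + 1, Or.inr ?_⟩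
          exact seg_getElem?_eq_some.2 ⟨by omega, (H f hf.1 hf.2 n).1 hn⟩
        · obtain ⟨m, hm⟩ := key f hf
          exact ⟨m, Or.inl hm⟩
      · intro h
        obtain ⟨m, hm⟩ := h f₁
        rcases hm with hm | hm
        · exact absurd hm (key2 m)
        · exact (H f₁ h₁ h₁' n).2 (seg_getElem?_eq_some.1 hm).2
  · refine ⟨fun n _ v => (Viol2 p0 v ∨ Incomp u v) ∨ (pE n e < v.length ∧ ¬ v[pE n e]? = some 1),
      ?_, ?_⟩
    · apply computablePred_of_primrecPred
      exact (((viol2_prim p0).comp hpr).or ((incomp_prim u).comp hpr)).or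
        ((pr_lt_length hpr hpE).and (pr_getElem_eq_one hpr hpE).not)
    · intro n
      constructor
      · intro hn f
        by_cases hf : (Good f ∧ f p0 = 1) ∧ seg f u.length = u
        · refine ⟨pE n e + 1, Or.inr ⟨?_, ?_⟩⟩
          · change _ < (seg f _).length
            rw [seg_length]; omega
          · intro h'
            have := (seg_getElem?_eq_some.1 h').2
            exact hn ((H f hf.1 hf.2 n).2 this)
        · obtain ⟨m, hm⟩ := key f hf
          exact ⟨m, Or.inl hm⟩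
      · intro h
        obtain ⟨m, hm⟩ := h f₁
        rcases hm with hm | ⟨hm, hm'⟩
        · exact absurd hm (key2 m)
        · intro hX
          apply hm'
          change pE n e < (seg f₁ m).length at hm
          rw [seg_length] at hm
          exact seg_getElem?_eq_some.2 ⟨hm, (H f₁ h₁ h₁' n).1 hX⟩

/-- The omitting theorem. -/
theorem omitting (X : Set ℕ) (hX : ¬ (Pi11 X ∅ ∧ Pi11 Xᶜ ∅)) (S : Str) (d : S.ι)
    (hS : ∀ (φ : Fm) (ρ : ℕ → S.ι), ∃ X, ∀ n, S.mem n X ↔ S.sem φ n ρ)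
    (φ : Fm) (hφ : S.sem φ 0 (fun _ => d)) :
    ∃ f, Good f ∧ (strOf f).sem φ 0 (fun _ => (0 : ℕ)) ∧
      ∀ e, ¬ ∀ n, n ∈ X ↔ (strOf f).mem n e := by
  obtain ⟨f₀, hf₀, -, hf₀'⟩ := exists_coded S d hS
  have hsem : ∀ f, Good f → (f (pD (enc φ) 0 0) = 1 ↔ (strOf f).sem φ 0 (fun _ => (0 : ℕ))) := by
    intro f hf
    have h := hf.sem φ 0 0
    have e1 : (fun j => get j 0) = fun _ => (0 : ℕ) := by funext j; exact get_zero j
    rw [e1] at h
    exact h
  rcases omit_or (fun f => Good f ∧ f (pD (enc φ) 0 0) = 1) (Viol2 (pD (enc φ) 0 0))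
    (viol2_iff _) f₀ ⟨hf₀, (hsem f₀ hf₀).2 ((hf₀' φ).2 hφ)⟩ X pE with
    ⟨f, ⟨hf, hf1⟩, hf2⟩ | ⟨u, e, ⟨f₁, h₁, h₁'⟩, H⟩
  · exact ⟨f, hf, (hsem f hf).1 hf1, hf2⟩
  · exact absurd (pi11_of_read _ u e X f₁ h₁ h₁' H ∅) hX

end Pool.Agent.Work.MP_64713a_lc
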