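import Pool.Agent.Work.MP_64713a_lc.Calc

set_option autoImplicit false

namespace Pool.Agent.Work.MP_64713a_lc

/-- initial segment of the characteristic function -/
noncomputable def segB (B : Set ℕ) (m : ℕ) : List ℕ := (List.range m).map (B.indicator (fun _ => (1 : ℕ)))

theorem segB_eq_iff (B : Set ℕ) (m : ℕ) (β : List ℕ) :
    β = segB B m ↔ β.length = m ∧ ∀ i, i < m → ((β[i]? = some 1 ∧ i ∈ B) ∨ (β[i]? = some 0 ∧ i ∉ B)) := by
  constructor
  · rintro rfl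
    refine ⟨by simp [segB], fun i hi => ?_⟩
    by_cases h : i ∈ B
    · left; simp [segB, hi, h]
    · right; simp [segB, hi, h]
  · rintro ⟨h1, h2⟩
    apply List.ext_getElem?
    intro i
    by_cases hi : i < m
    · rcases h2 i hi with ⟨h3, h4⟩ | ⟨h3, h4⟩
      · rw [h3]; simp [segB, hi, h4]
      · rw [h3]; simp [segB, hi, h4]
    · have h5 : β.length ≤ i := by omega
      rw [List.getElem?_eq_none h5, List.getElem?_eq_none]
      simp [segB]; omega

def Tr (R : ℕ → List ℕ → List ℕ → Prop) (B : Set ℕ) (n : ℕ) (τ : List ℕ) : Prop :=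
  ∀ m, m ≤ τ.length → ¬ R n (segB B m) (τ.take m)

theorem tr_seg {R : ℕ → List ℕ → List ℕ → Prop} {B : Set ℕ} {n : ℕ} {f : ℕ → ℕ} :
    (∀ k, Tr R B n (seg f k)) ↔ ∀ m, ¬ R n (segB B m) (seg f m) := by
  constructor
  · intro h m
    have := h m m (by simp)
    rwa [List.take_of_length_le (by simp)] at this
  · intro h k m hm
    rw [seg_length] at hm
    have : (seg f k).take m = seg f m := by
      rw [seg, ← List.map_take, List.take_range, min_eq_left hm, seg]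
    rw [this]
    exact h m

def Str.set (S : Str) (i : S.ι) : Set ℕ := {n | S.mem n i}

theorem Dfn.segB {α : Type} [Primcodable α] {f : α → ℕ} {g : α → List ℕ} (hf : Primrec f)
    (hg : Primrec g) (j : ℕ) :
    Dfn (fun S a ρ => g a = segB (S.set (ρ j)) (f a)) := by
  refine Dfn.congr (Φ := fun S a ρ => (g a).length = f a ∧ ∀ i : ℕ, i < f a →
    (((g a)[i]? = some 1 ∧ S.mem i (ρ j)) ∨ ((g a)[i]? = some 0 ∧ ¬ S.mem i (ρ j)))) ?_
    (fun S a ρ => (segB_eq_iff _ _ _).symm)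
  apply Dfn.and
  · apply Dfn.prim; fun_prop
  · apply Dfn.all
    apply Dfn.imp
    · apply Dfn.prim; fun_prop
    · apply Dfn.or
      · apply Dfn.and
        · apply Dfn.prim; fun_prop
        · apply Dfn.memp; fun_prop
      · apply Dfn.and
        · apply Dfn.prim; fun_prop
        · apply Dfn.not
          apply Dfn.memp; fun_prop

theorem Dfn.tr {R : ℕ → List ℕ → List ℕ → Prop}
    (hR : ComputablePred (fun p : ℕ × List ℕ × List ℕ => R p.1 p.2.1 p.2.2))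
    {α : Type} [Primcodable α] {f : α → ℕ} {g : α → List ℕ} (hf : Primrec f)
    (hg : Primrec g) (j : ℕ) :
    Dfn (fun S a ρ => Tr R (S.set (ρ j)) (f a) (g a)) := by
  refine Dfn.congr (Φ := fun S a ρ => ∀ m : ℕ, m ≤ (g a).length → ¬ ∃ β : List ℕ,
    β = MP_64713a_lc.segB (S.set (ρ j)) m ∧ R (f a) β ((g a).take m)) ?_
    (fun S a ρ => by simp [Tr])
  apply Dfn.all
  apply Dfn.imp
  · apply Dfn.prim; fun_prop
  · apply Dfn.not
    apply Dfn.ex
    apply Dfn.and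
    · apply Dfn.segB (f := fun p : (α × ℕ) × List ℕ => p.1.2) (g := fun p => p.2) <;> fun_prop
    · refine Dfn.comp (β := ℕ × List ℕ × List ℕ) (Φ := fun S p ρ => R p.1 p.2.1 p.2.2)
        (f := fun p : (α × ℕ) × List ℕ => (f p.1.1, p.2, (g p.1.1).take p.1.2)) ?_ ?_
      · exact Dfn.pred hR
      · exact Primrec.to_comp (by fun_prop)

/-- simulations between trees -/
def IsSim (T T' : List ℕ → Prop) (Z : List ℕ → List ℕ → Prop) : Prop :=
  ∀ u v, Z u v → ∀ a, T (u ++ [a]) → ∃ b, T' (v ++ [b]) ∧ Z (u ++ [a]) (v ++ [b])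

theorem seg_succ (f : ℕ → ℕ) (k : ℕ) : seg f (k + 1) = seg f k ++ [f k] := by
  simp [seg, List.range_succ]

theorem IsSim.path {T T' : List ℕ → Prop} {Z : List ℕ → List ℕ → Prop} (h : IsSim T T' Z)
    (h0 : Z [] []) (f : ℕ → ℕ) (hf : ∀ k, T (seg f k)) :
    ∃ g : ℕ → ℕ, ∀ k, 0 < k → T' (seg g k) := by
  have step : ∀ (k : ℕ) (v : List ℕ), Z (seg f k) v →
      ∃ b, T' (v ++ [b]) ∧ Z (seg f (k + 1)) (v ++ [b]) := by
    intro k v hv
    have := h _ _ hv (f k)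
    rw [← seg_succ] at this
    exact this (hf _)
  choose nb hnb1 hnb2 using step
  let s : ∀ k : ℕ, {v : List ℕ // Z (seg f k) v} := fun k =>
    Nat.rec (motive := fun k => {v : List ℕ // Z (seg f k) v}) ⟨[], h0⟩
      (fun k p => ⟨p.1 ++ [nb k p.1 p.2], hnb2 k p.1 p.2⟩) k
  let g : ℕ → ℕ := fun k => nb k (s k).1 (s k).2
  have hs : ∀ k, (s (k + 1)).1 = (s k).1 ++ [g k] := fun k => rfl
  have hg : ∀ k, seg g k = (s k).1 := by
    intro k
    induction k with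
    | zero => rfl
    | succ k ih => rw [seg_succ, ih, hs]
  refine ⟨g, fun k hk => ?_⟩
  obtain ⟨k, rfl⟩ : ∃ k', k = k' + 1 := ⟨k - 1, by omega⟩
  rw [hg, hs]
  exact hnb1 _ _ _

/-- relation coded by an element of the structure -/
def Str.rl (S : Str) (i : S.ι) (u v : List ℕ) : Prop := S.mem (Encodable.encode (u, v)) i

theorem Dfn.rl {α : Type} [Primcodable α] {f g : α → List ℕ} (hf : Primrec f)
    (hg : Primrec g) (j : ℕ) : Dfn (fun S a ρ => S.rl (ρ j) (f a) (g a)) := by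
  apply Dfn.memp (f := fun a => Encodable.encode (f a, g a)); fun_prop

section simul

variable {R R' : ℕ → List ℕ → List ℕ → Prop}

/-- the union of all coded simulations -/
def CC (R R' : ℕ → List ℕ → List ℕ → Prop) (S : Str) (B : Set ℕ) (n : ℕ) (u v : List ℕ) : Prop :=
  ∃ z : S.ι, IsSim (Tr R B n) (Tr R' B n) (S.rl z) ∧ S.rl z u v

theorem Dfn.isSim (hR : ComputablePred (fun p : ℕ × List ℕ × List ℕ => R p.1 p.2.1 p.2.2))
    (hR' : ComputablePred (fun p : ℕ × List ℕ × List ℕ => R' p.1 p.2.1 p.2.2))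
    {α : Type} [Primcodable α] {f : α → ℕ} (hf : Primrec f) (i j : ℕ) :
    Dfn (fun S a ρ => IsSim (Tr R (S.set (ρ j)) (f a)) (Tr R' (S.set (ρ j)) (f a)) (S.rl (ρ i))) := by
  apply Dfn.all
  apply Dfn.all
  apply Dfn.imp
  · apply Dfn.rl (f := fun p : (α × List ℕ) × List ℕ => p.1.2) (g := fun p => p.2) <;> fun_prop
  · apply Dfn.all
    apply Dfn.imp
    · apply Dfn.tr hR (f := fun p : ((α × List ℕ) × List ℕ) × ℕ => f p.1.1.1)
        (g := fun p => p.1.1.2 ++ [p.2]) <;> fun_prop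
    · apply Dfn.ex
      apply Dfn.and
      · apply Dfn.tr hR' (f := fun p : (((α × List ℕ) × List ℕ) × ℕ) × ℕ => f p.1.1.1.1)
          (g := fun p => p.1.1.2 ++ [p.2]) <;> fun_prop
      · apply Dfn.rl (f := fun p : (((α × List ℕ) × List ℕ) × ℕ) × ℕ => p.1.1.1.2 ++ [p.1.2])
          (g := fun p => p.1.1.2 ++ [p.2]) <;> fun_prop

theorem Dfn.cc (hR : ComputablePred (fun p : ℕ × List ℕ × List ℕ => R p.1 p.2.1 p.2.2))
    (hR' : ComputablePred (fun p : ℕ × List ℕ × List ℕ => R' p.1 p.2.1 p.2.2))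
    {α : Type} [Primcodable α] {f : α → ℕ} (hf : Primrec f) {g h : α → List ℕ} (hg : Primrec g)
    (hh : Primrec h) (j : ℕ) :
    Dfn (fun S a ρ => CC R R' S (S.set (ρ j)) (f a) (g a) (h a)) := by
  apply Dfn.exX
  apply Dfn.and
  · exact Dfn.isSim hR hR' hf 0 (j + 1)
  · exact Dfn.rl hg hh 0

variable {S : Str} {d : S.ι} (hS : S.Compr d) {B : Set ℕ} {i : S.ι} (hi : S.set i = B)
  (hR : ComputablePred (fun p : ℕ × List ℕ × List ℕ => R p.1 p.2.1 p.2.2))
  (hR' : ComputablePred (fun p : ℕ × List ℕ × List ℕ => R' p.1 p.2.1 p.2.2))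

theorem CC.of_isSim {n : ℕ} {Z : List ℕ → List ℕ → Prop} {z : S.ι} (hz : ∀ u v, S.rl z u v ↔ Z u v)
    (h : IsSim (Tr R B n) (Tr R' B n) Z) {u v : List ℕ} (huv : Z u v) : CC R R' S B n u v := by
  refine ⟨z, ?_, (hz _ _).2 huv⟩
  have : S.rl z = Z := by funext u v; exact propext (hz u v)
  rw [this]; exact h

include hS hi hR hR'

theorem CC.step {n : ℕ} {u v : List ℕ} (h : ¬ CC R R' S B n u v) :
    ∃ a, Tr R B n (u ++ [a]) ∧ ∀ b, Tr R' B n (v ++ [b]) → ¬ CC R R' S B n (u ++ [a]) (v ++ [b]) := by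
  by_contra hcon
  push Not at hcon
  apply h
  have hD : Dfn (fun S (p : (List ℕ × List ℕ) × (ℕ × List ℕ × List ℕ)) ρ =>
      (p.1 = p.2.2) ∨ CC R R' S (S.set (ρ 0)) p.2.1 p.1.1 p.1.2) := by
    apply Dfn.or
    · apply Dfn.prim; fun_prop
    · apply Dfn.cc hR hR' <;> fun_prop
  obtain ⟨z, hz⟩ := hS.rel hD (n, u, v) [i]
  simp only [envOf, List.getD_cons_zero, hi] at hz
  refine CC.of_isSim (Z := fun u' v' => (u', v') = (u, v) ∨ CC R R' S B n u' v') (z := z)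
    (fun u' v' => hz (u', v')) ?_ (Or.inl rfl)
  rintro u' v' (h1 | ⟨z', h1, h2⟩) a ha
  · obtain ⟨rfl, rfl⟩ := Prod.mk.inj h1
    obtain ⟨b, hb, hb'⟩ := hcon a ha
    exact ⟨b, hb, Or.inr hb'⟩
  · obtain ⟨b, hb, hb'⟩ := h1 _ _ h2 a ha
    exact ⟨b, hb, Or.inr ⟨z', h1, hb'⟩⟩

theorem CC.dichotomy (n : ℕ) : CC R R' S B n [] [] ∨ CC R' R S B n [] [] := by
  by_contra hcon
  rw [not_or] at hcon
  obtain ⟨h1, h2⟩ := hcon
  have hD : Dfn (fun S (p : (List ℕ × List ℕ) × ℕ) ρ =>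
      ∃ u : List ℕ, ¬ CC R R' S (S.set (ρ 0)) p.2 u p.1.2 ∧ ¬ CC R' R S (S.set (ρ 0)) p.2 p.1.2 u) := by
    apply Dfn.ex
    apply Dfn.and
    · apply Dfn.not
      apply Dfn.cc hR hR' (f := fun p : ((List ℕ × List ℕ) × ℕ) × List ℕ => p.1.2)
        (g := fun p => p.2) (h := fun p => p.1.1.2) <;> fun_prop
    · apply Dfn.not
      apply Dfn.cc hR' hR (f := fun p : ((List ℕ × List ℕ) × ℕ) × List ℕ => p.1.2)
        (g := fun p => p.1.1.2) (h := fun p => p.2) <;> fun_prop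
  obtain ⟨z, hz⟩ := hS.rel hD n [i]
  simp only [envOf, List.getD_cons_zero, hi] at hz
  refine h1 (CC.of_isSim (Z := fun a v => ∃ u : List ℕ, ¬ CC R R' S B n u v ∧ ¬ CC R' R S B n v u)
    (z := z) (fun a v => hz (a, v)) ?_ ⟨[], h1, h2⟩)
  rintro a v ⟨u, hu1, hu2⟩ x -
  obtain ⟨a0, ha0, ha0'⟩ := CC.step hS hi hR hR' hu1
  obtain ⟨b0, hb0, hb0'⟩ := CC.step hS hi hR' hR hu2
  exact ⟨b0, hb0, u ++ [a0], ha0' b0 hb0, hb0' a0 ha0⟩

theorem CC.empty_iff (Y : Set ℕ)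
    (h1 : ∀ n : ℕ, n ∈ Y ↔ ∀ f : ℕ → ℕ, ∃ m : ℕ, R n (segB B m) (seg f m))
    (h2 : ∀ n : ℕ, n ∈ Yᶜ ↔ ∀ f : ℕ → ℕ, ∃ m : ℕ, R' n (segB B m) (seg f m)) (n : ℕ) :
    n ∈ Y ↔ CC R R' S B n [] [] := by
  constructor
  · intro hn
    rcases CC.dichotomy hS hi hR hR' n with h | ⟨z, hz, hz'⟩
    · exact h
    · exfalso
      have h3 : ¬ n ∈ Yᶜ := fun h => h hn
      rw [h2] at h3
      push Not at h3
      obtain ⟨f, hf⟩ := h3
      obtain ⟨g, hg⟩ := hz.path hz' f (tr_seg.2 hf)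
      obtain ⟨m, hm⟩ := (h1 n).1 hn g
      exact hg (m + 1) (by omega) m (by simp) (by
        have : (seg g (m + 1)).take m = seg g m := by
          rw [seg, ← List.map_take, List.take_range, min_eq_left (by omega), seg]
        rwa [this])
  · rintro ⟨z, hz, hz'⟩
    by_contra hn
    have h3 := hn
    rw [h1] at h3
    push Not at h3
    obtain ⟨f, hf⟩ := h3
    obtain ⟨g, hg⟩ := hz.path hz' f (tr_seg.2 hf)
    obtain ⟨m, hm⟩ := (h2 n).1 hn g
    exact hg (m + 1) (by omega) m (by simp) (by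
      have : (seg g (m + 1)).take m = seg g m := by
        rw [seg, ← List.map_take, List.take_range, min_eq_left (by omega), seg]
      rwa [this])

end simul

theorem not_pi11_of_omit {S : Str} {d : S.ι} (hS : S.Compr d) {B : Set ℕ} {i : S.ι}
    (hi : S.set i = B) (Y : Set ℕ) (hY : ∀ j, S.set j ≠ Y) : ¬ (Pi11 Y B ∧ Pi11 Yᶜ B) := by
  rintro ⟨⟨R, hR, h1⟩, ⟨R', hR', h2⟩⟩
  have key := CC.empty_iff (R := R) (R' := R') hS hi hR hR' Y h1 h2
  have hD : Dfn (fun S (n : ℕ) ρ => CC R R' S (S.set (ρ 0)) n [] []) := by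
    apply Dfn.cc hR hR' <;> fun_prop
  obtain ⟨j, hj⟩ := hS.of hD [i]
  simp only [envOf, List.getD_cons_zero, hi] at hj
  apply hY j
  ext n
  exact (hj n).trans (key n).symm

end Pool.Agent.Work.MP_64713a_lc
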