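import Pool.Agent.Work.MP_64713a_lc.Ext

set_option autoImplicit false

namespace Pool.Agent.Work.MP_64713a_lc

open Filter Topology

structure St (S : Str) (w : S.ι) (A : Set ℕ) (W : Ultrafilter ℕ) where
  t : Node
  σ : List ℕ
  z : S.ι
  hA : ∀ x ∈ σ, x ∈ A
  h1 : ∀ x ∈ stm t, x ∈ σ
  h2 : ∀ x ∈ σ, x ∈ stm t ∨ x ∈ S.Zn w t
  h3 : ∀ x, S.mem x z → x ∈ S.Zn w t
  h4 : 0 < mu W (A ∩ S.set z)

section states

variable {S : Str} {d : S.ι} (hC : S.Compr d) (hU : PhiU S) {w : S.ι} (hN : PhiN S w)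
  {A : Set ℕ} {W : Ultrafilter ℕ}
  (hW1 : (W : Filter ℕ) ≤ cofinite) (hW2 : ∀ N, S.UU N → N ∈ W)
  (hW3 : ∀ q : Leaf S A, {m | ¬ dGe (A ∩ S.set q.W) q.b m} ∈ W)

include hC hN in
theorem name_dense (n : ℕ) : ∀ (t : Node) (σ : List ℕ) (y : S.ι),
    (∀ z : ℕ, (z ∈ stm t → z ∈ σ) ∧ (z ∈ σ → z ∈ stm t ∨ z ∈ S.Zn w t)) →
    (∀ x : ℕ, S.mem x y → x ∈ S.Zn w t) → S.ps (S.set y) →
    ∃ t' : Node, t'.length = t.length + n + 1 ∧ t <:+ t' ∧
      (∀ x : ℕ, (x ∈ σ → x ∈ stm t') ∧ (x ∈ stm t' → x ∈ σ ∨ S.mem x y)) ∧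
      S.ps (S.set y ∩ S.Zn w t') := by
  induction n with
  | zero =>
    intro t σ y h1 h2 h3
    obtain ⟨e, he, he'⟩ := hN.2.2.2.2 t σ h1 y h2 h3
    exact ⟨e :: t, by simp, List.suffix_cons e t, by simpa using he, he'⟩
  | succ n ih =>
    intro t σ y h1 h2 h3
    obtain ⟨t', h4, h5, h6, h7⟩ := ih t σ y h1 h2 h3
    obtain ⟨y', hy'⟩ := has_inter hC ⟨y, rfl⟩ (has_Zn hC w t')
    have hy1 : ∀ x, S.mem x y' ↔ S.mem x y ∧ x ∈ S.Zn w t' := by
      intro x
      have : x ∈ S.set y' ↔ x ∈ S.set y ∩ S.Zn w t' := by rw [hy']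
      exact this
    obtain ⟨e, he, he'⟩ := hN.2.2.2.2 t' (stm t') (fun z => ⟨fun h => h, fun h => Or.inl h⟩) y'
      (fun x hx => ((hy1 x).1 hx).2) (by rw [hy']; exact h7)
    refine ⟨e :: t', by simp [h4]; omega, h5.trans (List.suffix_cons e t'), fun x => ⟨fun hx => ?_,
      fun hx => ?_⟩, ?_⟩
    · rw [stm_cons]; exact (he x).1 ((h6 x).1 hx)
    · rw [stm_cons] at hx
      rcases (he x).2 hx with h8 | h8
      · exact (h6 x).2 h8
      · exact Or.inr ((hy1 x).1 h8).1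
    · rw [hy'] at he'
      have h8 : S.set y ∩ S.Zn w t' ∩ S.Zn w (e :: t') = S.set y ∩ S.Zn w (e :: t') := by
        ext x
        simp only [Set.mem_inter_iff]
        constructor
        · rintro ⟨⟨h8, -⟩, h9⟩; exact ⟨h8, h9⟩
        · rintro ⟨h8, h9⟩; exact ⟨⟨h8, hN.2.1 t' e x h9⟩, h9⟩
      rw [h8] at he'
      exact he'

include hC hW2 hW3 in
theorem step_of_fd (p : St S w A W) {a : Node × ℕ × ℕ × ℕ} {b : ℕ} (hb : 0 < b)
    (hmu : (1 : ℝ) / b < mu W (A ∩ S.set p.z)) (hfd : S.fd w a p.σ p.z (2 * b)) :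
    ∃ q : St S w A W, PP a q.t ∧ q.σ = stm q.t ∧ (∀ x ∈ p.σ, x ∈ q.σ) ∧
      (∀ x ∈ q.σ, x ∈ p.σ ∨ S.mem x p.z) ∧ S.set q.z = S.set p.z ∩ S.Zn w q.t := by
  classical
  have hD : Dfn (fun S (q : (List ℕ × ℕ × ℕ) × ((Node × ℕ × ℕ × ℕ) × List ℕ)) ρ =>
      ∃ t' : Node, (Encodable.encode t' = q.1.2.1 ∧ PP q.2.1 t') ∧
        (∀ x : ℕ, (x ∈ q.2.2 → x ∈ stm t') ∧ (x ∈ stm t' → x ∈ q.2.2 ∨ x ∈ q.1.1)) ∧
        q.1.2.2 ∈ S.Zn (ρ 0) t') := by
    apply Dfn.ex
    apply Dfn.and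
    · apply Dfn.prim
      apply q_and
      · fun_prop
      · exact q_PP (f := fun p : ((List ℕ × ℕ × ℕ) × ((Node × ℕ × ℕ × ℕ) × List ℕ)) × Node => p.1.2.1)
          (g := fun p => p.2) (by fun_prop) (by fun_prop)
    · apply Dfn.and
      · apply Dfn.all
        apply Dfn.and
        · apply Dfn.imp
          · apply Dfn.prim; fun_prop
          · apply Dfn.prim; fun_prop
        · apply Dfn.imp
          · apply Dfn.prim; fun_prop
          · apply Dfn.prim; fun_prop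
      · exact Dfn.mZn 0 (f := fun p : ((List ℕ × ℕ × ℕ) × ((Node × ℕ × ℕ × ℕ) × List ℕ)) × Node => p.2)
          (g := fun p => p.1.1.2.2) (by fun_prop) (by fun_prop)
  obtain ⟨H, hH⟩ := hC.rel hD (a, p.σ) [w]
  simp only [envOf, List.getD_cons_zero] at hH
  have hH' : ∀ s (t' : Node), PP a t' → (∀ x : ℕ, (x ∈ p.σ → x ∈ stm t') ∧
      (x ∈ stm t' → x ∈ p.σ ∨ x ∈ s)) → S.Hs H s (Encodable.encode t') = S.Zn w t' := by
    intro s t' h1 h2
    ext x
    refine (hH (s, Encodable.encode t', x)).trans ⟨?_, fun h => ⟨t', ⟨rfl, h1⟩, h2, h⟩⟩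
    rintro ⟨t'', ⟨h3, -⟩, -, h4⟩
    have := Encodable.encode_injective h3
    subst this
    exact h4
  have hden : S.cden (S.set p.z) (S.Hs H) (2 * b) := by
    intro y hy hd
    obtain ⟨t', h1, h2, h3⟩ := hfd y hy hd
    refine ⟨(stm t').filter (fun x => S.mem x y), Encodable.encode t', ?_, ?_⟩
    · intro z hz
      simpa using (List.mem_filter.1 hz).2
    · rw [hH' _ t' h1]
      · exact h3
      · intro x
        refine ⟨(h2 x).1, fun hx => ?_⟩
        rcases (h2 x).2 hx with h4 | h4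
        · exact Or.inl h4
        · exact Or.inr (List.mem_filter.2 ⟨hx, by simpa using h4⟩)
  obtain ⟨s, k, hs, hk⟩ := main_lemma hC hW2 hW3 hb hmu hden
  have hne : (A ∩ (S.set p.z ∩ S.Hs H s k)).Nonempty := by
    rw [Set.nonempty_iff_ne_empty]
    intro h
    rw [h, mu_empty] at hk
    exact lt_irrefl _ hk
  obtain ⟨x0, -, -, hx0⟩ := hne
  obtain ⟨t', ⟨h1, h2⟩, h3, -⟩ := (hH (s, k, x0)).1 hx0
  simp only at h1 h3
  subst h1
  rw [hH' s t' h2 h3] at hk
  obtain ⟨z', hz'⟩ := has_inter hC ⟨p.z, rfl⟩ (has_Zn hC w t')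
  refine ⟨⟨t', stm t', z', fun x hx => ?_, fun x hx => hx, fun x hx => Or.inl hx, fun x hx => ?_, ?_⟩,
    h2, rfl, fun x hx => (h3 x).1 hx, fun x hx => ?_, hz'⟩
  · rcases (h3 x).2 hx with h4 | h4
    · exact p.hA x h4
    · exact (hs x h4).1
  · have : x ∈ S.set z' := hx
    rw [hz'] at this
    exact this.2
  · rw [hz']; exact hk
  · rcases (h3 x).2 hx with h4 | h4
    · exact Or.inl h4
    · exact Or.inr (hs x h4).2

/-- extension of states -/
def Ext (p q : St S w A W) : Prop := p.t <:+ q.t ∧ ∀ x ∈ p.σ, x ∈ q.σ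

theorem Ext.trans {p q r : St S w A W} (h : Ext p q) (h' : Ext q r) : Ext p r :=
  ⟨h.1.trans h'.1, fun x hx => h'.2 x (h.2 x hx)⟩

include hW1 in
theorem step_A (p : St S w A W) (k : ℕ) : ∃ q, Ext p q ∧ ∃ x ∈ q.σ, k ≤ x := by
  obtain ⟨x, ⟨hx1, hx2⟩, hx3⟩ := (infinite_of_mu_pos hW1 p.h4).exists_gt k
  refine ⟨⟨p.t, x :: p.σ, p.z, ?_, ?_, ?_, p.h3, p.h4⟩, ⟨List.suffix_rfl, ?_⟩, x, by simp, hx3.le⟩
  · intro y hy
    rcases List.mem_cons.1 hy with rfl | h
    · exact hx1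
    · exact p.hA y h
  · intro y hy
    exact List.mem_cons_of_mem _ (p.h1 y hy)
  · intro y hy
    rcases List.mem_cons.1 hy with rfl | h
    · exact Or.inr (p.h3 y hx2)
    · exact p.h2 y h
  · intro y hy
    exact List.mem_cons_of_mem _ hy

theorem stems_ok (p : St S w A W) :
    ∀ z : ℕ, (z ∈ stm p.t → z ∈ p.σ) ∧ (z ∈ p.σ → z ∈ stm p.t ∨ z ∈ S.Zn w p.t) :=
  fun z => ⟨p.h1 z, p.h2 z⟩

theorem PP_iff {t t' : Node} {L pos i : ℕ} : PP (t, L, pos, i) t' ↔
    t <:+ t' ∧ t'.length = L ∧ (i = 0 ∨ ¬ (dig t')[pos]? = some 1) := by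
  unfold PP
  rw [List.suffix_iff_eq_drop]

include hC hN in
theorem fd_zero (p : St S w A W) (n : ℕ) (b : ℕ) (hb : 0 < b) :
    S.fd w (p.t, p.t.length + n + 1, 0, 0) p.σ p.z b := by
  intro y hy hd
  obtain ⟨t', h1, h2, h3, h4⟩ := name_dense hC hN n p.t p.σ y (stems_ok p)
    (fun x hx => p.h3 x (hy x hx)) ⟨b, hb, hd⟩
  exact ⟨t', PP_iff.2 ⟨h2, h1, Or.inl rfl⟩, h3, h4⟩

include hC hN hW2 hW3 in
theorem step_B (p : St S w A W) (n : ℕ) : ∃ q : St S w A W, Ext p q ∧ q.t.length = p.t.length + n + 1 ∧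
    (∀ x ∈ q.σ, x ∈ p.σ ∨ S.mem x p.z) ∧ q.σ = stm q.t ∧ S.set q.z = S.set p.z ∩ S.Zn w q.t := by
  obtain ⟨b, hb, hb', -⟩ := exists_dGe_of_pos p.h4
  obtain ⟨q, h1, h2, h3, h4, h5⟩ := step_of_fd hC hW2 hW3 p hb hb'
    (fd_zero hC hN p n (2 * b) (by omega))
  rw [PP_iff] at h1
  exact ⟨q, ⟨h1.1, h3⟩, h1.2.1, h4, h2, h5⟩

include hC hU hN hW2 hW3 in
theorem step_C (X : Set ℕ) (hX : ∀ i, S.set i ≠ X) (p : St S w A W) (e : ℕ) :
    ∃ q : St S w A W, Ext p q ∧ ∃ n i, (dig q.t)[pE n e]? = some i ∧ ¬ (i = 1 ↔ n ∈ X) := by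
  obtain ⟨b, hb, hb', -⟩ := exists_dGe_of_pos p.h4
  have hbR : (0 : ℝ) < b := by exact_mod_cast hb
  -- near minimal measure
  let T : Set ℝ := {r | ∃ z' : S.ι, (∀ x, S.mem x z' → S.mem x p.z) ∧
    mu W (A ∩ S.set z') = mu W (A ∩ S.set p.z) ∧ r = mu W (S.set z')}
  have hT1 : T.Nonempty := ⟨_, p.z, fun x hx => hx, rfl, rfl⟩
  have hT2 : BddBelow T := ⟨0, by rintro r ⟨z', -, -, rfl⟩; exact mu_nonneg _⟩
  have h1 : sInf T < sInf T + 1 / (2 * b) := by
    have : (0 : ℝ) < 1 / (2 * b) := by positivity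
    linarith
  obtain ⟨_, ⟨z, hz1, hz2, rfl⟩, hz3⟩ := exists_lt_of_csInf_lt hT1 h1
  have key : ∀ y : S.ι, (∀ x, S.mem x y → S.mem x z) → S.dn (S.set y) (2 * b) →
      0 < mu W (A ∩ S.set y) := by
    intro y hy hd
    by_contra hc
    have hc' : mu W (A ∩ S.set y) = 0 := le_antisymm (not_lt.1 hc) (mu_nonneg _)
    obtain ⟨v, hv⟩ := has_sdiff hC ⟨z, rfl⟩ (⟨y, rfl⟩ : S.Has (S.set y))
    have hv' : ∀ x, S.mem x v → S.mem x z ∧ ¬ S.mem x y := by
      intro x hx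
      have : x ∈ S.set v := hx
      rw [hv] at this
      exact this
    have h2 := mu_add (W := W) (A ∩ S.set z) (S.set y)
    have h3 : (A ∩ S.set z) \ S.set y = A ∩ S.set v := by
      rw [hv]; ext x; simp only [Set.mem_sdiff, Set.mem_inter_iff]; tauto
    have h4 : A ∩ S.set z ∩ S.set y = A ∩ S.set y := by
      ext x
      simp only [Set.mem_inter_iff]
      constructor
      · rintro ⟨⟨h5, h6⟩, h7⟩; exact ⟨h5, h7⟩
      · rintro ⟨h5, h7⟩; exact ⟨⟨h5, hy x h7⟩, h7⟩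
    rw [h3, h4, hc', zero_add, hz2] at h2
    have h5 : sInf T ≤ mu W (S.set v) := csInf_le hT2 ⟨v, fun x hx => hz1 x (hv' x hx).1, h2, rfl⟩
    have h6 := mu_add (W := W) (S.set z) (S.set y)
    have h7 : S.set z ∩ S.set y = S.set y := Set.inter_eq_right.2 hy
    rw [h7, ← hv] at h6
    have h8 := le_mu_of_dn hW2 (show 0 < 2 * b by omega) hd
    push_cast at h8
    linarith
  let p' : St S w A W := ⟨p.t, p.σ, z, p.hA, p.h1, p.h2, fun x hx => p.h3 x (hz1 x hx), by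
    rw [hz2]; exact p.h4⟩
  let aa : ℕ → Node × ℕ × ℕ × ℕ := fun n => (p.t, p.t.length + pE n e + 1, pE n e, 1)
  by_cases hc1 : ∃ n, n ∈ X ∧ S.fd w (aa n) p.σ z (2 * b)
  · obtain ⟨n, hn, hfd⟩ := hc1
    obtain ⟨q, h2, h3, h4, -, -⟩ := step_of_fd hC hW2 hW3 p' hb (by
      change _ < mu W (A ∩ S.set z); rw [hz2]; exact hb') hfd
    obtain ⟨h5, h6, h7⟩ := PP_iff.1 h2
    have h8 : pE n e < (dig q.t).length := by rw [dig_length]; omega
    refine ⟨q, ⟨h5, h4⟩, n, (dig q.t)[pE n e], List.getElem?_eq_getElem h8, ?_⟩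
    rintro h9
    rcases h7 with h7 | h7
    · exact absurd h7 (by norm_num)
    · apply h7
      rw [List.getElem?_eq_getElem h8, h9.2 hn]
  · by_cases hc2 : ∃ n, n ∉ X ∧ ¬ S.fd w (aa n) p.σ z (2 * b)
    · obtain ⟨n, hn, hfd⟩ := hc2
      unfold Str.fd at hfd
      push Not at hfd
      obtain ⟨y, hy1, hy2, hy3⟩ := hfd
      let r : St S w A W := ⟨p.t, p.σ, y, p.hA, p.h1, p.h2, fun x hx => p.h3 x (hz1 x (hy1 x hx)),
        key y hy1 hy2⟩
      obtain ⟨q, h2, h3, h4, h5, h6⟩ := step_B hC hN hW2 hW3 r (pE n e)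
      have h3 : q.t.length = p.t.length + pE n e + 1 := h3
      have h7 : pE n e < (dig q.t).length := by rw [dig_length]; omega
      refine ⟨q, h2, n, (dig q.t)[pE n e], List.getElem?_eq_getElem h7, ?_⟩
      intro h8
      have h9 : ¬ (dig q.t)[pE n e] = 1 := fun h => hn (h8.1 h)
      apply hy3 q.t
      · rw [PP_iff]
        refine ⟨h2.1, h3, Or.inr ?_⟩
        rw [List.getElem?_eq_getElem h7]
        intro h10
        exact h9 (Option.some.inj h10)
      · intro x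
        refine ⟨fun hx => ?_, fun hx => ?_⟩
        · rw [← h5]; exact h2.2 x hx
        · rw [← h5] at hx; exact h4 x hx
      · rw [← h6]
        apply ps_of_mu_pos hC hU hW2 ⟨q.z, rfl⟩
        exact lt_of_lt_of_le q.h4 (mu_mono Set.inter_subset_right)
    · exfalso
      push Not at hc1 hc2
      have hD : Dfn (fun S (x : ℕ × (Node × ℕ × List ℕ × ℕ)) ρ =>
          ¬ S.fd (ρ 0) (x.2.1, x.2.1.length + pE x.1 x.2.2.1 + 1, pE x.1 x.2.2.1, 1)
            x.2.2.2.1 (ρ 1) (2 * x.2.2.2.2)) := by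
        apply Dfn.not
        apply Dfn.fd <;> fun_prop
      obtain ⟨i, hi⟩ := hC.of_param hD (p.t, e, p.σ, b) [w, z]
      apply hX i
      ext n
      refine (hi n).trans ?_
      simp only [envOf, List.getD_cons_zero, List.getD_cons_succ]
      constructor
      · intro h
        by_contra hn
        exact h (hc2 n hn)
      · intro hn
        exact hc1 n hn

include hC hU hN hW1 hW2 hW3 in
theorem step_all (X : Set ℕ) (hX : ∀ i, S.set i ≠ X) (p : St S w A W) (e : ℕ) :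
    ∃ q : St S w A W, Ext p q ∧ (∃ x ∈ q.σ, e ≤ x) ∧ e ≤ q.t.length ∧
      ∃ n i, (dig q.t)[pE n e]? = some i ∧ ¬ (i = 1 ↔ n ∈ X) := by
  obtain ⟨q1, h1, x, hx, hx'⟩ := step_A hW1 p e
  obtain ⟨q2, h2, h3, -⟩ := step_B hC hN hW2 hW3 q1 e
  obtain ⟨q3, h4, h5⟩ := step_C hC hU hN hW2 hW3 X hX q2 e
  refine ⟨q3, h1.trans (h2.trans h4), ⟨x, h4.2 x (h2.2 x hx), hx'⟩, ?_, h5⟩
  have := h4.1.length_le
  omega

end states

theorem dig_suffix {t t' : Node} (h : t <:+ t') : dig t <+: dig t' := by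
  obtain ⟨r, rfl⟩ := h
  unfold dig
  rw [List.map_append, List.reverse_append]
  exact List.prefix_append _ _

/-- the conclusion of the construction -/
theorem construct {S : Str} {d : S.ι} (hC : S.Compr d) (hPhi : Phi S) (X : Set ℕ)
    (hX : ∀ i, S.set i ≠ X) (A : Set ℕ)
    (hA : ∀ W : Ultrafilter ℕ, (W : Filter ℕ) ≤ cofinite → 0 < mu W A) :
    ∃ B : Set ℕ, B ⊆ A ∧ B.Infinite ∧ ∃ f : ℕ → ℕ, Good f ∧ (∀ n, f (pE n 0) = 1 ↔ n ∈ B) ∧
      ∀ e, ¬ ∀ n, n ∈ X ↔ f (pE n e) = 1 := by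
  obtain ⟨hU, hP, w, hN⟩ := hPhi
  obtain ⟨W, hW1, hW2, hW3⟩ := exists_ultra (A := A) hC hU hP
  obtain ⟨u, hu⟩ := has_univ hC
  let p0 : St S w A W := ⟨[], [], u, by simp, by simp [stm], by simp, fun x _ => hN.1 x, by
    rw [hu, Set.inter_univ]; exact hA W hW1⟩
  choose nx h1 h2 h3 n i h4 h5 using step_all hC hU hN hW1 hW2 hW3 X hX
  obtain ⟨p, hp⟩ : ∃ p : ℕ → St S w A W, ∀ k, p (k + 1) = nx (p k) k :=
    ⟨fun k => Nat.rec p0 (fun e q => nx q e) k, fun k => rfl⟩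
  have hext : ∀ j k, j ≤ k → Ext (p j) (p k) := by
    intro j k hjk
    induction k, hjk using Nat.le_induction with
    | base => exact ⟨List.suffix_rfl, fun x hx => hx⟩
    | succ k _ ih => rw [hp]; exact ih.trans (h1 (p k) k)
  have hlen : ∀ k, k ≤ (p (k + 1)).t.length := fun k => by rw [hp]; exact h3 _ _
  -- the function
  obtain ⟨f, hfdef⟩ : ∃ f : ℕ → ℕ, ∀ m, f m = (dig (p (m + 2)).t)[m]?.getD 0 :=
    ⟨_, fun m => rfl⟩
  have hf : ∀ k m, m < (p k).t.length → (dig (p k).t)[m]? = some (f m) := by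
    intro k m hm
    have e1 : m < (dig (p (m + 2)).t).length := by
      rw [dig_length]; have : m + 1 ≤ (p (m + 2)).t.length := hlen (m + 1)
      omega
    have e2 : m < (dig (p k).t).length := by rw [dig_length]; exact hm
    have e3 : (dig (p (m + 2)).t)[m]? = some (f m) := by
      rw [hfdef, List.getElem?_eq_getElem e1]; rfl
    rcases le_total k (m + 2) with h | h
    · have := (dig_suffix (hext _ _ h).1)
      rw [← e3]
      rw [List.getElem?_eq_getElem e1, List.getElem?_eq_getElem e2, this.getElem e2]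
    · have := (dig_suffix (hext _ _ h).1)
      rw [← e3]
      rw [List.getElem?_eq_getElem e1, List.getElem?_eq_getElem e2, ← this.getElem e1]
  have hps : ∀ k, S.ps (S.Zn w (p k).t) := by
    intro k
    apply ps_of_mu_pos hC hU hW2 (has_Zn hC w _)
    refine lt_of_lt_of_le (p k).h4 (mu_mono ?_)
    rintro x ⟨-, hx⟩
    exact (p k).h3 x hx
  have hZmono : ∀ r t : Node, S.Zn w (r ++ t) ⊆ S.Zn w t := by
    intro r t
    induction r with
    | nil => exact subset_rfl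
    | cons e r ih => exact fun x hx => ih (hN.2.1 (r ++ t) e x hx)
  have hps' : ∀ k, ∀ t : Node, t <:+ (p k).t → S.ps (S.Zn w t) := by
    rintro k t ⟨r, hr⟩
    apply ps_of_mu_pos hC hU hW2 (has_Zn hC w _)
    have := mu_pos_of_ps hW2 (hps k)
    rw [← hr] at this
    exact lt_of_lt_of_le this (mu_mono (hZmono r t))
  let B : Set ℕ := {x | ∃ k, x ∈ (p k).σ}
  refine ⟨B, ?_, ?_, f, ?_, ?_, ?_⟩
  · rintro x ⟨k, hk⟩
    exact (p k).hA x hk
  · rw [Set.infinite_iff_exists_gt]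
    intro a
    obtain ⟨x, hx, hx'⟩ := h2 (p (a + 1)) (a + 1)
    rw [← hp] at hx
    exact ⟨x, ⟨_, hx⟩, by omega⟩
  · rw [good_iff]
    intro m
    have e1 := hlen m
    set T := (p (m + 1)).t with hT
    have e2 : T.drop (T.length - m) <:+ T := List.drop_suffix _ _
    have e3 : (T.drop (T.length - m)).length = m := by rw [List.length_drop]; omega
    have e4 : seg f m = dig (T.drop (T.length - m)) := by
      apply List.ext_getElem?
      intro j
      by_cases hj : j < m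
      · rw [seg_getElem?_eq_some.2 ⟨hj, rfl⟩]
        have e5 : j < (dig (T.drop (T.length - m))).length := by rw [dig_length, e3]; exact hj
        have e6 := (dig_suffix e2).getElem e5
        rw [List.getElem?_eq_getElem e5, e6]
        have e8 : j < T.length := by omega
        have e7 := hf (m + 1) j e8
        have e9 : j < (dig (p (m + 1)).t).length := by rw [dig_length]; exact e8
        rw [List.getElem?_eq_getElem e9] at e7
        exact e7.symm
      · rw [List.getElem?_eq_none (by simp; omega), List.getElem?_eq_none (by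
          rw [dig_length, e3]; omega)]
    rw [e4]
    exact (hN.2.2.1 _ (hps' (m + 1) _ e2)).1
  · intro x
    have hx1 : x ≤ pE x 0 := by
      have a := Nat.left_le_pair x 0
      have b := Nat.right_le_pair 3 (Nat.pair x 0)
      unfold pE; omega
    have main : ∀ k, pE x 0 < (p k).t.length → (f (pE x 0) = 1 ↔ x ∈ stm (p k).t) := by
      intro k hk
      exact (hN.2.2.1 _ (hps k)).2.1 x _ (hf k _ hk)
    constructor
    · intro h
      have e1 : pE x 0 + 1 ≤ (p (pE x 0 + 2)).t.length := hlen (pE x 0 + 1)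
      exact ⟨_, (p _).h1 x ((main (pE x 0 + 2) (by omega)).1 h)⟩
    · rintro ⟨k, hk⟩
      have e1 := hlen (pE x 0 + 1 + k)
      have e2 : pE x 0 < (p (pE x 0 + 1 + k + 1)).t.length := by omega
      rw [main _ e2]
      have e3 := (hext k (pE x 0 + 1 + k + 1) (by omega)).2 x hk
      rcases (p _).h2 x e3 with h | h
      · exact h
      · exfalso
        have := (hN.2.2.1 _ (hps _)).2.2 x h
        omega
  · intro e he
    have e1 := h4 (p e) e
    have e2 := h5 (p e) e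
    rw [← hp] at e1
    have e3 : pE (n (p e) e) e < (p (e + 1)).t.length := by
      have := (List.getElem?_eq_some_iff.1 e1).1
      rwa [dig_length] at this
    rw [hf _ _ e3] at e1
    rw [← Option.some.inj e1] at e2
    exact e2 (he _).symm

end Pool.Agent.Work.MP_64713a_lc
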